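import Pool.Agent.H.MP_cba12a_lc.X10.AlgD

/-!
The polynomial-time learner for unate DNF formulas in which any `t + 1` variables occur together
in at most `d` terms: definitions.
-/

namespace Pool.Agent.H.MP_cba12a_lc

/-- the chains for the terms with fewer than `m0` variables -/
def chains11 (N m0 t d B : ℕ) (V : List Lit) (S : Samples) (h0 : List (List Lit)) :
    List (List Lit) :=
  (List.range m0).flatMap fun m => (List.range m0).flatMap fun k =>
    chainL10 N (2 ^ (m + t + 2 + d * m ^ (t + 1))) B V S h0 k

/-- the conjunction read off from the mixed derivative over `R` with `J` on and `W` off -/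
def det11 (V : List Lit) (S : Samples) (H : List (List Lit)) (J R W : List Lit) : List Lit :=
  J ++ (R ++ V.filter fun l => !((J ++ R).any fun l' => l'.1 == l.1) &&
    decide (4 * cnt10 S true false R (neg l :: (J ++ W.map neg)) (strip10 R H) +
        cnt10 S true true R (J ++ W.map neg) (strip10 R H) <
      cnt10 S true false R (J ++ W.map neg) (strip10 R H) +
        4 * cnt10 S true true R (neg l :: (J ++ W.map neg)) (strip10 R H)))

/-- all literals -/
def lits11 (n : ℕ) : List Lit :=
  ((List.range n).map fun i => (i, true)) ++ (List.range n).map fun i => (i, false)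

/-- the candidates of one round: `J` has at most `s` elements, `R` at most `K`, `W` at most `w`;
`J` and `R` consist of literals of `V`, `W` of literals of `U` -/
def cands11 (N s K w : ℕ) (U V : List Lit) (S : Samples) (H : List (List Lit)) :
    List (List Lit) :=
  (seeds N s V).flatMap fun J => (seeds N K V).flatMap fun R =>
    (seeds N w U).map fun W => det11 V S H J R W

/-- one round -/
def round11 (N s K w B : ℕ) (U V : List Lit) (S : Samples) (h0 H : List (List Lit)) :
    List (List Lit) :=
  mins10 B S h0 (cands11 N s K w U V S H) ++ H

/-- the learner, given the variables `V` and the list `U` of all literals -/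
def coreV11 (N t d K w m0 A B R0 : ℕ) (U V : List Lit) (S : Samples) : List (List Lit) :=
  (round11 N (2 * t) K w B U V S (small10 A S (seeds N t V)))^[R0]
    (mins10 B S (small10 A S (seeds N t V))
      (chains11 N m0 t d B V S (small10 A S (seeds N t V))) ++ small10 A S (seeds N t V))

/-- the learner -/
def core11 (N t d K w m0 A B R0 Θ n : ℕ) (S : Samples) : List (List Lit) :=
  coreV11 N t d K w m0 A B R0 (lits11 n) (orient n Θ S) S

end Pool.Agent.H.MP_cba12a_lc
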