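import Pool.Agent.H.MP_cba12a_lc.X10.Base

/-!
Basic notions for the polynomial-time learner of unate DNF formulas in which any `t + 1` variables
occur together in at most `d` terms.
-/

namespace Pool.Agent.H.MP_cba12a_lc

open Finset

variable {n : ℕ}

/-- every set of `t + 1` variables is contained in at most `d` members of `F` -/
def Cod (t d : ℕ) (F : Finset (Finset (Fin n))) : Prop :=
  ∀ S : Finset (Fin n), S.card = t + 1 → (F.filter fun A => S ⊆ A).card ≤ d

theorem Cod.mono {t d : ℕ} {F G : Finset (Finset (Fin n))} (h : Cod t d F) (hG : G ⊆ F) :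
    Cod t d G :=
  fun S hS => (card_le_card (filter_subset_filter _ hG)).trans (h S hS)

/-- the union of the members of a list of sets -/
def lU : List (Finset (Fin n)) → Finset (Fin n)
  | [] => ∅
  | B :: P => B ∪ lU P

theorem lU_nil : lU ([] : List (Finset (Fin n))) = ∅ := rfl

theorem lU_cons (B : Finset (Fin n)) (P : List (Finset (Fin n))) : lU (B :: P) = B ∪ lU P := rfl

theorem mem_lU {P : List (Finset (Fin n))} {i : Fin n} : i ∈ lU P ↔ ∃ B ∈ P, i ∈ B := by
  induction P with
  | nil => simp [lU]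
  | cons B P ih => simp [lU, ih]

/-- `A` shares with each member of `P` at most the part `1 / (2 q)` of its elements -/
def Gd11 (q : ℕ) (P : List (Finset (Fin n))) (A : Finset (Fin n)) : Prop :=
  ∀ B ∈ P, 2 * q * (A ∩ B).card ≤ A.card

/-- the list `P` can be extended by `k` members of `𝒢` with the property `on`, each sharing only a
small part with the earlier members -/
def Chn11 (𝒢 : Finset (Finset (Fin n))) (q : ℕ) (on : Finset (Fin n) → Prop) :
    ℕ → List (Finset (Fin n)) → Prop
  | 0, _ => True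
  | k + 1, P => ∃ A ∈ 𝒢, Gd11 q P A ∧ on A ∧ Chn11 𝒢 q on k (A :: P)

theorem chn11_zero (𝒢 : Finset (Finset (Fin n))) (q : ℕ) (on : Finset (Fin n) → Prop)
    (P : List (Finset (Fin n))) : Chn11 𝒢 q on 0 P ↔ True := Iff.rfl

theorem chn11_succ (𝒢 : Finset (Finset (Fin n))) (q : ℕ) (on : Finset (Fin n) → Prop) (k : ℕ)
    (P : List (Finset (Fin n))) :
    Chn11 𝒢 q on (k + 1) P ↔ ∃ A ∈ 𝒢, Gd11 q P A ∧ on A ∧ Chn11 𝒢 q on k (A :: P) := Iff.rfl

/-- the bound for one more covering set: `W` bounds the weight of the allowed sets, `ℓ'` their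
size, `m1` is the least size -/
noncomputable def fb11 (t d q ℓ' m1 : ℕ) (W : ℝ) : ℝ :=
  2 ^ (q * t) * W + q * d * (ℓ' : ℝ) ^ (t + 1) * (1 / 2) ^ (m1 / 2)

/-- the probability that `T` is on, `h = 0` and no shorter unfound term is on -/
noncomputable def w11 (o : Fin n → Bool) (F H : Finset (Finset (Fin n))) (T : Finset (Fin n)) : ℝ :=
  pr fun x => On o T x ∧ Off o H x ∧ ∀ A ∈ Nf F H, A.card < T.card → ¬ On o A x

/-- the variables of `Bs` are off -/
def BOff (o : Fin n → Bool) (Bs : Finset (Fin n)) (x : Fin n → Bool) : Prop :=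
  ∀ b ∈ Bs, x b ≠ o b

/-- the detection condition: with `J` on and `Bs` off the noise is much smaller than the signal,
and the signal is at least `σ` -/
def Det11 (o : Fin n → Bool) (F H : Finset (Finset (Fin n))) (T J R Bs : Finset (Fin n))
    (σ : ℝ) : Prop :=
  16 * pr (fun x => On o J x ∧ Cov10 o F H T R x ∧ BOff o Bs x) ≤
      pr (fun x => Only10 o F H T x ∧ BOff o Bs x) ∧
    σ ≤ pr (fun x => Only10 o F H T x ∧ BOff o Bs x)

end Pool.Agent.H.MP_cba12a_lc
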