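import Pool.Agent.H.MP_cba12a_lc.X10.Hot2

/-!
Small patterns of the other terms on a term.
-/

namespace Pool.Agent.H.MP_cba12a_lc

open Finset

variable {n : ℕ} {o : Fin n → Bool} {F : Finset (Finset (Fin n))}

/-- Let `U ⊆ T`. The event that no member of `F` other than `T` is on once `U` is set on, but some
member `A ≠ T` with `|A ∩ (T \ U)| ≤ s` is on outside `T`, has density at most `2^s` times the
total decrease through single variables of `T \ U`.
Proof as for `patterns10` (file `X10/Hot2.lean`, read it first): let `A x` be the first (in a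
fixed enumeration of `F`) member with these properties; the events `E_A` that `A` is chosen are
disjoint and do not depend on the variables of `T`; apply `exit10` to
`P x = (∀ A ∈ F, A ≠ T → ¬ On o A (sOn o U x))`, `A ∩ (T \ U)` and `E_A` (on `E_A`, `P` fails once
`A ∩ (T \ U)` is set on), and sum over `A` (`hot2_sum_le10`). The probability
`pr (P x ∧ ¬ P (sOn o {i} x))` is the difference of the two probabilities, as `P` is decreasing and
`sOn o U (sOn o {i} x) = sOn o (insert i U) x`. -/
theorem patterns11 {s : ℕ} {T U : Finset (Fin n)} (hU : U ⊆ T) :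
    pr (fun x => (∀ A ∈ F, A ≠ T → ¬ On o A (sOn o U x)) ∧
        ∃ A ∈ F, A ≠ T ∧ (A ∩ (T \ U)).card ≤ s ∧ On o (A \ T) x) ≤
      2 ^ s * ∑ i ∈ T \ U, (pr (fun x => ∀ A ∈ F, A ≠ T → ¬ On o A (sOn o U x)) -
        pr (fun x => ∀ A ∈ F, A ≠ T → ¬ On o A (sOn o (insert i U) x))) := by
  classical
  set P : (Fin n → Bool) → Prop := fun x => ∀ A ∈ F, A ≠ T → ¬ On o A (sOn o U x) with hPdef
  have hP : DnP o P := by
    intro i x h A hA hAT
    exact (dnP_not_on o A).sOn U i x (h A hA hAT)
  set W := T \ U with hW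
  -- the chosen pattern
  have hch : ∃ c : Finset (Finset (Fin n)) → Finset (Fin n), ∀ S, S.Nonempty → c S ∈ S := by
    refine ⟨fun S => if h : S.Nonempty then h.choose else ∅, fun S h => ?_⟩
    simp only [dif_pos h]
    exact h.choose_spec
  obtain ⟨c, hc⟩ := hch
  obtain ⟨G, hG⟩ : ∃ G : (Fin n → Bool) → Finset (Finset (Fin n)), ∀ x,
      G x = (Hot2Pat10 o F T x).filter fun A => (A ∩ W).card ≤ s := ⟨_, fun _ => rfl⟩
  have hGm : ∀ x A, A ∈ G x ↔ (A ∈ F ∧ A ≠ T ∧ On o (A \ T) x) ∧ (A ∩ W).card ≤ s := by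
    intro x A
    rw [hG, mem_filter, hot2_mem_pat10]
  set E : Finset (Fin n) → (Fin n → Bool) → Prop := fun A x =>
    (G x).Nonempty ∧ c (G x) = A with hEdef
  have hstep : ∀ A ∈ F.erase T, pr (fun x => P x ∧ E A x) ≤
      2 ^ s * ∑ i ∈ W, pr (fun x => P x ∧ E A x ∧ ¬ P (sOn o {i} x)) := by
    intro A hA
    rw [mem_erase] at hA
    by_cases hcard : (A ∩ W).card ≤ s
    · have h1 := exit10 (E := E A) hP (A ∩ W) (fun i hi x v => by
          rw [mem_inter, hW, mem_sdiff] at hi
          have h2 : G (Function.update x i v) = G x := by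
            rw [hG, hG, hot2_pat_update10 hi.2.1]
          simp only [hEdef, h2]) (fun x hx hPx => by
          have h2 := hc _ hx.1
          rw [hx.2, hGm] at h2
          refine hPx A hA.2 hA.1 ?_
          rw [sOn_sOn, on_sOn_iff]
          refine On.mono ?_ h2.1.2.2
          intro j hj
          rw [mem_sdiff, mem_union, mem_inter, hW, mem_sdiff] at hj
          rw [mem_sdiff]
          refine ⟨hj.1, fun hjT => hj.2 ?_⟩
          by_cases hjU : j ∈ U
          · exact Or.inl hjU
          · exact Or.inr ⟨hj.1, hjT, hjU⟩)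
      refine h1.trans ?_
      refine mul_le_mul (pow_le_pow_right₀ (by norm_num) hcard) ?_
        (sum_nonneg fun _ _ => pr_nonneg _) (by positivity)
      exact sum_le_sum_of_subset_of_nonneg inter_subset_right fun _ _ _ => pr_nonneg _
    · have h0 : pr (fun x => P x ∧ E A x) ≤ pr (fun _ : Fin n → Bool => False) := by
        refine pr_mono fun x hx => ?_
        have h2 := hc _ hx.2.1
        rw [hx.2.2, hGm] at h2
        exact hcard h2.2
      have h1 : pr (fun _ : Fin n → Bool => False) = 0 := by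
        rw [hot2_pr_eq10]
        simp
      rw [h1] at h0
      refine h0.trans ?_
      exact mul_nonneg (by positivity) (sum_nonneg fun _ _ => pr_nonneg _)
  -- the event splits
  have h1 : pr (fun x => (∀ A ∈ F, A ≠ T → ¬ On o A (sOn o U x)) ∧
        ∃ A ∈ F, A ≠ T ∧ (A ∩ W).card ≤ s ∧ On o (A \ T) x) ≤
      ∑ A ∈ F.erase T, pr (fun x => P x ∧ E A x) := by
    refine pr_le_sum _ _ _ fun x hx => ?_
    obtain ⟨hx1, A, hA, hAT, hAs, hon⟩ := hx
    have hne : (G x).Nonempty := ⟨A, (hGm x A).2 ⟨⟨hA, hAT, hon⟩, hAs⟩⟩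
    have h4 := hc _ hne
    rw [hGm] at h4
    exact ⟨c (G x), mem_erase.2 ⟨h4.1.2.1, h4.1.1⟩, hx1, hne, rfl⟩
  refine h1.trans ((sum_le_sum hstep).trans ?_)
  rw [← mul_sum, sum_comm]
  refine mul_le_mul_of_nonneg_left (sum_le_sum fun i hi => ?_) (by positivity)
  have h5 : ∑ A ∈ F.erase T, pr (fun x => P x ∧ E A x ∧ ¬ P (sOn o {i} x)) ≤
      pr (fun x => P x ∧ ¬ P (sOn o {i} x)) := by
    refine hot2_sum_le10 _ _ _ (fun A _ x h => ⟨h.1, h.2.2⟩) ?_
    intro A _ B _ x hA hB
    exact hA.2.1.2.symm.trans hB.2.1.2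
  refine h5.trans ?_
  have h6 : ∀ x, P (sOn o {i} x) ↔ ∀ A ∈ F, A ≠ T → ¬ On o A (sOn o (insert i U) x) := by
    intro x
    have : insert i U = U ∪ {i} := by
      rw [union_comm]
      rfl
    simp only [hPdef, sOn_sOn, this]
  have h7 : pr (fun x => P x ∧ ¬ P (sOn o {i} x)) + pr (fun x => P (sOn o {i} x)) ≤ pr P := by
    have h8 := hot2_sum_le10 (univ : Finset (Fin 2))
      (fun j x => if j = 0 then (P x ∧ ¬ P (sOn o {i} x)) else P (sOn o {i} x)) P ?_ ?_
    · rw [Fin.sum_univ_two] at h8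
      simpa using h8
    · intro j _ x h
      fin_cases j
      · exact (by simpa using h : P x ∧ ¬ P (sOn o {i} x)).1
      · exact hP.of_sOn {i} x (by simpa using h)
    · intro j _ k _ x h h'
      fin_cases j <;> fin_cases k
      · rfl
      · exact absurd (by simpa using h') (by simpa using h : P x ∧ ¬ P (sOn o {i} x)).2
      · exact absurd (by simpa using h) (by simpa using h' : P x ∧ ¬ P (sOn o {i} x)).2
      · rfl
  have h9 : pr (fun x => ∀ A ∈ F, A ≠ T → ¬ On o A (sOn o (insert i U) x)) =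
      pr (fun x => P (sOn o {i} x)) := pr_congr fun x => (h6 x).symm
  rw [h9]
  linarith

end Pool.Agent.H.MP_cba12a_lc
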