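import Pool.Agent.H.MP_cba12a_lc.X11.Cn
import Pool.Agent.H.MP_cba12a_lc.X11.Hot2
import Pool.Agent.H.MP_cba12a_lc.X10.Hot3

/-!
The non-hot lemma and the chain lemma for bounded codegree.
-/

namespace Pool.Agent.H.MP_cba12a_lc

open Finset

variable {n : ℕ} {o : Fin n → Bool} {g : (Fin n → Bool) → Bool} {F : Finset (Finset (Fin n))}
  {t d : ℕ}

/-- A nonempty set is completely off or partly off with density at least one half. -/
theorem hot11_half_le (o : Fin n → Bool) {A : Finset (Fin n)} (hA : A.Nonempty) :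
    (1 : ℝ) / 2 ≤ pr (fun x => ¬ On o A x) := by
  classical
  have h1 : pr (fun x => On o A x ∧ True) = (1 / 2) ^ A.card * pr (fun _ : Fin n → Bool => True) :=
    pr_on o A (fun _ => True)
  have h2 : (1 : ℝ) ≤ pr (fun x => On o A x ∧ True) + pr (fun x => ¬ On o A x) := by
    have h3 : (1 : ℝ) = pr (fun _ : Fin n → Bool => True) := by
      rw [← mu_true (n := n), pr_def]
      exact mu_congr fun x => by simp
    rw [h3]
    refine pr_le_add fun x _ => ?_
    by_cases h : On o A x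
    · exact Or.inl ⟨h, trivial⟩
    · exact Or.inr h
  have h4 : (1 / 2 : ℝ) ^ A.card * pr (fun _ : Fin n → Bool => True) ≤ 1 / 2 := by
    calc (1 / 2 : ℝ) ^ A.card * pr (fun _ : Fin n → Bool => True) ≤ (1 / 2) ^ 1 * 1 :=
          mul_le_mul (pow_le_pow_of_le_one (by norm_num) (by norm_num) (card_pos.2 hA))
            (pr_le_one _) (pr_nonneg _) (by norm_num)
      _ = 1 / 2 := by norm_num
  rw [h1] at h2
  linarith

/-- A decreasing event, and `N` sets, none of them empty, each not completely on: the density is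
at least `2^(-N)` times the density of the event. Induction on `𝒮` with Harris' inequality
(`harris10`-type lemmas of `Har8.lean`, `harris_neg10`: see `X10/Cov4.lean`), or by switching off
one variable of each set. -/
theorem off_many11 {E : (Fin n → Bool) → Prop} (hE : DnP o E) (𝒮 : Finset (Finset (Fin n)))
    (hne : ∀ A ∈ 𝒮, A.Nonempty) {N : ℕ} (hN : 𝒮.card ≤ N) :
    pr E ≤ 2 ^ N * pr (fun x => E x ∧ ∀ A ∈ 𝒮, ¬ On o A x) := by
  classical
  have key : pr E ≤ 2 ^ 𝒮.card * pr (fun x => E x ∧ ∀ A ∈ 𝒮, ¬ On o A x) := by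
    clear hN
    induction 𝒮 using Finset.induction_on with
    | empty =>
      simp only [card_empty, pow_zero, one_mul]
      exact pr_mono fun x hx => ⟨hx, fun A hA => absurd hA (notMem_empty A)⟩
    | insert A 𝒮 hA ih =>
      have h1 := ih fun B hB => hne B (mem_insert_of_mem hB)
      have hD : DnP o (fun x => E x ∧ ∀ B ∈ 𝒮, ¬ On o B x) :=
        hE.and fun i x h B hB => dnP_not_on o B i x (h B hB)
      have h2 := harris hD (dnP_not_on o A)
      have h3 := hot11_half_le o (hne A (mem_insert_self A 𝒮))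
      have h4 : pr (fun x => (E x ∧ ∀ B ∈ 𝒮, ¬ On o B x) ∧ ¬ On o A x) ≤
          pr (fun x => E x ∧ ∀ B ∈ insert A 𝒮, ¬ On o B x) := by
        refine pr_mono fun x hx => ⟨hx.1.1, fun B hB => ?_⟩
        rcases mem_insert.1 hB with h | h
        · exact h ▸ hx.2
        · exact hx.1.2 B h
      have h5 := pr_nonneg (fun x => E x ∧ ∀ B ∈ 𝒮, ¬ On o B x)
      have h6 : pr (fun x => E x ∧ ∀ B ∈ 𝒮, ¬ On o B x) ≤
          2 * pr (fun x => E x ∧ ∀ B ∈ insert A 𝒮, ¬ On o B x) := by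
        nlinarith
      rw [card_insert_of_notMem hA, pow_succ]
      calc pr E ≤ 2 ^ 𝒮.card * pr (fun x => E x ∧ ∀ B ∈ 𝒮, ¬ On o B x) := h1
        _ ≤ 2 ^ 𝒮.card * (2 * pr (fun x => E x ∧ ∀ B ∈ insert A 𝒮, ¬ On o B x)) :=
          mul_le_mul_of_nonneg_left h6 (by positivity)
        _ = _ := by ring
  refine key.trans (mul_le_mul_of_nonneg_right ?_ (pr_nonneg _))
  exact pow_le_pow_right₀ (by norm_num) hN

/-- **The non-hot lemma.** Let `T ∈ F`, no other member of `F` inside `T`, at most `N` other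
members sharing more than `s` elements with `T`. If the variables of `T \ U` have total relative
influence at most `2^(-s-1)` at `U` then `Z(U) ≤ 2^(N+1) ZT(T)`.
Proof: let `P` = no other member on once `U` is set on, `p = pr P ≥ Z(U)` (`g = 0` implies `P`).
By `patterns11` and `ZZ_sub_ge10` (drop the term with `ZT`), the event `P` together with a pattern
`A \ T` on, `|A ∩ (T \ U)| ≤ s`, has density at most
`2^s ∑ (Z(U) - Z(U + i)) ≤ Z(U) / 2`, so the event `E` that there is no such pattern has density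
at least `Z(U) / 2`. `E` is decreasing. The members `A ≠ T` which are on outside `T` on `E` have
`s < |A ∩ (T \ U)| ≤ |A ∩ T|`; their sets `A \ T` are not empty. By `off_many11`
`ZT(T) = pr (no A \ T on) ≥ 2^(-N) pr E`. (`on_sOn_iff`) -/
theorem nonhot11 (hgF : ∀ x, g x = true ↔ ∃ A ∈ F, On o A x) {s N : ℕ}
    {T U : Finset (Fin n)} (hT : T ∈ F) (hmin : ∀ A ∈ F, A ≠ T → ¬ A ⊆ T) (hU : U ⊆ T)
    (hN : ((F.erase T).filter fun A => s < (A ∩ T).card).card ≤ N)
    (hsum : ∑ i ∈ T \ U, (ZZ o g U - ZZ o g (insert i U)) ≤ (1 / 2) ^ (s + 1) * ZZ o g U) :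
    ZZ o g U ≤ 2 ^ (N + 1) * ZT o F T := by
  classical
  have h1 := patterns11 (o := o) (F := F) (s := s) hU
  have hZT := ZT_nonneg o F T
  have h2 : ∑ i ∈ T \ U, (pr (fun x => ∀ A ∈ F, A ≠ T → ¬ On o A (sOn o U x)) -
      pr (fun x => ∀ A ∈ F, A ≠ T → ¬ On o A (sOn o (insert i U) x))) ≤
      ∑ i ∈ T \ U, (ZZ o g U - ZZ o g (insert i U)) := by
    refine sum_le_sum fun i hi => ?_
    have h3 := ZZ_sub_ge10 hgF hT hU hi
    have h4 : 0 ≤ (1 / 2 : ℝ) ^ (T \ U).card * ZT o F T := by positivity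
    linarith
  have h5 : ZZ o g U ≤ pr (fun x => ∀ A ∈ F, A ≠ T → ¬ On o A (sOn o U x)) := by
    refine pr_mono fun x hx A hA _ hon => ?_
    have h6 : g (sOn o U x) = true := (hgF _).2 ⟨A, hA, hon⟩
    rw [hx] at h6
    exact Bool.false_ne_true h6
  have h7 : (2 : ℝ) ^ s * ∑ i ∈ T \ U, (pr (fun x => ∀ A ∈ F, A ≠ T → ¬ On o A (sOn o U x)) -
      pr (fun x => ∀ A ∈ F, A ≠ T → ¬ On o A (sOn o (insert i U) x))) ≤
      2 ^ s * ((1 / 2) ^ (s + 1) * ZZ o g U) :=
    mul_le_mul_of_nonneg_left (h2.trans hsum) (by positivity)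
  have h8 : (2 : ℝ) ^ s * ((1 / 2) ^ (s + 1) * ZZ o g U) = ZZ o g U / 2 := by
    rw [pow_succ, ← mul_assoc, ← mul_assoc, ← mul_pow]
    norm_num
    ring
  -- the event without small patterns
  set E : (Fin n → Bool) → Prop := fun x =>
    (∀ A ∈ F, A ≠ T → ¬ On o A (sOn o U x)) ∧
      ∀ A ∈ F, A ≠ T → (A ∩ (T \ U)).card ≤ s → ¬ On o (A \ T) x with hE
  have hEd : DnP o E := by
    refine DnP.and ?_ ?_
    · intro i x h A hA hAT
      exact (dnP_not_on o A).sOn U i x (h A hA hAT)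
    · intro i x h A hA hAT hs
      exact dnP_not_on o (A \ T) i x (h A hA hAT hs)
  have h9 : pr (fun x => ∀ A ∈ F, A ≠ T → ¬ On o A (sOn o U x)) ≤
      pr (fun x => (∀ A ∈ F, A ≠ T → ¬ On o A (sOn o U x)) ∧
        ∃ A ∈ F, A ≠ T ∧ (A ∩ (T \ U)).card ≤ s ∧ On o (A \ T) x) + pr E := by
    refine pr_le_add fun x hx => ?_
    by_cases h : ∃ A ∈ F, A ≠ T ∧ (A ∩ (T \ U)).card ≤ s ∧ On o (A \ T) x
    · exact Or.inl ⟨hx, h⟩
    · exact Or.inr ⟨hx, fun A hA hAT hs hon => h ⟨A, hA, hAT, hs, hon⟩⟩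
  have h10 : ZZ o g U / 2 ≤ pr E := by linarith
  obtain ⟨𝒮, h𝒮⟩ : ∃ 𝒮 : Finset (Finset (Fin n)),
      𝒮 = ((F.erase T).filter fun A => s < (A ∩ T).card).image fun A => A \ T := ⟨_, rfl⟩
  have h11 : 𝒮.card ≤ N := by
    rw [h𝒮]
    exact card_image_le.trans hN
  have h12 : ∀ B ∈ 𝒮, B.Nonempty := by
    intro B hB
    rw [h𝒮, mem_image] at hB
    obtain ⟨A, hA, rfl⟩ := hB
    rw [mem_filter, mem_erase] at hA
    rw [sdiff_nonempty]
    exact hmin A hA.1.2 hA.1.1
  have h13 := off_many11 hEd 𝒮 h12 h11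
  have h14 : pr (fun x => E x ∧ ∀ A ∈ 𝒮, ¬ On o A x) ≤ ZT o F T := by
    unfold ZT
    refine pr_mono fun x hx A hA hAT hon => ?_
    rw [on_sOn_iff] at hon
    by_cases hs : (A ∩ (T \ U)).card ≤ s
    · exact hx.1.2 A hA hAT hs hon
    · refine hx.2 (A \ T) ?_ hon
      rw [h𝒮]
      refine mem_image_of_mem _ (mem_filter.2 ⟨mem_erase.2 ⟨hAT, hA⟩, ?_⟩)
      have h15 : (A ∩ (T \ U)).card ≤ (A ∩ T).card :=
        card_le_card (inter_subset_inter_left sdiff_subset)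
      omega
  have h16 : (2 : ℝ) ^ N * pr (fun x => E x ∧ ∀ A ∈ 𝒮, ¬ On o A x) ≤ 2 ^ N * ZT o F T :=
    mul_le_mul_of_nonneg_left h14 (by positivity)
  rw [pow_succ]
  linarith

/-- **The chain lemma.** Some variable of `T \ U` has relative influence at least
`2^{-(|T| + t + 1 + d |T|^(t+1))}` at `U`. Proof: if the sum in `nonhot11` with `s = t`,
`N = d |T|^(t+1)` (`card_meet11`) is large then one of the at most `|T| ≤ 2^|T|` terms is large.
Otherwise `Z(U) ≤ 2^(N+1) ZT(T)`, and by `ZZ_sub_ge10` every `i ∈ T \ U` has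
`Z(U) - Z(U + i) ≥ 2^{-|T \ U|} ZT(T)`. -/
theorem chain11 (hgF : ∀ x, g x = true ↔ ∃ A ∈ F, On o A x) (hF : Cod t d F)
    {T U : Finset (Fin n)} (hT : T ∈ F) (hmin : ∀ A ∈ F, A ≠ T → ¬ A ⊆ T) (hU : U ⊂ T) :
    ∃ i ∈ T \ U, ZZ o g (insert i U) ≤
      (1 - (1 / 2) ^ (T.card + t + 1 + d * T.card ^ (t + 1))) * ZZ o g U := by
  have hZ := ZZ_nonneg o g U
  obtain ⟨N, hNdef⟩ : ∃ N, N = d * T.card ^ (t + 1) := ⟨_, rfl⟩
  rw [← hNdef]
  by_cases hsum : ∑ i ∈ T \ U, (ZZ o g U - ZZ o g (insert i U)) ≤ (1 / 2) ^ (t + 1) * ZZ o g U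
  · have hN : ((F.erase T).filter fun A => t < (A ∩ T).card).card ≤ N := by
      rw [hNdef]
      refine le_trans (card_le_card fun A hA => ?_) (card_meet11 hF T)
      rw [mem_filter, mem_erase] at hA
      exact mem_filter.2 ⟨hA.1.2, hA.2⟩
    have h1 := nonhot11 hgF hT hmin hU.1 hN hsum
    obtain ⟨i, hiT, hiU⟩ := Finset.exists_of_ssubset hU
    have hi : i ∈ T \ U := mem_sdiff.2 ⟨hiT, hiU⟩
    refine ⟨i, hi, ?_⟩
    have h2 := ZZ_sub_ge10 hgF hT hU.1 hi
    have h3 : pr (fun x => ∀ A ∈ F, A ≠ T → ¬ On o A (sOn o (insert i U) x)) ≤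
        pr (fun x => ∀ A ∈ F, A ≠ T → ¬ On o A (sOn o U x)) :=
      pr_mono fun _ hx A hA hAT => (dnP_not_on o A).anti (subset_insert i U) (hx A hA hAT)
    have h4 : (1 / 2 : ℝ) ^ (T.card + t + 1 + N) ≤ (1 / 2) ^ ((T \ U).card + (N + 1)) := by
      refine pow_le_pow_of_le_one (by norm_num) (by norm_num) ?_
      have := card_le_card (sdiff_subset (s := T) (t := U))
      omega
    have h5 : (1 / 2 : ℝ) ^ (T.card + t + 1 + N) * ZZ o g U ≤
        (1 / 2) ^ ((T \ U).card + (N + 1)) * ZZ o g U := mul_le_mul_of_nonneg_right h4 hZ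
    have h6 : (1 / 2 : ℝ) ^ ((T \ U).card + (N + 1)) * ZZ o g U ≤
        (1 / 2) ^ ((T \ U).card + (N + 1)) * (2 ^ (N + 1) * ZT o F T) :=
      mul_le_mul_of_nonneg_left h1 (by positivity)
    have h7 : (1 / 2 : ℝ) ^ ((T \ U).card + (N + 1)) * (2 ^ (N + 1) * ZT o F T) =
        (1 / 2) ^ (T \ U).card * ZT o F T := by
      rw [pow_add, mul_assoc, ← mul_assoc ((1 / 2 : ℝ) ^ (N + 1)), ← mul_pow]
      norm_num
    rw [one_sub_mul]
    linarith
  · by_contra hcon
    push Not at hcon hsum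
    have h1 : ∑ i ∈ T \ U, (ZZ o g U - ZZ o g (insert i U)) ≤
        ∑ _i ∈ T \ U, (1 / 2 : ℝ) ^ (T.card + t + 1 + N) * ZZ o g U := by
      refine sum_le_sum fun i hi => ?_
      have h2 := hcon i hi
      rw [one_sub_mul] at h2
      linarith
    rw [sum_const, nsmul_eq_mul] at h1
    have h3 : (((T \ U).card : ℕ) : ℝ) ≤ 2 ^ T.card := by
      have h4 : (T \ U).card ≤ T.card := card_le_card sdiff_subset
      have h5 : T.card < 2 ^ T.card := Nat.lt_two_pow_self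
      exact_mod_cast h4.trans h5.le
    have h6 : (((T \ U).card : ℕ) : ℝ) * ((1 / 2 : ℝ) ^ (T.card + t + 1 + N) * ZZ o g U) ≤
        2 ^ T.card * ((1 / 2 : ℝ) ^ (T.card + t + 1) * ZZ o g U) := by
      refine mul_le_mul h3 ?_ (by positivity) (by positivity)
      refine mul_le_mul_of_nonneg_right ?_ hZ
      exact pow_le_pow_of_le_one (by norm_num) (by norm_num) (Nat.le_add_right _ _)
    have h7 : (2 : ℝ) ^ T.card * ((1 / 2 : ℝ) ^ (T.card + t + 1) * ZZ o g U) =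
        (1 / 2) ^ (t + 1) * ZZ o g U := by
      rw [add_assoc, pow_add, ← mul_assoc, ← mul_assoc, ← mul_pow]
      norm_num
    linarith

end Pool.Agent.H.MP_cba12a_lc
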