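import Pool.Agent.H.MP_cba12a_lc.X11.NumD
import Pool.Agent.H.MP_cba12a_lc.X11.AlgD
import Pool.Agent.H.MP_cba12a_lc.X10.ParD

/-!
The numerical hypotheses on the parameters of the learner for bounded codegree, and the hypotheses
on the data.
-/

namespace Pool.Agent.H.MP_cba12a_lc

open Finset

/-- the exponent of the thresholds for the influences in the chains: `D = 2 ^ e11 t d m` -/
def e11 (t d m : ℕ) : ℕ := m + t + 2 + d * m ^ (t + 1)

/-- **The numerical hypotheses.** `1 / a` is the accuracy; `N, m0, A, B, R0` are the parameters of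
the learner `coreV11 N t d (K11 t d) (B11 t d) m0 A B R0`; `NH` bounds the number of conjunctions;
`P m` bounds the number of extensions of a chain with `D = 2 ^ e11 t d m`; `d * E m ^ (t+1)` bounds
the number of exceptional terms with `m` variables; `η` is the error of the densities, `ι` bounds
the influence of the variables which are not listed. -/
structure Par11 (a t d n N ℓ ℓ' A B R0 NH m0 : ℕ) (P E : ℕ → ℕ) (τ η ι κ ν M Q1 σ : ℝ) :
    Prop where
  num : Num11 t d n ℓ ℓ' m0 τ (1 / B + η) κ ν M Q1 σ E NH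
  a_pos : 0 < a
  A_pos : 0 < A
  B_pos : 0 < B
  η_nonneg : 0 ≤ η
  ι_nonneg : 0 ≤ ι
  /-- enumeration of all sets with at most `2 t` variables -/
  capJ : (n + 1) ^ (2 * t) ≤ N
  /-- enumeration of all sets with at most `K11` variables -/
  capK : (n + 1) ^ K11 t d ≤ N
  /-- enumeration of all lists of at most `B11` literals -/
  capB : (2 * n + 1) ^ B11 t d ≤ N
  /-- number of extensions of a chain -/
  ext : ∀ m < m0, 8 * 4 ^ e11 t d m * Real.log (2 * B) ≤ P m
  /-- chains for the short terms -/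
  chain : ∀ m < m0, P m ^ m ≤ N
  ηB : 8 * η * B * 2 ^ e11 t d m0 ≤ 1
  ιB : 4 * ι * B * 2 ^ e11 t d m0 ≤ 1
  τA : τ + η + t * 2 ^ t * ι ≤ 1 / A
  τ1 : 1 ≤ Real.log (1 / τ)
  ση : 200 * η ≤ σ
  σι : ι < σ
  exc : ∀ m, m0 ≤ m → m ≤ ℓ → 2 * Real.log (1 / τ) * (m * 2 ^ (s11 t m + 1)) ^ 2 ≤ E m
  Mb : d * ((1 + 2 * (t + 1) * (ℓ : ℝ) ^ (t + 1)) * (2 * Real.log (1 / τ))) ^ (t + 1) ≤ M
  R0b : d * n ^ (t + 1) < R0
  NHb : (N + 1) + m0 ^ 2 * (N + 1) + R0 * (N + 1) ^ 3 ≤ NH
  err : d * ((n : ℝ) + 1) ^ (t + 1) * κ + ν + ((n : ℝ) + 1) ^ t * (1 / A + η) +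
    NH * (1 / B + η) ≤ 1 / (2 * a)

variable {n m : ℕ}

/-- **The hypotheses on the data.** `g` is the target, `F0` the set of its terms (as sets of
variables), none contained in another one, all with at most `ℓ'` variables, any `t + 1` variables
together in at most `d` of them; `o` is the orientation of the variables, `V` the list of variables
(with orientation) found by the learner, `f` gives the labels, and the sample is representative. -/
structure Ctx11 (t d ℓ' : ℕ) (f g : (Fin n → Bool) → Bool) (o : Fin n → Bool)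
    (F0 : Finset (Finset (Fin n))) (V : List Lit) (ω : Fin m → Fin n → Bool) (r : ℕ)
    (η ι : ℝ) : Prop where
  hm : 0 < m
  hg : Up o g
  hgF : ∀ x, g x = true ↔ ∃ A ∈ F0, On o A x
  hcod : Cod t d F0
  hmin : ∀ T ∈ F0, ∀ A ∈ F0, A ≠ T → ¬ A ⊆ T
  hlen : ∀ A ∈ F0, A.card ≤ ℓ'
  hV : Ori o V
  hVn : V.Nodup
  hinf : ∀ i : Fin n, ((i : ℕ), o i) ∉ V → pr (fun x => g x = true ∧ g (flp i x) = false) ≤ ι
  hrep : Rep10 f g ω r η

/-- any two sets of variables share at most `n` variables -/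
theorem Ctx11.to10 {t d ℓ' : ℕ} {f g : (Fin n → Bool) → Bool} {o : Fin n → Bool}
    {F0 : Finset (Finset (Fin n))} {V : List Lit} {ω : Fin m → Fin n → Bool} {r : ℕ}
    {η ι : ℝ} (h : Ctx11 t d ℓ' f g o F0 V ω r η ι) : Ctx10 n f g o F0 V ω r η ι where
  hm := h.hm
  hg := h.hg
  hgF := h.hgF
  hshare := fun A _ B _ _ => (card_le_univ _).trans (by simp)
  hV := h.hV
  hVn := h.hVn
  hinf := h.hinf
  hrep := h.hrep

end Pool.Agent.H.MP_cba12a_lc
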