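import Pool.Agent.H.MP_cba12a_lc.X11.Base

/-!
Counting: few members of a family share many elements with a given set.
-/

namespace Pool.Agent.H.MP_cba12a_lc

open Finset

variable {n : ℕ}

/-- double counting of the pairs `(S, A)`, `S ⊆ A ∩ T` -/
theorem choose_share11 {t d : ℕ} {F : Finset (Finset (Fin n))} (hF : Cod t d F)
    (T : Finset (Fin n)) (s : ℕ) :
    (F.filter fun A => s ≤ (A ∩ T).card).card * s.choose (t + 1) ≤
      d * T.card.choose (t + 1) := by
  have h1 : ∑ A ∈ F.filter (fun A => s ≤ (A ∩ T).card), s.choose (t + 1) ≤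
      ∑ A ∈ F.filter (fun A => s ≤ (A ∩ T).card),
        ((powersetCard (t + 1) T).filter fun K => K ⊆ A).card := by
    refine sum_le_sum fun A hA => ?_
    rw [mem_filter] at hA
    calc s.choose (t + 1) ≤ (A ∩ T).card.choose (t + 1) := Nat.choose_le_choose _ hA.2
      _ = (powersetCard (t + 1) (A ∩ T)).card := (card_powersetCard _ _).symm
      _ ≤ _ := by
        refine card_le_card fun K hK => ?_
        rw [mem_powersetCard] at hK
        rw [mem_filter, mem_powersetCard]
        exact ⟨⟨hK.1.trans inter_subset_right, hK.2⟩, hK.1.trans inter_subset_left⟩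
  have h2 : ∑ A ∈ F.filter (fun A => s ≤ (A ∩ T).card),
      ((powersetCard (t + 1) T).filter fun K => K ⊆ A).card ≤
      ∑ A ∈ F, ((powersetCard (t + 1) T).filter fun K => K ⊆ A).card :=
    sum_le_sum_of_subset (filter_subset _ _)
  have h3 : ∑ A ∈ F, ((powersetCard (t + 1) T).filter fun K => K ⊆ A).card =
      ∑ K ∈ powersetCard (t + 1) T, (F.filter fun A => K ⊆ A).card := by
    simp only [card_filter]
    exact sum_comm
  have h4 : ∑ K ∈ powersetCard (t + 1) T, (F.filter fun A => K ⊆ A).card ≤
      ∑ _K ∈ powersetCard (t + 1) T, d :=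
    sum_le_sum fun K hK => hF K (mem_powersetCard.1 hK).2
  rw [sum_const, smul_eq_mul] at h1
  rw [sum_const, smul_eq_mul, card_powersetCard, mul_comm] at h4
  omega

/-- The number of members of `F` which share at least `s` elements with `T`, times `(s-t)^(t+1)`,
is at most `d |T|^(t+1)`. -/
theorem card_share11 {t d : ℕ} {F : Finset (Finset (Fin n))} (hF : Cod t d F)
    (T : Finset (Fin n)) (s : ℕ) :
    (F.filter fun A => s ≤ (A ∩ T).card).card * (s - t) ^ (t + 1) ≤ d * T.card ^ (t + 1) := by
  have h1 := choose_share11 hF T s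
  have h2 : (s - t) ^ (t + 1) ≤ (t + 1).factorial * s.choose (t + 1) := by
    rw [← Nat.descFactorial_eq_factorial_mul_choose]
    have := Nat.pow_sub_le_descFactorial s (t + 1)
    rwa [Nat.add_sub_add_right] at this
  have h3 : (t + 1).factorial * T.card.choose (t + 1) ≤ T.card ^ (t + 1) := by
    rw [← Nat.descFactorial_eq_factorial_mul_choose]
    exact Nat.descFactorial_le_pow _ _
  calc (F.filter fun A => s ≤ (A ∩ T).card).card * (s - t) ^ (t + 1) ≤
      (F.filter fun A => s ≤ (A ∩ T).card).card *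
        ((t + 1).factorial * s.choose (t + 1)) := Nat.mul_le_mul_left _ h2
    _ = (t + 1).factorial * ((F.filter fun A => s ≤ (A ∩ T).card).card *
        s.choose (t + 1)) := by ring
    _ ≤ (t + 1).factorial * (d * T.card.choose (t + 1)) := Nat.mul_le_mul_left _ h1
    _ = d * ((t + 1).factorial * T.card.choose (t + 1)) := by ring
    _ ≤ d * T.card ^ (t + 1) := Nat.mul_le_mul_left _ h3

/-- at most `d |T|^(t+1)` members share more than `t` elements with `T` -/
theorem card_meet11 {t d : ℕ} {F : Finset (Finset (Fin n))} (hF : Cod t d F)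
    (T : Finset (Fin n)) :
    (F.filter fun A => t + 1 ≤ (A ∩ T).card).card ≤ d * T.card ^ (t + 1) := by
  have h := card_share11 hF T (t + 1)
  rw [Nat.add_sub_cancel_left, one_pow, mul_one] at h
  exact h

/-- the number of members with at least `t + 1` elements -/
theorem card_long11 {t d : ℕ} {F : Finset (Finset (Fin n))} (hF : Cod t d F) :
    (F.filter fun A => t + 1 ≤ A.card).card ≤ d * n ^ (t + 1) := by
  have h := card_meet11 hF univ
  simp only [inter_univ, card_univ, Fintype.card_fin] at h
  exact h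

/-- The weight of the members longer than `ℓ` is at most `ν`. -/
theorem wt_long11 {t d ℓ : ℕ} {ν : ℝ} {F : Finset (Finset (Fin n))} (hF : Cod t d F)
    (hℓ : t ≤ ℓ) (hν : d * ((n : ℝ) + 1) ^ (t + 1) * (1 / 2) ^ ℓ ≤ ν) :
    wt10 (F.filter fun A => ℓ < A.card) ≤ ν := by
  refine le_trans ?_ hν
  unfold wt10
  have h1 : (F.filter fun A => ℓ < A.card).card ≤ d * n ^ (t + 1) := by
    refine (card_le_card fun A hA => ?_).trans (card_long11 hF)
    rw [mem_filter] at hA ⊢
    exact ⟨hA.1, by omega⟩
  refine (sum_le_card_nsmul _ _ ((1 / 2 : ℝ) ^ ℓ) ?_).trans ?_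
  · intro A hA
    exact pow_le_pow_of_le_one (by norm_num) (by norm_num) (mem_filter.1 hA).2.le
  · rw [nsmul_eq_mul]
    refine mul_le_mul_of_nonneg_right ?_ (by positivity)
    calc ((F.filter fun A => ℓ < A.card).card : ℝ) ≤ ((d * n ^ (t + 1) : ℕ) : ℝ) := by
          exact_mod_cast h1
      _ = d * (n : ℝ) ^ (t + 1) := by push_cast; ring
      _ ≤ d * ((n : ℝ) + 1) ^ (t + 1) := by gcongr; linarith

end Pool.Agent.H.MP_cba12a_lc
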