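import Pool.Agent.H.MP_cba12a_lc.X11.CoreC
import Pool.Agent.H.MP_cba12a_lc.X10.Er

/-!
The accuracy of the polynomial-time learner for bounded codegree on representative samples.
-/

namespace Pool.Agent.H.MP_cba12a_lc

open Finset

variable {n m t d : ℕ} {o : Fin n → Bool} {f g : (Fin n → Bool) → Bool}
  {ω : Fin m → Fin n → Bool} {V : List Lit} {F0 : Finset (Finset (Fin n))}
  {a N ℓ ℓ' A B R0 NH m0 : ℕ} {P E : ℕ → ℕ} {τ η ι κ ν M Q1 σ : ℝ}

/-- Some round finds nothing. -/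
theorem exists_stable11 (hC : Ctx11 t d ℓ' f g o F0 V ω NH η ι)
    (hP : Par11 a t d n N ℓ ℓ' A B R0 NH m0 P E τ η ι κ ν M Q1 σ) :
    ∃ j < R0, Xj11 N t d m0 ℓ A B F0 V (smp f ω) (j + 1) =
      Xj11 N t d m0 ℓ A B F0 V (smp f ω) j := by
  classical
  refine pigeon10 (X := fun j => Xj11 N t d m0 ℓ A B F0 V (smp f ω) j) ?_ ?_
  · intro j T hT
    have hT' : T ∈ Xj11 N t d m0 ℓ A B F0 V (smp f ω) (j + 1) := hT
    show T ∈ Xj11 N t d m0 ℓ A B F0 V (smp f ω) j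
    unfold Xj11 at hT' ⊢
    rw [mem_filter, mem_Nf] at hT' ⊢
    refine ⟨⟨hT'.1.1, fun C hCm => ?_⟩, hT'.2⟩
    obtain ⟨D, hD, hDC⟩ := mem_Hs.1 hCm
    exact hT'.1.2 C (mem_Hs.2 ⟨D, HH11_mono (Nat.le_succ j) D hD, hDC⟩)
  · refine lt_of_le_of_lt ?_ hP.R0b
    refine le_trans (card_le_card ?_)
      (card_long11 (t := t) (d := d) (F := Fp10 t F0 (hs10 N t A V (smp f ω)))
        (hs_iff11 hC hP).2.1)
    intro T hT
    have hT' : T ∈ Xj11 N t d m0 ℓ A B F0 V (smp f ω) 0 := hT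
    unfold Xj11 at hT'
    rw [mem_filter] at hT'
    have h1 := nf_Fp10 (h0 := hs10 N t A V (smp f ω)) (H := Hj11 n N t d m0 A B V (smp f ω) 0)
      (h0_mem_HH11 0) hT'.1
    rw [mem_filter]
    exact ⟨(mem_Nf.1 hT'.1).1, h1.1⟩

/-- The accuracy of the learner. -/
theorem core11_error (hC : Ctx11 t d ℓ' f g o F0 V ω NH η ι)
    (hP : Par11 a t d n N ℓ ℓ' A B R0 NH m0 P E τ η ι κ ν M Q1 σ)
    (hf : dst f g ≤ 1 / (2 * a)) :
    mu (errE f (coreV11 N t d (K11 t d) (B11 t d) m0 A B R0 (lits11 n) V (smp f ω))) ≤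
      1 / a := by
  obtain ⟨j, hj, hX⟩ := exists_stable11 hC hP
  have hst := stable_j11 hC hP hj hX
  have e : coreV11 N t d (K11 t d) (B11 t d) m0 A B R0 (lits11 n) V (smp f ω) =
      Hj11 n N t d m0 A B V (smp f ω) R0 := rfl
  rw [e]
  have hfacts := hs_facts11 hC hP
  have hApos : (0 : ℝ) < A := by exact_mod_cast hP.A_pos
  have hBpos : (0 : ℝ) < B := by exact_mod_cast hP.B_pos
  have hapos : (0 : ℝ) < a := by exact_mod_cast hP.a_pos
  have hη := hP.η_nonneg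
  have hηB := etaB_core11 hP
  have hθ : (0 : ℝ) ≤ 1 / B + η := by positivity
  have hspec := HH11_spec hC.to10 (fun C hCm => (hfacts.1 C hCm).1) hfacts.2.2.1
    (N := N) (s := 2 * t) (K := K11 t d) (w := B11 t d) (U := lits11 n) hP.B_pos hηB
    (hs_iff11 hC hP).1 (ch := cs11 N t d m0 A B V (smp f ω)) (ori_cs11 hC.hV) R0
  have hsub : ∀ C ∈ hs10 N t A V (smp f ω), C ∈ Hj11 n N t d m0 A B V (smp f ω) R0 :=
    h0_mem_HH11 R0
  have hseed := bd_seeds N t V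
  have hL : ∀ C ∈ seeds N t V, Ori o C := fun C hCm l hl => hC.hV l ((hseed.2 C hCm).2 l hl)
  have h2 := small_err10 hC.to10 hP.A_pos hL hfacts.2.2.2
  have h1 : pr (fun x => gp10 g (hs10 N t A V (smp f ω)) x = true ∧
      Off o (Hs n (Hj11 n N t d m0 A B V (smp f ω) R0)) x) ≤
      d * ((n : ℝ) + 1) ^ (t + 1) * κ + ν := by
    refine le_trans (pr_mono ?_) hst
    rintro x ⟨hx, hoff⟩
    refine ⟨hx, fun C hCm => ?_⟩
    obtain ⟨D, hD, hDC⟩ := mem_Hs.1 hCm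
    exact hoff C (mem_Hs.2 ⟨D, HH11_mono hj.le D hD, hDC⟩)
  have herr := err_le10 (f := f) (H := Hj11 n N t d m0 A B V (smp f ω) R0)
    (fun C hCm => (hfacts.1 C hCm).1)
    (fun C hCm => (hspec C hCm).1) hsub hθ h1 h2
    (fun C hCm => (hspec C hCm).2.imp id fun h => h.1)
  -- the length
  have hlen : (Hj11 n N t d m0 A B V (smp f ω) R0).length ≤ NH :=
    Hj_length_core11 hP le_rfl
  have h8 : ((Hj11 n N t d m0 A B V (smp f ω) R0).length : ℝ) * (1 / B + η) ≤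
      NH * (1 / B + η) :=
    mul_le_mul_of_nonneg_right (by exact_mod_cast hlen) hθ
  have h9 : ((seeds N t V).length : ℝ) * (1 / A + η) ≤ ((n : ℝ) + 1) ^ t * (1 / A + η) := by
    refine mul_le_mul_of_nonneg_right ?_ (by positivity)
    have h10 := hfacts.2.1
    calc ((seeds N t V).length : ℝ) ≤ (((n + 1) ^ t : ℕ) : ℝ) := by exact_mod_cast h10
      _ = ((n : ℝ) + 1) ^ t := by push_cast; ring
  have h11 := hP.err
  have h12 : (1 : ℝ) / (2 * a) + 1 / (2 * a) = 1 / a := by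
    field_simp
    norm_num
  linarith

end Pool.Agent.H.MP_cba12a_lc
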