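import Pool.Agent.H.MP_cba12a_lc.X11.ParD
import Pool.Agent.H.MP_cba12a_lc.X10.Fp

/-!
The terms of the target together with the small sets, for bounded codegree.
-/

namespace Pool.Agent.H.MP_cba12a_lc

open Finset

variable {n m r t d ℓ' : ℕ} {o : Fin n → Bool} {f g : (Fin n → Bool) → Bool}
  {ω : Fin m → Fin n → Bool} {η ι τ : ℝ} {h0 H : List (List Lit)} {V : List Lit}
  {F0 : Finset (Finset (Fin n))}

/-- the small sets contain no set with `t + 1` elements -/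
theorem cod_Fp11 (hcod : Cod t d F0) (hh0 : ∀ C ∈ Hs n h0, C.card ≤ t) :
    Cod t d (Fp10 t F0 h0) := by
  intro S hS
  refine (card_le_card ?_).trans (hcod S hS)
  intro A hA
  rw [mem_filter, mem_Fp10] at hA
  rw [mem_filter]
  rcases hA.1 with h | h
  · have h1 := card_le_card hA.2
    have h2 := hh0 A h
    omega
  · exact ⟨h.1, hA.2⟩

/-- no other member is contained in an unfound one -/
theorem anti_Fp11 (hmin : ∀ T ∈ F0, ∀ A ∈ F0, A ≠ T → ¬ A ⊆ T) (hsub : ∀ D ∈ h0, D ∈ H) :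
    ∀ G ∈ Nf (Fp10 t F0 h0) (Hs n H), ∀ A ∈ Fp10 t F0 h0, A ≠ G → ¬ A ⊆ G := by
  intro G hG A hA hne hAG
  have h1 := (nf_Fp10 hsub hG).2
  have hG' := (mem_Nf.1 hG).1
  rw [mem_Fp10] at hA hG'
  rcases hG' with hG' | hG'
  · exact h1 G hG' (Subset.refl G)
  · rcases hA with hA | hA
    · exact h1 A hA hAG
    · exact hmin G hG'.1 A hA.1 hne hAG

theorem len_Fp11 (hlen : ∀ A ∈ F0, A.card ≤ ℓ') (hh0 : ∀ C ∈ Hs n h0, C.card ≤ t)
    (ht : t ≤ ℓ') : ∀ A ∈ Fp10 t F0 h0, A.card ≤ ℓ' := by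
  intro A hA
  rw [mem_Fp10] at hA
  rcases hA with h | h
  · exact (hh0 A h).trans ht
  · exact hlen A h.1

end Pool.Agent.H.MP_cba12a_lc
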