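import Pool.Agent.H.MP_cba12a_lc.X11.Det1
import Pool.Agent.H.MP_cba12a_lc.X10.Det

/-!
Reading off the detected term, with some variables off.
-/

namespace Pool.Agent.H.MP_cba12a_lc

open Finset

variable {n : ℕ} {o : Fin n → Bool} {g : (Fin n → Bool) → Bool} {F H : Finset (Finset (Fin n))}

/-- For `i ∉ T` at least half of the event has `i` off. (As `only_off10`; if `i ∈ Bs` all of it.) -/
theorem only_off11 {T Bs : Finset (Fin n)} {i : Fin n} (hi : i ∉ T) :
    pr (fun x => Only10 o F H T x ∧ BOff o Bs x) ≤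
      2 * pr (fun x => Only10 o F H T x ∧ BOff o Bs x ∧ x i ≠ o i) := by
  have h1 : pr (fun x => Only10 o F H T x ∧ BOff o Bs x) ≤
      pr (fun x => Only10 o F H T x ∧ BOff o Bs x ∧ x i ≠ o i) +
      pr (fun x => (Only10 o F H T x ∧ BOff o Bs x) ∧ x i = o i) := by
    refine pr_le_add fun x hx => ?_
    by_cases h : x i = o i
    · exact Or.inr ⟨hx, h⟩
    · exact Or.inl ⟨hx.1, hx.2, h⟩
  have h2 : pr (fun x => (Only10 o F H T x ∧ BOff o Bs x) ∧ x i = o i) ≤
      pr (fun x => Only10 o F H T x ∧ BOff o Bs x ∧ x i ≠ o i) := by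
    rw [← pr_flp i (fun x => Only10 o F H T x ∧ BOff o Bs x ∧ x i ≠ o i)]
    refine pr_mono fun x hx => ⟨only_flp10 hi hx.1.1 hx.2, ?_, ?_⟩
    · intro b hb
      by_cases hbi : b = i
      · subst hbi
        rw [flp_same, hx.2]
        cases o b <;> simp
      · rw [flp_ne hbi]
        exact hx.1.2 b hb
    · rw [flp_same, hx.2]
      cases o i <;> simp
  linarith

/-- Reading off: for `i` outside `R`, `4 e_i < e` iff `i ∈ T`. -/
theorem read11 (hgF : ∀ x, g x = true ↔ ∃ A ∈ F, On o A x)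
    {T J R Bs : Finset (Fin n)} (hT : T ∈ F) (hJ : J ⊆ T) (hR : R ⊆ T) (hRne : R.Nonempty)
    (hJR : Disjoint J R) (hBR : Disjoint Bs R) {σ : ℝ} (hσ : 0 < σ)
    (hdet : Det11 o F H T J R Bs σ) {i : Fin n}
    (hiR : i ∉ R) {e ei : ℝ} (he : |e - stat10 o g H J R (BOff o Bs)| ≤ σ / 100)
    (hei : |ei - stat10 o g H J R (fun x => BOff o Bs x ∧ x i ≠ o i)| ≤ σ / 100) :
    4 * ei < e ↔ i ∈ T := by
  obtain ⟨hd1, hd2⟩ := hdet
  have hBq : ∀ j ∈ R, ∀ x : Fin n → Bool, BOff o Bs (flp j x) ↔ BOff o Bs x := by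
    intro j hj x
    have hne : ∀ b ∈ Bs, b ≠ j := by
      rintro b hb rfl
      exact (disjoint_left.1 hBR hb) hj
    constructor
    · intro h b hb
      have := h b hb
      rwa [flp_ne (hne b hb)] at this
    · intro h b hb
      rw [flp_ne (hne b hb)]
      exact h b hb
  have h1 := det_main11 (H := H) hgF hT hJ hR hRne hJR (Q := BOff o Bs) hBq
  have h2 := det_main11 (H := H) hgF hT hJ hR hRne hJR (Q := fun x => BOff o Bs x ∧ x i ≠ o i)
    (fun j hj x => by
      have hij : i ≠ j := fun h => hiR (h ▸ hj)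
      simp only [flp_ne hij, hBq j hj x])
  have h6 : pr (fun x => On o J x ∧ Cov10 o F H T R x ∧ BOff o Bs x ∧ x i ≠ o i) ≤
      pr (fun x => On o J x ∧ Cov10 o F H T R x ∧ BOff o Bs x) :=
    pr_mono fun x hx => ⟨hx.1, hx.2.1, hx.2.2.1⟩
  rw [abs_le] at h1 h2 he hei
  constructor
  · intro hlt
    by_contra hi
    have h4 := only_off11 (o := o) (F := F) (H := H) (Bs := Bs) hi
    linarith [h1.1, h1.2, h2.1, h2.2, he.1, he.2, hei.1, hei.2]
  · intro hi
    have h4 : pr (fun x => Only10 o F H T x ∧ BOff o Bs x ∧ x i ≠ o i) ≤ 0 := by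
      have h5 : pr (fun x => Only10 o F H T x ∧ BOff o Bs x ∧ x i ≠ o i) ≤
          ∑ j ∈ (∅ : Finset (Fin n)), pr (fun x => Only10 o F H T x ∧ x j ≠ o j) := by
        refine pr_le_sum _ _ _ fun x hx => ?_
        exact absurd (hx.1.1 i hi) hx.2.2
      simpa using h5
    linarith [h1.1, h1.2, h2.1, h2.2, he.1, he.2, hei.1, hei.2]

end Pool.Agent.H.MP_cba12a_lc
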