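import Pool.Agent.H.MP_cba12a_lc.X10.Dt2
import Pool.Agent.H.MP_cba12a_lc.X11.Det
import Pool.Agent.H.MP_cba12a_lc.X11.AlgD

/-!
The candidate read off from the mixed derivative is the term.
-/

namespace Pool.Agent.H.MP_cba12a_lc

open Finset

variable {n m r t : ℕ} {o : Fin n → Bool} {f g : (Fin n → Bool) → Bool}
  {ω : Fin m → Fin n → Bool} {η ι σ : ℝ} {h0 H : List (List Lit)} {V : List Lit}
  {F0 F : Finset (Finset (Fin n))}

/-- The members of `det11`. -/
theorem mem_det11 {S : Samples} {J R W : List Lit} {l : Lit} :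
    l ∈ det11 V S H J R W ↔ l ∈ J ∨ l ∈ R ∨ (l ∈ V ∧ (∀ l' ∈ J ++ R, l'.1 ≠ l.1) ∧
      4 * cnt10 S true false R (neg l :: (J ++ W.map neg)) (strip10 R H) +
        cnt10 S true true R (J ++ W.map neg) (strip10 R H) <
      cnt10 S true false R (J ++ W.map neg) (strip10 R H) +
        4 * cnt10 S true true R (neg l :: (J ++ W.map neg)) (strip10 R H)) := by
  unfold det11
  rw [List.mem_append, List.mem_append, List.mem_filter, Bool.and_eq_true, decide_eq_true_iff,
    Bool.not_eq_true', List.any_eq_false]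
  simp only [beq_iff_eq, ne_eq]

/-- All literals of the candidate are oriented. -/
theorem ori_det11 {S : Samples} {J R W : List Lit} (hV : Ori o V) (hJ : Ori o J)
    (hR : Ori o R) : Ori o (det11 V S H J R W) := by
  intro l hl
  rcases mem_det11.1 hl with h | h | h
  · exact hJ l h
  · exact hR l h
  · exact hV l h.1

/-- The list `J ++ W.map neg` holds at `x` iff `J` is on and `W` is off. -/
theorem sat_off11 {J W : List Lit} (hJ : Ori o J) (hW : Ori o W) (x : Fin n → Bool) :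
    sat (List.ofFn x) (J ++ W.map neg) = true ↔ On o (fs n J) x ∧ BOff o (fs n W) x := by
  rw [← sat_ori hJ, sat_iff, sat_iff]
  constructor
  · intro h
    refine ⟨fun l hl => h l (List.mem_append_left _ hl), ?_⟩
    intro b hb
    rw [mem_fs, List.mem_map] at hb
    obtain ⟨l, hl, hlb⟩ := hb
    obtain ⟨j, rfl⟩ := hW l hl
    have hjb : j = b := Fin.ext hlb
    subst hjb
    have h1 := h _ (List.mem_append_right _ (List.mem_map.2 ⟨_, hl, rfl⟩))
    unfold neg at h1
    rw [getElem?_ofFn] at h1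
    obtain ⟨_, h2⟩ := h1
    intro hc
    rw [show (⟨(j : ℕ), j.2⟩ : Fin n) = j from rfl] at h2
    rw [hc] at h2
    cases h3 : o j <;> rw [h3] at h2 <;> simp at h2
  · rintro ⟨h1, h2⟩ l hl
    rcases List.mem_append.1 hl with hl | hl
    · exact h1 l hl
    · obtain ⟨l', hl', rfl⟩ := List.mem_map.1 hl
      obtain ⟨j, rfl⟩ := hW l' hl'
      unfold neg
      rw [getElem?_ofFn]
      refine ⟨j.2, ?_⟩
      have h3 : x j ≠ o j := h2 j (mem_fs.2 (List.mem_map.2 ⟨_, hl', rfl⟩))
      change x j = !(o j)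
      cases h3' : o j <;> cases h4 : x j <;> simp_all

/-- The same with one more variable off. -/
theorem sat_off_cons11 {J W : List Lit} (hJ : Ori o J) (hW : Ori o W) (i : Fin n)
    (x : Fin n → Bool) :
    sat (List.ofFn x) (neg ((i : ℕ), o i) :: (J ++ W.map neg)) = true ↔
      On o (fs n J) x ∧ BOff o (fs n W) x ∧ x i ≠ o i := by
  have h1 := sat_off11 hJ hW x
  have h2 : sat (List.ofFn x) (neg ((i : ℕ), o i) :: (J ++ W.map neg)) = true ↔
      x i ≠ o i ∧ sat (List.ofFn x) (J ++ W.map neg) = true := by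
    rw [sat_iff, sat_iff]
    constructor
    · intro h
      refine ⟨?_, fun l hl => h l (List.mem_cons_of_mem _ hl)⟩
      have h1 := h _ List.mem_cons_self
      unfold neg at h1
      rw [getElem?_ofFn] at h1
      obtain ⟨_, h2⟩ := h1
      intro hc
      rw [show (⟨(i : ℕ), i.2⟩ : Fin n) = i from rfl] at h2
      rw [hc] at h2
      cases h3 : o i <;> rw [h3] at h2 <;> simp at h2
    · rintro ⟨h2, h1⟩ l hl
      rcases List.mem_cons.1 hl with rfl | hl
      · unfold neg
        rw [getElem?_ofFn]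
        refine ⟨i.2, ?_⟩
        change x i = !(o i)
        cases h3 : o i <;> cases h4 : x i <;> simp_all
      · exact h1 l hl
  rw [h2, h1]
  tauto

/-- The test for the literal on `i` is passed iff `i ∈ T`. -/
theorem test11 (hC : Ctx10 t f g o F0 V ω r η ι) (hh : ∀ D ∈ H, Ori o D)
    (hh0 : ∀ D ∈ h0, D ∈ H) (hr : H.length ≤ r)
    (hgF : ∀ x, gp10 g h0 x = true ↔ ∃ A ∈ F, On o A x) {T : Finset (Fin n)} (hT : T ∈ F)
    {J R W : List Lit} (hJ : Ori o J) (hR : Ori o R) (hW : Ori o W)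
    (hRn : (R.map Prod.fst).Nodup)
    (hJT : fs n J ⊆ T) (hRT : fs n R ⊆ T) (hR0 : (fs n R).Nonempty)
    (hJR : Disjoint (fs n J) (fs n R)) (hWR : Disjoint (fs n W) (fs n R))
    (hσ : 0 < σ) (hη : 200 * η ≤ σ)
    (hdet : Det11 o F (Hs n H) T (fs n J) (fs n R) (fs n W) σ) {i : Fin n} (hi : i ∉ fs n R) :
    4 * cnt10 (smp f ω) true false R (neg ((i : ℕ), o i) :: (J ++ W.map neg)) (strip10 R H) +
        cnt10 (smp f ω) true true R (J ++ W.map neg) (strip10 R H) <
      cnt10 (smp f ω) true false R (J ++ W.map neg) (strip10 R H) +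
        4 * cnt10 (smp f ω) true true R (neg ((i : ℕ), o i) :: (J ++ W.map neg))
          (strip10 R H) ↔ i ∈ T := by
  have hm : (0 : ℝ) < m := by exact_mod_cast hC.hm
  have hZn1 : ∀ l ∈ J ++ W.map neg, l.1 < n := by
    intro l hl
    rcases List.mem_append.1 hl with h | h
    · exact hJ.lt l h
    · obtain ⟨l', hl', rfl⟩ := List.mem_map.1 h
      exact hW.lt l' hl'
  have hZn2 : ∀ l ∈ neg ((i : ℕ), o i) :: (J ++ W.map neg), l.1 < n := by
    intro l hl
    rcases List.mem_cons.1 hl with h | h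
    · rw [h]
      exact i.2
    · exact hZn1 l h
  have h1 := stat_est10 (g := g) (h0 := h0) hC.hrep hR hRn hh hh0 hr hZn1 (sat_off11 hJ hW)
  have h2 := stat_est10 (g := g) (h0 := h0) hC.hrep hR hRn hh hh0 hr hZn2
    (sat_off_cons11 hJ hW i)
  have h3 := read11 (H := Hs n H) hgF hT hJT hRT hR0 hJR hWR hσ hdet hi
    (h1.trans (by linarith)) (h2.trans (by linarith))
  rw [← h3, ← mul_div_assoc, div_lt_div_iff_of_pos_right hm]
  rw [← Nat.cast_lt (α := ℝ)]
  push_cast
  constructor <;> intro h <;> linarith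

/-- The candidate is the term, if all its variables are listed in `V`. -/
theorem det_spec11 (hC : Ctx10 t f g o F0 V ω r η ι) (hh : ∀ D ∈ H, Ori o D)
    (hh0 : ∀ D ∈ h0, D ∈ H) (hr : H.length ≤ r)
    (hgF : ∀ x, gp10 g h0 x = true ↔ ∃ A ∈ F, On o A x) {T : Finset (Fin n)} (hT : T ∈ F)
    (hTV : ∀ i ∈ T, ((i : ℕ), o i) ∈ V)
    {J R W : List Lit} (hJ : Ori o J) (hR : Ori o R) (hW : Ori o W)
    (hRn : (R.map Prod.fst).Nodup)
    (hJT : fs n J ⊆ T) (hRT : fs n R ⊆ T) (hR0 : (fs n R).Nonempty)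
    (hJR : Disjoint (fs n J) (fs n R)) (hWR : Disjoint (fs n W) (fs n R))
    (hσ : 0 < σ) (hη : 200 * η ≤ σ)
    (hdet : Det11 o F (Hs n H) T (fs n J) (fs n R) (fs n W) σ) :
    fs n (det11 V (smp f ω) H J R W) = T := by
  have key : ∀ {i : Fin n}, i ∉ fs n R → _ := fun {i} hi =>
    test11 hC hh hh0 hr hgF hT hJ hR hW hRn hJT hRT hR0 hJR hWR hσ hη hdet (i := i) hi
  have hmem : ∀ {L : List Lit} {i : Fin n} {l : Lit}, l ∈ L → l.1 = i → i ∈ fs n L :=
    fun hl he => mem_fs.2 (List.mem_map.2 ⟨_, hl, he⟩)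
  have hex : ∀ {L : List Lit} {i : Fin n}, i ∈ fs n L → ∃ l ∈ L, l.1 = i :=
    fun hi => List.mem_map.1 (mem_fs.1 hi)
  ext i
  constructor
  · intro hi
    obtain ⟨l, hl, hli⟩ := hex hi
    rcases mem_det11.1 hl with h | h | ⟨hV, hne, htest⟩
    · exact hJT (hmem h hli)
    · exact hRT (hmem h hli)
    · obtain ⟨i', hl'⟩ := hC.hV l hV
      have hii : i' = i := by
        apply Fin.ext
        rw [← hli, hl']
      subst hii
      have hiR : i' ∉ fs n R := by
        intro hc
        obtain ⟨l', hl1, hl2⟩ := hex hc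
        exact hne l' (List.mem_append_right _ hl1) (hl2.trans hli.symm)
      rw [hl'] at htest
      exact (key hiR).1 htest
  · intro hi
    by_cases hiJ : i ∈ fs n J
    · obtain ⟨l, hl, hli⟩ := hex hiJ
      exact hmem (mem_det11.2 (Or.inl hl)) hli
    by_cases hiR : i ∈ fs n R
    · obtain ⟨l, hl, hli⟩ := hex hiR
      exact hmem (mem_det11.2 (Or.inr (Or.inl hl))) hli
    refine hmem (l := ((i : ℕ), o i)) (mem_det11.2 (Or.inr (Or.inr ⟨hTV i hi, ?_, ?_⟩))) rfl
    · intro l' hl' he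
      rcases List.mem_append.1 hl' with h | h
      · exact hiJ (hmem h he)
      · exact hiR (hmem h he)
    · exact (key hiR).2 hi

end Pool.Agent.H.MP_cba12a_lc
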