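import Pool.Agent.H.MP_cba12a_lc.X10.Rd2
import Pool.Agent.H.MP_cba12a_lc.X11.Dt
import Pool.Agent.H.MP_cba12a_lc.X11.ParD

/-!
The rounds of the learner for bounded codegree.
-/

namespace Pool.Agent.H.MP_cba12a_lc

open Finset

variable {n m r t : ℕ} {o : Fin n → Bool} {f g : (Fin n → Bool) → Bool}
  {ω : Fin m → Fin n → Bool} {η ι σ : ℝ} {h0 H : List (List Lit)} {V : List Lit}
  {F0 F : Finset (Finset (Fin n))}

/-- the list after `j` rounds -/
def HH11 (N s K w B : ℕ) (U V : List Lit) (S : Samples) (ch h0 : List (List Lit)) (j : ℕ) :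
    List (List Lit) :=
  (round11 N s K w B U V S h0)^[j] (mins10 B S h0 ch ++ h0)

theorem HH11_succ {N s K w B : ℕ} {U : List Lit} {S : Samples} {ch : List (List Lit)} (j : ℕ) :
    HH11 N s K w B U V S ch h0 (j + 1) =
      round11 N s K w B U V S h0 (HH11 N s K w B U V S ch h0 j) := by
  unfold HH11
  rw [Function.iterate_succ_apply']

/-- the lists increase -/
theorem HH11_mono {N s K w B : ℕ} {U : List Lit} {S : Samples} {ch : List (List Lit)} {j j' : ℕ}
    (h : j ≤ j') : ∀ C ∈ HH11 N s K w B U V S ch h0 j, C ∈ HH11 N s K w B U V S ch h0 j' := by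
  intro C hC
  induction j', h using Nat.le_induction with
  | base => exact hC
  | succ k _ ih =>
    rw [HH11_succ]
    unfold round11
    exact List.mem_append_right _ ih

theorem h0_mem_HH11 {N s K w B : ℕ} {U : List Lit} {S : Samples} {ch : List (List Lit)} (j : ℕ) :
    ∀ C ∈ h0, C ∈ HH11 N s K w B U V S ch h0 j := by
  intro C hC
  refine HH11_mono (Nat.zero_le j) C ?_
  unfold HH11
  rw [Function.iterate_zero, id]
  exact List.mem_append_right _ hC

/-- all candidates are oriented -/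
theorem ori_cands11 {N s K w : ℕ} {U : List Lit} {S : Samples} {H : List (List Lit)}
    (hV : Ori o V) : ∀ C ∈ cands11 N s K w U V S H, Ori o C := by
  intro C hC
  unfold cands11 at hC
  obtain ⟨J, hJ, hC⟩ := List.mem_flatMap.1 hC
  obtain ⟨R, hR, hC⟩ := List.mem_flatMap.1 hC
  obtain ⟨W, hW, rfl⟩ := List.mem_map.1 hC
  exact ori_det11 hV (fun l hl => hV l (((bd_seeds N s V).2 J hJ).2 l hl))
    (fun l hl => hV l (((bd_seeds N K V).2 R hR).2 l hl))

/-- **The members of the lists**: oriented, and either in `h0` or almost implying `gp10` and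
containing no term properly (`mins_spec10`). -/
theorem HH11_spec (hC : Ctx10 t f g o F0 V ω r η ι) (hh : ∀ C ∈ h0, Ori o C)
    (hr : h0.length ≤ r) {N s K w B : ℕ} {U : List Lit} (hB : 0 < B) (hηB : η * B ≤ 1)
    (hgF : ∀ x, gp10 g h0 x = true ↔ ∃ A ∈ F, On o A x) {ch : List (List Lit)}
    (hch : ∀ C ∈ ch, Ori o C) (j : ℕ) : ∀ C ∈ HH11 N s K w B U V (smp f ω) ch h0 j, Ori o C ∧
      (C ∈ h0 ∨ (pr (fun x => On o (fs n C) x ∧ gp10 g h0 x = false) ≤ 1 / B + η ∧
        ∀ A ∈ F, ¬ A ⊂ fs n C)) := by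
  induction j with
  | zero =>
    intro C hCm
    unfold HH11 at hCm
    rw [Function.iterate_zero, id] at hCm
    rcases List.mem_append.1 hCm with h | h
    · have h1 := mins_spec10 hC hh hr hB hηB hgF hch C h
      exact ⟨h1.1, Or.inr h1.2⟩
    · exact ⟨hh C h, Or.inl h⟩
  | succ j ih =>
    intro C hCm
    rw [HH11_succ] at hCm
    unfold round11 at hCm
    rcases List.mem_append.1 hCm with h | h
    · have h1 := mins_spec10 hC hh hr hB hηB hgF (ori_cands11 hC.hV) C h
      exact ⟨h1.1, Or.inr h1.2⟩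
    · exact ih C h

/-- membership in the list of all literals -/
theorem mem_lits11 {l : Lit} : l ∈ lits11 n ↔ l.1 < n := by
  unfold lits11
  rw [List.mem_append, List.mem_map, List.mem_map]
  constructor
  · rintro (⟨i, hi, rfl⟩ | ⟨i, hi, rfl⟩)
    · exact List.mem_range.1 hi
    · exact List.mem_range.1 hi
  · intro h
    rcases l with ⟨i, v⟩
    cases v
    · exact Or.inr ⟨i, List.mem_range.2 h, rfl⟩
    · exact Or.inl ⟨i, List.mem_range.2 h, rfl⟩

theorem length_lits11 (n : ℕ) : (lits11 n).length = 2 * n := by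
  unfold lits11
  rw [List.length_append, List.length_map, List.length_map, List.length_range]
  ring

/-- **A detected term is found.** If the detection condition holds for some `J, R ⊆ T` and some
set `Bs` of variables outside `T`, then `T` is found in the next round. -/
theorem found11 (hC : Ctx10 t f g o F0 V ω r η ι) (hh : ∀ C ∈ h0, Ori o C)
    (hh0V : ∀ D ∈ h0, ∀ l ∈ D, l ∈ V) (hr0 : h0.length ≤ r)
    (hH : ∀ D ∈ H, Ori o D) (hh0 : ∀ D ∈ h0, D ∈ H) (hr : H.length ≤ r) {N s K w B : ℕ}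
    (hηB : η * B ≤ 1) (hgF : ∀ x, gp10 g h0 x = true ↔ ∃ A ∈ F, On o A x)
    (hN1 : (V.length + 1) ^ s ≤ N) (hN2 : (V.length + 1) ^ K ≤ N) (hN3 : (2 * n + 1) ^ w ≤ N)
    {T : Finset (Fin n)} (hT : T ∈ F) {J R Bs : Finset (Fin n)} (hJ : J ⊆ T) (hR : R ⊆ T)
    (hJR : Disjoint J R) (hBT : Disjoint Bs T) (hJs : J.card ≤ s) (hRK : R.card = K)
    (hK : 0 < K) (hBw : Bs.card ≤ w) (hσ : 0 < σ) (hη : 200 * η ≤ σ)
    (hι : ι < σ) (hdet : Det11 o F (Hs n H) T J R Bs σ) :
    ∃ C' ∈ round11 N s K w B (lits11 n) V (smp f ω) h0 H, fs n C' ⊆ T := by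
  have hon : ι < pr (Only10 o F (Hs n H) T) :=
    lt_of_lt_of_le (lt_of_lt_of_le hι hdet.2) (pr_mono fun x hx => hx.1)
  have hTV : ∀ i ∈ T, ((i : ℕ), o i) ∈ V := only_V10 hC hh0V hgF hT (G := Hs n H) hon
  have hJs' : lst o J ∈ seeds N s V := by
    refine mem_seeds hN1 (by rw [length_lst]; exact hJs) fun l hl => ?_
    obtain ⟨i, hi, rfl⟩ := mem_lst.1 hl
    exact hTV i (hJ hi)
  have hRs : lst o R ∈ seeds N K V := by
    refine mem_seeds hN2 (by rw [length_lst]; exact hRK.le) fun l hl => ?_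
    obtain ⟨i, hi, rfl⟩ := mem_lst.1 hl
    exact hTV i (hR hi)
  have hBs : lst o Bs ∈ seeds N w (lits11 n) := by
    refine mem_seeds (by rw [length_lits11]; exact hN3) (by rw [length_lst]; exact hBw)
      fun l hl => ?_
    obtain ⟨i, _, rfl⟩ := mem_lst.1 hl
    exact mem_lits11.2 i.2
  have hR0 : R.Nonempty := by
    rw [← card_pos, hRK]; exact hK
  have hspec : fs n (det11 V (smp f ω) H (lst o J) (lst o R) (lst o Bs)) = T := by
    refine det_spec11 hC hH hh0 hr hgF hT hTV (ori_lst J) (ori_lst R) (ori_lst Bs)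
      (dec_lst R).nodup ?_ ?_ ?_ ?_ ?_ hσ hη ?_
    · rw [fs_lst]; exact hJ
    · rw [fs_lst]; exact hR
    · rw [fs_lst]; exact hR0
    · rw [fs_lst, fs_lst]; exact hJR
    · rw [fs_lst, fs_lst]; exact hBT.mono_right hR
    · rw [fs_lst, fs_lst, fs_lst]; exact hdet
  have hok : ok10 B (smp f ω) h0 (det11 V (smp f ω) H (lst o J) (lst o R) (lst o Bs)) = true := by
    unfold ok10
    rw [decide_eq_true_iff]
    refine cnt_zero10 hC.hrep hC.hm hηB (ori_det11 hC.hV (ori_lst J) (ori_lst R)) hh hr0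
      fun x hx => ?_
    rw [hgF]
    rw [hspec] at hx
    exact ⟨T, hT, hx⟩
  have hmem : det11 V (smp f ω) H (lst o J) (lst o R) (lst o Bs) ∈
      cands11 N s K w (lits11 n) V (smp f ω) H := by
    unfold cands11
    exact List.mem_flatMap.2 ⟨_, hJs', List.mem_flatMap.2 ⟨_, hRs,
      List.mem_map.2 ⟨_, hBs, rfl⟩⟩⟩
  obtain ⟨C', hC', hs⟩ := exists_min10 hmem hok
  refine ⟨C', ?_, hspec ▸ hs⟩
  unfold round11
  exact List.mem_append_left _ hC'

end Pool.Agent.H.MP_cba12a_lc
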