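import Pool.Agent.H.MP_cba12a_lc.X10.Sm3

/-!
What the small sets achieve; the version in which the size of the small sets is independent of the
parameter of the hypotheses on the data.
-/

namespace Pool.Agent.H.MP_cba12a_lc

open Finset

variable {n m r t : ℕ} {o : Fin n → Bool} {f g : (Fin n → Bool) → Bool}
  {ω : Fin m → Fin n → Bool} {η ι τ : ℝ} {h0 : List (List Lit)} {V : List Lit}
  {F0 : Finset (Finset (Fin n))}

/-- **What the small sets achieve.** A set `I` of at most `t` variables which contains no member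
of `h0` has `Z(I) ≥ τ`. Proof: let `I'` be the set of all `i ∈ I` listed in `V`. The list
`lst o I'` is in `seeds N t V` (`mem_seeds`, `V.length ≤ n`), so by `small10_end` it is not
acceptable: either `m < cnt * A`, or it contains a member of `h0` (`sub10_iff`), which is excluded.
So `Z(I') ≥ 2^{|I'|} (1 / A - η) ≥ 1 / A - η` (`lt_cnt10`, `pr_on_ZZ`, `fs_lst`). The variables of
`I \ I'` are added one by one with `ZZ_insert10`, at most `t` of them (induction on a subset). -/
theorem ass11 {t0 : ℕ} (hC : Ctx10 t0 f g o F0 V ω r η ι) {A N : ℕ} (hA : 0 < A) (hι : 0 ≤ ι)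
    (hη : 0 ≤ η) (hN : (V.length + 1) ^ t ≤ N) (hr : (seeds N t V).length ≤ r)
    (hτ : τ + η + t * 2 ^ t * ι ≤ 1 / A) {I : Finset (Fin n)} (hI : I.card ≤ t)
    (hno : ∀ C ∈ Hs n (small10 A (smp f ω) (seeds N t V)), ¬ C ⊆ I) :
    τ ≤ ZZ o (gp10 g (small10 A (smp f ω) (seeds N t V))) I := by
  classical
  set h0 := small10 A (smp f ω) (seeds N t V) with hh0
  have hmem : ∀ C ∈ h0, C ∈ seeds N t V := small10_mem
  have hlen : h0.length ≤ r := small10_length.trans hr
  have hVm : ∀ D ∈ h0, ∀ l ∈ D, l ∈ V := fun D hD l hl => Sm3_grow D (hmem D hD) l hl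
  have hOri : ∀ D ∈ h0, Ori o D := fun D hD l hl => hC.hV l (hVm D hD l hl)
  set I' := I.filter (fun i : Fin n => (((i : ℕ), o i) : Lit) ∈ V) with hI'
  have hI'I : I' ⊆ I := filter_subset _ _
  have hI'c : I'.card ≤ t := (card_le_card hI'I).trans hI
  have hseed : lst o I' ∈ seeds N t V := by
    apply mem_seeds hN
    · rw [length_lst]
      exact hI'c
    · intro l hl
      obtain ⟨i, hi, rfl⟩ := mem_lst.1 hl
      rw [hI', mem_filter] at hi
      exact hi.2
  have hend := small10_end (A := A) (S := smp f ω) (L := seeds N t V) (lst o I') hseed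
  rw [← hh0] at hend
  unfold accS10 at hend
  have hany : (h0.any fun D => sub10 D (lst o I')) = false := by
    rw [Bool.eq_false_iff]
    intro hcon
    rw [List.any_eq_true] at hcon
    obtain ⟨D, hD, hsub⟩ := hcon
    rw [sub10_iff] at hsub
    apply hno (fs n D) (mem_Hs.2 ⟨D, hD, rfl⟩)
    intro i hi
    rw [mem_fs, List.mem_map] at hi
    obtain ⟨l, hl, hli⟩ := hi
    obtain ⟨i', hi', hl'⟩ := mem_lst.1 (hsub l hl)
    have h1 : i' = i := by
      apply Fin.ext
      rw [← hli, hl']
    rw [← h1]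
    exact hI'I hi'
  rw [hany, Bool.not_false, Bool.and_true, decide_eq_false_iff_not, not_le] at hend
  have h1 := lt_cnt10 hC.hrep hC.hm hA (ori_lst I') hOri hlen hend
  rw [fs_lst, pr_on_ZZ] at h1
  have hZ0 := ZZ_nonneg o (gp10 g h0) I'
  have h2 : 1 / (A : ℝ) - η ≤ ZZ o (gp10 g h0) I' := by
    have h3 : ((1 : ℝ) / 2) ^ I'.card * ZZ o (gp10 g h0) I' ≤ 1 * ZZ o (gp10 g h0) I' := by
      apply mul_le_mul_of_nonneg_right _ hZ0
      exact pow_le_one₀ (by norm_num) (by norm_num)
    linarith
  have hstep : ∀ J : Finset (Fin n), J ⊆ I \ I' →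
      ZZ o (gp10 g h0) I' - ZZ o (gp10 g h0) (I' ∪ J) ≤ J.card * (2 ^ t * ι) := by
    intro J
    induction J using Finset.induction_on with
    | empty =>
      intro _
      simp
    | insert i J hiJ ih =>
      intro hJ
      have hJ' : J ⊆ I \ I' := (subset_insert i J).trans hJ
      have h3 := ih hJ'
      have hi : i ∈ I \ I' := hJ (mem_insert_self i J)
      rw [mem_sdiff] at hi
      have hiV : (((i : ℕ), o i) : Lit) ∉ V := by
        intro hcon
        apply hi.2
        rw [hI', mem_filter]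
        exact ⟨hi.1, hcon⟩
      have hsubI : I' ∪ J ⊆ I := union_subset hI'I (hJ'.trans sdiff_subset)
      have h4 := ZZ_insert10 (o := o) (q := gp10 g h0) (i := i) hι
        (infl_gp10 hC hVm hiV) (I' ∪ J)
      have h5 : (2 : ℝ) ^ (I' ∪ J).card * ι ≤ 2 ^ t * ι := by
        apply mul_le_mul_of_nonneg_right _ hι
        exact pow_le_pow_right₀ (by norm_num) ((card_le_card hsubI).trans hI)
      have h6 : I' ∪ insert i J = insert i (I' ∪ J) := union_insert i I' J
      rw [h6, card_insert_of_notMem hiJ]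
      push_cast
      linarith
  have h3 := hstep (I \ I') (Subset.refl _)
  rw [union_sdiff_of_subset hI'I] at h3
  have h4 : ((I \ I').card : ℝ) * (2 ^ t * ι) ≤ t * (2 ^ t * ι) := by
    apply mul_le_mul_of_nonneg_right _ (by positivity)
    exact_mod_cast (card_le_card sdiff_subset).trans hI
  have h5 : (t : ℝ) * (2 ^ t * ι) = t * 2 ^ t * ι := by ring
  linarith

end Pool.Agent.H.MP_cba12a_lc
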