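import Pool.Agent.H.MP_cba12a_lc.X10.CoreB
import Pool.Agent.H.MP_cba12a_lc.X11.Sm3
import Pool.Agent.H.MP_cba12a_lc.X11.Ch2
import Pool.Agent.H.MP_cba12a_lc.X11.Fp
import Pool.Agent.H.MP_cba12a_lc.X11.Rd

/-!
The static part of the learner for bounded codegree.
-/

namespace Pool.Agent.H.MP_cba12a_lc

open Finset

variable {n m t d : ℕ} {o : Fin n → Bool} {f g : (Fin n → Bool) → Bool}
  {ω : Fin m → Fin n → Bool} {V : List Lit} {F0 : Finset (Finset (Fin n))}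
  {a N ℓ ℓ' A B R0 NH m0 : ℕ} {P E : ℕ → ℕ} {τ η ι κ ν M Q1 σ : ℝ}

/-- the chains of the learner -/
def cs11 (N t d m0 A B : ℕ) (V : List Lit) (S : Samples) : List (List Lit) :=
  chains11 N m0 t d B V S (hs10 N t A V S)

theorem t_le_K11 (t d : ℕ) : t ≤ K11 t d := by
  unfold K11
  have : t + 1 ≤ (t + 1) * ((q11 t - 1) * (1 + D11 t d) + 1) :=
    Nat.le_mul_of_pos_right _ (by positivity)
  omega

/-- the capacity suffices for sets with at most `t` variables -/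
theorem cap_t11 (hP : Par11 a t d n N ℓ ℓ' A B R0 NH m0 P E τ η ι κ ν M Q1 σ) :
    (n + 1) ^ t ≤ N :=
  le_trans (Nat.pow_le_pow_right (by omega) (t_le_K11 t d)) hP.capK

theorem N_le_NH11 (hP : Par11 a t d n N ℓ ℓ' A B R0 NH m0 P E τ η ι κ ν M Q1 σ) : N ≤ NH := by
  have h := hP.NHb
  have h1 : N + 1 ≤ NH := le_trans (by
    rw [add_assoc]
    exact Nat.le_add_right _ _) h
  omega

/-- **Facts on the small sets**: oriented, in `V`, at most `t` variables each, at most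
`(n+1)^t ≤ N` of them. -/
theorem hs_facts11 (hC : Ctx11 t d ℓ' f g o F0 V ω NH η ι)
    (hP : Par11 a t d n N ℓ ℓ' A B R0 NH m0 P E τ η ι κ ν M Q1 σ) :
    (∀ C ∈ hs10 N t A V (smp f ω), Ori o C ∧ (∀ l ∈ C, l ∈ V) ∧ (fs n C).card ≤ t) ∧
      (seeds N t V).length ≤ (n + 1) ^ t ∧ (hs10 N t A V (smp f ω)).length ≤ NH ∧
      (seeds N t V).length ≤ NH := by
  have hlen : V.length ≤ n := length_V10 hC.hV hC.hVn
  have hN : (V.length + 1) ^ t ≤ N :=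
    (Nat.pow_le_pow_left (by omega) t).trans (cap_t11 hP)
  have hs : (seeds N t V).length ≤ (n + 1) ^ t :=
    (grow_iterate_length hN t le_rfl).trans (Nat.pow_le_pow_left (by omega) t)
  have hsNH : (seeds N t V).length ≤ NH := hs.trans ((cap_t11 hP).trans (N_le_NH11 hP))
  refine ⟨?_, hs, small10_length.trans hsNH, hsNH⟩
  intro C hCm
  have h1 : C ∈ seeds N t V := small10_mem C hCm
  obtain ⟨h2, h3⟩ := (bd_seeds N t V).2 C h1
  exact ⟨fun l hl => hC.hV l (h3 l hl), h3, (fs_card_le10 n C).trans h2⟩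

/-- **(Ass)** for the small sets of the learner -/
theorem hs_ass11 (hC : Ctx11 t d ℓ' f g o F0 V ω NH η ι)
    (hP : Par11 a t d n N ℓ ℓ' A B R0 NH m0 P E τ η ι κ ν M Q1 σ) {I : Finset (Fin n)}
    (hI : I.card ≤ t) (hno : ∀ C ∈ Hs n (hs10 N t A V (smp f ω)), ¬ C ⊆ I) :
    τ ≤ ZZ o (gp10 g (hs10 N t A V (smp f ω))) I := by
  have hlen : V.length ≤ n := length_V10 hC.hV hC.hVn
  have hN : (V.length + 1) ^ t ≤ N :=
    (Nat.pow_le_pow_left (by omega) t).trans (cap_t11 hP)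
  exact ass11 hC.to10 hP.A_pos hP.ι_nonneg hP.η_nonneg hN (hs_facts11 hC hP).2.2.2 hP.τA hI hno

theorem hs_small11 (hC : Ctx11 t d ℓ' f g o F0 V ω NH η ι)
    (hP : Par11 a t d n N ℓ ℓ' A B R0 NH m0 P E τ η ι κ ν M Q1 σ) :
    ∀ C ∈ Hs n (hs10 N t A V (smp f ω)), C.card ≤ t := by
  intro C hCm
  obtain ⟨D, hD, rfl⟩ := mem_Hs.1 hCm
  exact ((hs_facts11 hC hP).1 D hD).2.2

/-- the family of `gp10` -/
theorem hs_iff11 (hC : Ctx11 t d ℓ' f g o F0 V ω NH η ι)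
    (hP : Par11 a t d n N ℓ ℓ' A B R0 NH m0 P E τ η ι κ ν M Q1 σ) :
    (∀ x, gp10 g (hs10 N t A V (smp f ω)) x = true ↔
      ∃ A' ∈ Fp10 t F0 (hs10 N t A V (smp f ω)), On o A' x) ∧
    Cod t d (Fp10 t F0 (hs10 N t A V (smp f ω))) ∧
    ∀ A' ∈ Fp10 t F0 (hs10 N t A V (smp f ω)), A'.card ≤ ℓ' := by
  have hf := (hs_facts11 hC hP).1
  have hsm := hs_small11 hC hP
  have htℓ : t ≤ ℓ' := by
    have h1 := hP.num.m0_big
    have h2 := hP.num.m0_le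
    have h3 := hP.num.ℓ_le
    have h4 : t ≤ m11 t d := by
      unfold m11
      omega
    omega
  exact ⟨gp_iff10 hC.hgF (fun C hCm => (hf C hCm).1) fun I hI hno =>
    lt_of_lt_of_le hP.num.τ_pos (hs_ass11 hC hP hI hno), cod_Fp11 hC.hcod hsm,
    len_Fp11 hC.hlen hsm htℓ⟩

/-- the members of the list of chains -/
theorem mem_cs11 {S : Samples} {U : List Lit} : U ∈ cs11 N t d m0 A B V S ↔
    ∃ i < m0, ∃ k < m0, U ∈ chainL10 N (2 ^ e11 t d i) B V S (hs10 N t A V S) k := by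
  unfold cs11 chains11 e11
  rw [List.mem_flatMap]
  constructor
  · rintro ⟨i, hi, hU⟩
    obtain ⟨k, hk, hU⟩ := List.mem_flatMap.1 hU
    exact ⟨i, List.mem_range.1 hi, k, List.mem_range.1 hk, hU⟩
  · rintro ⟨i, hi, k, hk, hU⟩
    exact ⟨i, List.mem_range.2 hi, List.mem_flatMap.2 ⟨k, List.mem_range.2 hk, hU⟩⟩

/-- the chains are oriented -/
theorem ori_cs11 (hV : Ori o V) {S : Samples} : ∀ C ∈ cs11 N t d m0 A B V S, Ori o C := by
  intro C hCm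
  obtain ⟨i, _, k, _, hU⟩ := mem_cs11.1 hCm
  exact (chain_shape10 hV k C hU).1

/-- **The static part.** A term which is not found has at least `m0` variables. -/
theorem static11 (hC : Ctx11 t d ℓ' f g o F0 V ω NH η ι)
    (hP : Par11 a t d n N ℓ ℓ' A B R0 NH m0 P E τ η ι κ ν M Q1 σ) {H : List (List Lit)}
    (hh0H : ∀ C ∈ hs10 N t A V (smp f ω), C ∈ H)
    (hH : ∀ C ∈ mins10 B (smp f ω) (hs10 N t A V (smp f ω)) (cs11 N t d m0 A B V (smp f ω)),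
      C ∈ H) {T : Finset (Fin n)}
    (hT : T ∈ Nf (Fp10 t F0 (hs10 N t A V (smp f ω))) (Hs n H)) : m0 ≤ T.card := by
  obtain ⟨h1, _, hNH, _⟩ := hs_facts11 hC hP
  obtain ⟨hgF, hcod, _⟩ := hs_iff11 hC hP
  have hh : ∀ C ∈ hs10 N t A V (smp f ω), Ori o C := fun C hCm => (h1 C hCm).1
  have hh0 : ∀ D ∈ hs10 N t A V (smp f ω), ∀ l ∈ D, l ∈ V := fun C hCm => (h1 C hCm).2.1
  obtain ⟨hTF, hTH⟩ := mem_Nf.1 hT
  have hanti := anti_Fp11 hC.hmin hh0H T hT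
  by_contra hlt
  rw [not_le] at hlt
  have he : e11 t d T.card ≤ e11 t d m0 := by
    unfold e11
    have h2 := Nat.mul_le_mul_left d (Nat.pow_le_pow_left hlt.le (t + 1))
    omega
  have hpow : (2 : ℝ) ^ e11 t d T.card ≤ 2 ^ e11 t d m0 :=
    pow_le_pow_right₀ (by norm_num) he
  have hB0 : (0 : ℝ) ≤ B := Nat.cast_nonneg B
  have hη : 8 * η * B * 2 ^ e11 t d T.card ≤ 1 :=
    (mul_le_mul_of_nonneg_left hpow (mul_nonneg (mul_nonneg (by norm_num) hP.η_nonneg) hB0)).trans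
      hP.ηB
  have hι : 4 * ι * B * 2 ^ e11 t d T.card ≤ 1 :=
    (mul_le_mul_of_nonneg_left hpow (mul_nonneg (mul_nonneg (by norm_num) hP.ι_nonneg) hB0)).trans
      hP.ιB
  obtain ⟨k, hk, U, hU, hUT, hok⟩ := chain_full11 hC.to10 hh hh0 hNH hgF hcod hP.B_pos
    hP.η_nonneg hP.ι_nonneg hTF hanti hη hι (hP.ext T.card hlt) (hP.chain T.card hlt)
  obtain ⟨C', hC', hsub⟩ := exists_min10
    (mem_cs11.2 ⟨T.card, hlt, k, lt_of_le_of_lt hk hlt, hU⟩) hok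
  exact hTH (fs n C') (mem_Hs.2 ⟨C', hH C' hC', rfl⟩) (hsub.trans hUT)

end Pool.Agent.H.MP_cba12a_lc
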