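import Pool.Agent.H.MP_cba12a_lc.X11.AlgD
import Pool.Agent.H.MP_cba12a_lc.P9.Poly10

/-!
The learner `core11` runs in polynomial time; sizes of its lists.
-/

namespace Pool.Agent.H.MP_cba12a_lc

open Pool.Agent.H.MP_5be563_lc.PT

/-! ### Sizes -/

theorem det11_bd {V : List Lit} {S : Samples} {H : List (List Lit)} {J R W : List Lit} :
    (∀ l ∈ det11 V S H J R W, l ∈ J ∨ l ∈ R ∨ l ∈ V) ∧
      (det11 V S H J R W).length ≤ J.length + R.length + V.length := by
  unfold det11
  constructor
  · intro l hl
    rw [List.mem_append, List.mem_append] at hl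
    rcases hl with h | h | h
    · exact Or.inl h
    · exact Or.inr (Or.inl h)
    · exact Or.inr (Or.inr (List.mem_filter.1 h).1)
  · rw [List.length_append, List.length_append, ← Nat.add_assoc]
    exact Nat.add_le_add_left (List.length_filter_le _ _) _

theorem length_cands11 {N s K w : ℕ} {U V : List Lit} {S : Samples} {H : List (List Lit)} :
    (cands11 N s K w U V S H).length =
      (seeds N s V).length * ((seeds N K V).length * (seeds N w U).length) := by
  unfold cands11
  rw [List.length_flatMap]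
  have h : ∀ J : List Lit, ((seeds N K V).flatMap fun R =>
      (seeds N w U).map fun W => det11 V S H J R W).length =
      (seeds N K V).length * (seeds N w U).length := by
    intro J
    rw [List.length_flatMap]
    simp
  simp only [h]
  simp

theorem length_iter_round11 {N s K w B : ℕ} {U V : List Lit} {S : Samples}
    {h0 s0 : List (List Lit)} (j : ℕ) :
    ((round11 N s K w B U V S h0)^[j] s0).length ≤ s0.length + j * (N + 1) ^ 3 := by
  induction j with
  | zero => simp
  | succ j ih =>
    rw [Function.iterate_succ_apply']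
    generalize (round11 N s K w B U V S h0)^[j] s0 = H at ih ⊢
    unfold round11
    rw [List.length_append]
    have h1 := length_mins10_le (B := B) (S := S) (h0 := h0) (L := cands11 N s K w U V S H)
    rw [length_cands11] at h1
    have h2 := Nat.mul_le_mul (bd_seeds N s V).1
      (Nat.mul_le_mul (bd_seeds N K V).1 (bd_seeds N w U).1)
    have h3 : (j + 1) * (N + 1) ^ 3 = j * (N + 1) ^ 3 + (N + 1) * ((N + 1) * (N + 1)) := by ring
    omega

theorem length_chains11_le (N m0 t d B : ℕ) (V : List Lit) (S : Samples)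
    (h0 : List (List Lit)) : (chains11 N m0 t d B V S h0).length ≤ m0 ^ 2 * (N + 1) := by
  unfold chains11
  rw [List.length_flatMap]
  have h1 : ∀ m, ((List.range m0).flatMap fun k =>
      chainL10 N (2 ^ (m + t + 2 + d * m ^ (t + 1))) B V S h0 k).length ≤ m0 * (N + 1) := by
    intro m
    rw [List.length_flatMap]
    refine (List.sum_le_card_nsmul _ (N + 1) ?_).trans ?_
    · intro x hx
      obtain ⟨k, _, rfl⟩ := List.mem_map.1 hx
      exact (bd_chainL10 N _ B V S h0 k).1
    · simp
  refine (List.sum_le_card_nsmul _ (m0 * (N + 1)) ?_).trans ?_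
  · intro x hx
    obtain ⟨m, _, rfl⟩ := List.mem_map.1 hx
    exact h1 m
  · simp only [List.length_map, List.length_range, smul_eq_mul]
    exact le_of_eq (by ring)

/-- number of terms of the hypothesis after `j` rounds -/
theorem length_round11_le (N t d K w m0 A B : ℕ) (U V : List Lit) (S : Samples) (j : ℕ) :
    ((round11 N (2 * t) K w B U V S (small10 A S (seeds N t V)))^[j]
      (mins10 B S (small10 A S (seeds N t V))
        (chains11 N m0 t d B V S (small10 A S (seeds N t V))) ++
        small10 A S (seeds N t V))).length ≤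
      (N + 1) + m0 ^ 2 * (N + 1) + j * (N + 1) ^ 3 := by
  refine (length_iter_round11 j).trans ?_
  rw [List.length_append]
  have h1 := length_mins10_le (B := B) (S := S) (h0 := small10 A S (seeds N t V))
    (L := chains11 N m0 t d B V S (small10 A S (seeds N t V)))
  have h2 := length_chains11_le N m0 t d B V S (small10 A S (seeds N t V))
  have h3 := (length_small10_le A S (seeds N t V)).trans (bd_seeds N t V).1
  omega

theorem bs_iter_round11 {N s K w B : ℕ} {U V : List Lit} {S : Samples}
    {h0 s0 : List (List Lit)} {kk u : ℕ} (hs : s ≤ kk) (hK : K ≤ kk) (hV : ∀ l ∈ V, sz l ≤ u)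
    (hs0 : ∀ C ∈ s0, C.length ≤ 2 * kk + V.length ∧ ∀ l ∈ C, sz l ≤ u) (j : ℕ) :
    ∀ C ∈ (round11 N s K w B U V S h0)^[j] s0, C.length ≤ 2 * kk + V.length ∧
      ∀ l ∈ C, sz l ≤ u := by
  induction j with
  | zero => simpa using hs0
  | succ j ih =>
    rw [Function.iterate_succ_apply']
    generalize (round11 N s K w B U V S h0)^[j] s0 = H at ih ⊢
    unfold round11
    intro C hC
    rcases List.mem_append.1 hC with hC | hC
    · unfold mins10 at hC
      obtain ⟨D, hD, rfl⟩ := List.mem_map.1 hC
      have hD := (List.mem_filter.1 hD).1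
      have hm := min10_sub (B := B) (S := S) (h0 := h0) (C := D)
      have hD' : D.length ≤ 2 * kk + V.length ∧ ∀ l ∈ D, sz l ≤ u := by
        unfold cands11 at hD
        obtain ⟨J, hJ, hD⟩ := List.mem_flatMap.1 hD
        obtain ⟨R, hR, hD⟩ := List.mem_flatMap.1 hD
        obtain ⟨W, hW, rfl⟩ := List.mem_map.1 hD
        have hJ' := (bd_seeds N s V).2 J hJ
        have hR' := (bd_seeds N K V).2 R hR
        have hd := det11_bd (V := V) (S := S) (H := H) (J := J) (R := R) (W := W)
        refine ⟨by omega, ?_⟩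
        intro l hl
        rcases hd.1 l hl with h | h | h
        · exact hV l (hJ'.2 l h)
        · exact hV l (hR'.2 l h)
        · exact hV l h
      exact ⟨hm.2.trans hD'.1, fun l hl => hD'.2 l (hm.1 l hl)⟩
    · exact ih C hC

/-! ### Polynomial time -/

section poly

variable {α : Type} [Enc α]

theorem poly_pow11 {f : α → ℕ} (hf : Poly f) (k : ℕ) : Poly (fun a => f a ^ k) := by
  induction k with
  | zero =>
    simp only [pow_zero]
    fun_prop
  | succ k ih =>
    simp only [pow_succ]
    fun_prop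

/-- the exponent for the terms with `m` variables -/
def ex11 (t d m : ℕ) : ℕ := m + t + 2 + d * m ^ (t + 1)

theorem poly_ex11 (t d : ℕ) {f : α → ℕ} (hf : Poly f) : Poly (fun a => ex11 t d (f a)) := by
  unfold ex11
  have h1 : Poly (fun a => f a ^ (t + 1)) := poly_pow11 hf (t + 1)
  fun_prop

theorem ex11_mono {t d m m' : ℕ} (h : m ≤ m') : ex11 t d m ≤ ex11 t d m' := by
  unfold ex11
  have h1 := Nat.mul_le_mul_left d (Nat.pow_le_pow_left h (t + 1))
  omega

theorem chains11_eq {N m0 t d B TT : ℕ} {V : List Lit} {S : Samples} {h0 : List (List Lit)}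
    (hT : 2 ^ ex11 t d m0 ≤ TT) : chains11 N m0 t d B V S h0 =
      (List.range m0).flatMap fun m => (List.range m0).flatMap fun k =>
        chainL10 N (cp 2 TT (ex11 t d m)) B V S h0 k := by
  unfold chains11
  refine List.flatMap_congr fun m hm => ?_
  rw [List.mem_range] at hm
  have h1 : 2 ^ ex11 t d m ≤ TT :=
    (Nat.pow_le_pow_right (by norm_num) (ex11_mono hm.le)).trans hT
  have h2 : cp 2 TT (ex11 t d m) = 2 ^ ex11 t d m := by
    unfold cp
    rw [cpStep_iterate 2 TT (by norm_num)]
    unfold trunc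
    rw [if_pos h1]
  rw [h2]
  rfl

theorem poly_chains11 (t d : ℕ) {N m0 B TT : α → ℕ} {V : α → List Lit} {S : α → Samples}
    {h0 : α → List (List Lit)} (hN : Poly N) (hm : Poly m0) (hB : Poly B)
    (hT : Poly TT) (hTT : ∀ a, 2 ^ ex11 t d (m0 a) ≤ TT a) (hV : Poly V) (hS : Poly S)
    (hh : Poly h0) :
    Poly (fun a => chains11 (N a) (m0 a) t d (B a) (V a) (S a) (h0 a)) := by
  have h2 : (fun a => chains11 (N a) (m0 a) t d (B a) (V a) (S a) (h0 a)) = fun a =>
      (List.range (m0 a)).flatMap fun m => (List.range (m0 a)).flatMap fun k =>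
        chainL10 (N a) (cp 2 (TT a) (ex11 t d m)) (B a) (V a) (S a) (h0 a) k := by
    funext a
    exact chains11_eq (hTT a)
  rw [h2]
  have h0' : Poly (fun p : α × ℕ => ex11 t d p.2) := poly_ex11 t d (by fun_prop)
  have h3 : Poly (fun p : α × ℕ => cp 2 (TT p.1) (ex11 t d p.2)) :=
    poly_cp (by fun_prop) (by fun_prop) h0'
  have h4 : Poly (fun q : (α × ℕ) × ℕ => cp 2 (TT q.1.1) (ex11 t d q.1.2)) :=
    h3.comp (g := fun q : (α × ℕ) × ℕ => q.1) (by fun_prop)
  have h5 : Poly (fun q : (α × ℕ) × ℕ => chainL10 (N q.1.1) (cp 2 (TT q.1.1)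
      (ex11 t d q.1.2)) (B q.1.1) (V q.1.1) (S q.1.1) (h0 q.1.1) q.2) :=
    poly_chainL10 (by fun_prop) h4 (by fun_prop) (by fun_prop) (by fun_prop) (by fun_prop)
      (by fun_prop)
  have h6 : Poly (fun p : α × ℕ => (List.range (m0 p.1)).flatMap fun k =>
      chainL10 (N p.1) (cp 2 (TT p.1) (ex11 t d p.2)) (B p.1) (V p.1) (S p.1) (h0 p.1) k) :=
    Poly.flatMap h5 (by fun_prop)
  exact Poly.flatMap h6 (by fun_prop)

theorem poly_lits11 {n : α → ℕ} (hn : Poly n) : Poly (fun a => lits11 (n a)) := by
  unfold lits11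
  fun_prop

@[fun_prop]
theorem poly_det11 {V : α → List Lit} {S : α → Samples} {H : α → List (List Lit)}
    {J R W : α → List Lit} (hV : Poly V) (hS : Poly S) (hh : Poly H) (hJ : Poly J)
    (hR : Poly R) (hW : Poly W) :
    Poly (fun a => det11 (V a) (S a) (H a) (J a) (R a) (W a)) := by
  unfold det11
  have h0 : Poly (fun a => J a ++ (W a).map neg) := by fun_prop
  have h1 : Poly (fun p : α × Lit => cnt10 (S p.1) true false (R p.1)
    (neg p.2 :: (J p.1 ++ (W p.1).map neg)) (strip10 (R p.1) (H p.1))) := by fun_prop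
  have h2 : Poly (fun p : α × Lit => cnt10 (S p.1) true true (R p.1)
    (J p.1 ++ (W p.1).map neg) (strip10 (R p.1) (H p.1))) := by fun_prop
  have h3 : Poly (fun p : α × Lit => cnt10 (S p.1) true false (R p.1)
    (J p.1 ++ (W p.1).map neg) (strip10 (R p.1) (H p.1))) := by fun_prop
  have h4 : Poly (fun p : α × Lit => cnt10 (S p.1) true true (R p.1)
    (neg p.2 :: (J p.1 ++ (W p.1).map neg)) (strip10 (R p.1) (H p.1))) := by fun_prop
  have h5 := poly_ineq10 h1 h2 h3 h4
  have h6 : Poly (fun p : α × Lit => !((J p.1 ++ R p.1).any fun l' => l'.1 == p.2.1)) := by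
    fun_prop
  have h7 : Poly (fun a => (V a).filter fun l => !((J a ++ R a).any fun l' => l'.1 == l.1) &&
      decide (4 * cnt10 (S a) true false (R a) (neg l :: (J a ++ (W a).map neg))
          (strip10 (R a) (H a)) +
        cnt10 (S a) true true (R a) (J a ++ (W a).map neg) (strip10 (R a) (H a)) <
      cnt10 (S a) true false (R a) (J a ++ (W a).map neg) (strip10 (R a) (H a)) +
        4 * cnt10 (S a) true true (R a) (neg l :: (J a ++ (W a).map neg))
          (strip10 (R a) (H a)))) :=
    Poly.filter (Poly.and h6 h5) hV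
  exact hJ.append (hR.append h7)

@[fun_prop]
theorem poly_cands11 {N s K w : α → ℕ} {U V : α → List Lit} {S : α → Samples}
    {H : α → List (List Lit)} (hN : Poly N) (hs : Poly s) (hK : Poly K) (hw : Poly w)
    (hU : Poly U) (hV : Poly V) (hS : Poly S) (hH : Poly H) :
    Poly (fun a => cands11 (N a) (s a) (K a) (w a) (U a) (V a) (S a) (H a)) := by
  unfold cands11
  fun_prop

@[fun_prop]
theorem poly_round11 {N s K w B : α → ℕ} {U V : α → List Lit} {S : α → Samples}
    {h0 H : α → List (List Lit)} (hN : Poly N) (hs : Poly s) (hK : Poly K) (hw : Poly w)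
    (hB : Poly B) (hU : Poly U) (hV : Poly V) (hS : Poly S) (hh : Poly h0) (hH : Poly H) :
    Poly (fun a => round11 (N a) (s a) (K a) (w a) (B a) (U a) (V a) (S a) (h0 a) (H a)) := by
  unfold round11
  fun_prop

/-- bound for the size of the hypothesis -/
theorem sz_iter_round11 {N s K w B R : ℕ} {U V : List Lit} {S : Samples}
    {h0 s0 : List (List Lit)} (j : ℕ) (hj : j ≤ R) :
    sz ((round11 N s K w B U V S h0)^[j] s0) ≤
      (sz s0 + sz R * ((sz N + 1) * ((sz N + 1) * (sz N + 1)))) *
        ((2 * (sz s + sz K + sz s0) + sz V) * ((sz V + sz s0) + 1) + 2) + 1 := by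
  have h1 := length_iter_round11 (N := N) (s := s) (K := K) (w := w) (B := B) (U := U) (V := V) (S := S)
    (h0 := h0) (s0 := s0) j
  have h2 := bs_iter_round11 (N := N) (s := s) (K := K) (w := w) (B := B) (U := U) (V := V) (S := S)
    (h0 := h0) (s0 := s0) (kk := sz s + sz K + sz s0)
    (u := sz V + sz s0) (by simp only [sz_nat]; omega) (by simp only [sz_nat]; omega)
    (by
      intro l hl
      have := sz_mem_lt hl
      omega)
    (by
      intro C hC
      have h3 := sz_mem_lt hC
      have h4 := length_lt_sz C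
      refine ⟨by omega, ?_⟩
      intro l hl
      have := sz_mem_lt hl
      omega) j
  have hbs : Bs (sz s0 + sz R * ((sz N + 1) * ((sz N + 1) * (sz N + 1))))
      (2 * (sz s + sz K + sz s0) + sz V) (sz V + sz s0)
      ((round11 N s K w B U V S h0)^[j] s0) := by
    refine ⟨h1.trans ?_, ?_⟩
    · have h3 := length_lt_sz s0
      have e : (N + 1) ^ 3 = (N + 1) * ((N + 1) * (N + 1)) := by ring
      rw [e]
      have hN' : N + 1 ≤ sz N + 1 := by simp only [sz_nat]; omega
      refine Nat.add_le_add h3.le (Nat.mul_le_mul ?_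
        (Nat.mul_le_mul hN' (Nat.mul_le_mul hN' hN')))
      simp only [sz_nat]; omega
    · intro C hC
      have h3 := h2 C hC
      have h4 := length_lt_sz V
      exact ⟨by omega, h3.2⟩
  exact hbs.sz_le

theorem poly_coreV11 (t d : ℕ) {N K w m0 A B R0 TT : α → ℕ} {U V : α → List Lit}
    {S : α → Samples} (hN : Poly N) (hK : Poly K) (hw : Poly w) (hm : Poly m0) (hA : Poly A)
    (hB : Poly B) (hR : Poly R0) (hT : Poly TT) (hTT : ∀ a, 2 ^ ex11 t d (m0 a) ≤ TT a)
    (hU : Poly U) (hV : Poly V) (hS : Poly S) :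
    Poly (fun a => coreV11 (N a) t d (K a) (w a) (m0 a) (A a) (B a) (R0 a) (U a) (V a)
      (S a)) := by
  have ht : Poly (fun _ : α => t) := MP_5be563_lc.PT.Poly.const t
  have ht2 : Poly (fun _ : α => 2 * t) := MP_5be563_lc.PT.Poly.const (2 * t)
  have h0 : Poly (fun a => small10 (A a) (S a) (seeds (N a) t (V a))) := by fun_prop
  have hc : Poly (fun a => chains11 (N a) (m0 a) t d (B a) (V a) (S a)
      (small10 (A a) (S a) (seeds (N a) t (V a)))) :=
    poly_chains11 t d hN hm hB hT hTT hV hS h0
  have key : ∀ {ch h0 : α → List (List Lit)}, Poly ch → Poly h0 →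
      Poly (fun a => (round11 (N a) (2 * t) (K a) (w a) (B a) (U a) (V a) (S a) (h0 a))^[R0 a]
        (mins10 (B a) (S a) (h0 a) (ch a) ++ h0 a)) := by
    intro ch h0 hch hh0
    have hs : Poly (fun a => mins10 (B a) (S a) (h0 a) (ch a) ++ h0 a) := by fun_prop
    have hf : Poly (fun p : α × List (List Lit) => round11 (N p.1) (2 * t) (K p.1) (w p.1)
        (B p.1) (U p.1) (V p.1) (S p.1) (h0 p.1) p.2) := by
      refine poly_round11 (by fun_prop) (MP_5be563_lc.PT.Poly.const (2 * t)) (by fun_prop)
        (by fun_prop) (by fun_prop) (by fun_prop) (by fun_prop) (by fun_prop) (by fun_prop) (by fun_prop)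
    refine Poly.iterate (f := fun a H => round11 (N a) (2 * t) (K a) (w a) (B a) (U a) (V a) (S a)
        (h0 a) H) (s := fun a => mins10 (B a) (S a) (h0 a) (ch a) ++ h0 a) (n := R0)
      (B := fun a => (sz (mins10 (B a) (S a) (h0 a) (ch a) ++ h0 a) + sz (R0 a) *
        ((sz (N a) + 1) * ((sz (N a) + 1) * (sz (N a) + 1)))) *
        ((2 * (sz (2 * t) + sz (K a) + sz (mins10 (B a) (S a) (h0 a) (ch a) ++ h0 a)) +
          sz (V a)) * ((sz (V a) + sz (mins10 (B a) (S a) (h0 a) (ch a) ++ h0 a)) +
          1) + 2) + 1)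
      hf hs hR ?_ ?_
    · have p1 := hs.sz_le
      have p2 := hR.sz_le
      have p3 := hN.sz_le
      have p5 := ht2.sz_le
      have p6 := hK.sz_le
      have p7 := hV.sz_le
      have p8 := p3.add (PBdd.const 1)
      exact ((p1.add (p2.mul (p8.mul (p8.mul p8)))).mul
        (((((PBdd.const 2).mul ((p5.add p6).add p1)).add p7).mul
          ((p7.add p1).add (PBdd.const 1))).add (PBdd.const 2))).add (PBdd.const 1)
    · intro a j hj
      exact sz_iter_round11 j hj
  unfold coreV11
  exact key hc h0

/-- **The learner runs in polynomial time.** -/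
theorem poly_core11 (t d : ℕ) {N K w m0 A B R0 TT Θ n : α → ℕ} {S : α → Samples}
    (hN : Poly N) (hK : Poly K) (hw : Poly w) (hm : Poly m0) (hA : Poly A)
    (hB : Poly B) (hR : Poly R0) (hT : Poly TT) (hTT : ∀ a, 2 ^ ex11 t d (m0 a) ≤ TT a)
    (hΘ : Poly Θ) (hn : Poly n) (hS : Poly S) :
    Poly (fun a => core11 (N a) t d (K a) (w a) (m0 a) (A a) (B a) (R0 a) (Θ a) (n a)
      (S a)) := by
  unfold core11
  exact poly_coreV11 t d hN hK hw hm hA hB hR hT hTT (poly_lits11 hn) (by fun_prop) hS

end poly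

end Pool.Agent.H.MP_cba12a_lc
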