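import Pool.Agent.H.MP_cba12a_lc.X11.Rate1

/-!
A bound on the total weight of the long terms through a set of variables, for bounded codegree.
-/

namespace Pool.Agent.H.MP_cba12a_lc

open Finset

variable {n : ℕ} {o : Fin n → Bool} {g : (Fin n → Bool) → Bool}

/-- **The rate bound**, by downward induction on `|I|` (induction on `t + 1 - |I|`). If
`|I| = t + 1` at most `d` members contain `I`, each with weight at most `1`. Let `|I| ≤ t`. If no
member contains `I` the sum is `0`. Otherwise `τ ≤ Z(I)`. Let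
`G' = {T \ I : I ⊆ T ∈ G}` (`rt_eq_wt10`) and let `𝒮 ⊆ G'` be the family of `greedy10`:
`τ ≤ Z(I) ≤ pr (Off G') ≤ pr (Off 𝒮) ≤ exp (- wt 𝒮 / 2)`, so `wt 𝒮 ≤ λ = 2 log (1/τ)`. For the
other members `B` of `G'`: `2^{-|B|} < 2 ∑_{A ∈ 𝒮, A meets B} 2^{-|A ∪ B|}`, so their weight is at
most `2 ∑_{A ∈ 𝒮} 2^{-|A|} ∑_{B ∈ G', B meets A} 2^{-|B \ A|}`, where the inner sum is bounded by
`meet_rt11` (`|I ∪ A| ≤ ℓ` as `I ∪ A ∈ G`) with `Λ = (1 + 2 (t+1) ℓ^(t+1)) λ`. In total
`wt G' ≤ λ (1 + 2 (d ℓ^(t+1) + t ℓ d Λ^(t-|I|))) ≤ λ d Λ^(t-|I|) (1 + 2 (t+1) ℓ^(t+1))`. -/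
theorem rate11 {t d ℓ : ℕ} {τ : ℝ} (G : Finset (Finset (Fin n))) (hG : Cod t d G) (hd : 1 ≤ d)
    (hlong : ∀ T ∈ G, t < T.card) (hℓ : ∀ T ∈ G, T.card ≤ ℓ)
    (hgG : ∀ A ∈ G, ∀ x, On o A x → g x = true)
    (hτ : 0 < τ) (hτ1 : 1 ≤ Real.log (1 / τ))
    (hZ : ∀ T ∈ G, ∀ J ⊆ T, J.card ≤ t → τ ≤ ZZ o g J) (I : Finset (Fin n))
    (hI : I.card ≤ t + 1) :
    rt10 G I ≤ d * ((1 + 2 * (t + 1) * (ℓ : ℝ) ^ (t + 1)) * (2 * Real.log (1 / τ))) ^
      (t + 1 - I.card) := by
  classical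
  obtain ⟨lam, hlam⟩ : ∃ lam, lam = 2 * Real.log (1 / τ) := ⟨_, rfl⟩
  obtain ⟨B, hB⟩ : ∃ B, B = (1 + 2 * (t + 1) * (ℓ : ℝ) ^ (t + 1)) * lam := ⟨_, rfl⟩
  rw [← hlam, ← hB]
  have hlam2 : 2 ≤ lam := by rw [hlam]; linarith
  have hd1 : (1 : ℝ) ≤ d := by exact_mod_cast hd
  have hℓ0 : (0 : ℝ) ≤ ℓ := Nat.cast_nonneg ℓ
  have ht0 : (0 : ℝ) ≤ t := Nat.cast_nonneg t
  have hℓp0 : (0 : ℝ) ≤ (ℓ : ℝ) ^ (t + 1) := by positivity
  have hℓp : (ℓ : ℝ) ≤ (ℓ : ℝ) ^ (t + 1) := by
    exact_mod_cast Nat.le_self_pow (Nat.succ_ne_zero t) ℓ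
  have hK0 : 0 ≤ 2 * ((t : ℝ) + 1) * (ℓ : ℝ) ^ (t + 1) := by positivity
  have hK1 : (ℓ : ℝ) ^ (t + 1) ≤ 2 * ((t : ℝ) + 1) * (ℓ : ℝ) ^ (t + 1) := by
    have h1 : (1 : ℝ) ≤ 2 * ((t : ℝ) + 1) := by linarith
    exact le_mul_of_one_le_left hℓp0 h1
  have hB1 : 1 ≤ B := by
    rw [hB]
    nlinarith only [hK0, hlam2]
  have hBℓ : (ℓ : ℝ) ≤ B := by
    rw [hB]
    nlinarith only [hK0, hlam2, hK1, hℓp]
  obtain ⟨e, he⟩ : ∃ e, t + 1 - I.card = e := ⟨_, rfl⟩
  induction e using Nat.strong_induction_on generalizing I with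
  | _ e ih =>
  rw [he]
  rcases Nat.eq_zero_or_pos e with he0 | he0
  · rw [he0, pow_zero, mul_one]
    have hIc : I.card = t + 1 := by omega
    have h1 := hG I hIc
    unfold rt10
    calc ∑ T ∈ G.filter (fun T => I ⊆ T), (1 / 2 : ℝ) ^ (T \ I).card ≤
        ∑ _T ∈ G.filter (fun T => I ⊆ T), (1 : ℝ) :=
          sum_le_sum fun T _ => pow_le_one₀ (by norm_num) (by norm_num)
      _ = ((G.filter (fun T => I ⊆ T)).card : ℝ) := by rw [sum_const, nsmul_eq_mul, mul_one]
      _ ≤ d := by exact_mod_cast h1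
  · have hIt : I.card ≤ t := by omega
    have heI : e = (t - I.card) + 1 := by omega
    obtain ⟨M, hM⟩ : ∃ M, M = B ^ (t - I.card) := ⟨_, rfl⟩
    have hM1 : 1 ≤ M := by rw [hM]; exact one_le_pow₀ hB1
    have hBM : B ^ e = M * B := by rw [heI, pow_succ, hM]
    by_cases hex : ∃ T₀ ∈ G, I ⊆ T₀
    · obtain ⟨T₀, hT₀, hIT₀⟩ := hex
      have hfl : G.filter (fun T => I ⊆ T) = G.filter (fun T => I ⊆ T) := rfl
      rw [rt_eq_wt10]
      obtain ⟨GI, hGI⟩ : ∃ GI, GI = (G.filter (fun T => I ⊆ T)).image (fun T => T \ I) := ⟨_, rfl⟩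
      rw [← hGI]
      have hinj : Set.InjOn (fun T : Finset (Fin n) => T \ I)
          ((G.filter (fun T => I ⊆ T) : Finset (Finset (Fin n))) : Set (Finset (Fin n))) := by
        intro A hA B' hB' h
        rw [Finset.mem_coe, mem_filter] at hA hB'
        have h' : A \ I = B' \ I := h
        rw [← sdiff_union_of_subset hA.2, h', sdiff_union_of_subset hB'.2]
      have hZI : τ ≤ pr fun x => Off o GI x := by
        refine (hZ T₀ hT₀ I hIT₀ hIt).trans (pr_mono ?_)
        intro x hx A hA hon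
        rw [hGI, mem_image] at hA
        obtain ⟨T, hT, rfl⟩ := hA
        rw [mem_filter] at hT
        have h1 : On o T (sOn o I x) := (on_sOn_iff o T I x).2 hon
        have h2 := hgG T hT.1 _ h1
        rw [hx] at h2
        exact Bool.false_ne_true h2
      obtain ⟨𝒮, hsub, hpr, hrej⟩ := greedy10 o GI
      have hSw : wt10 𝒮 ≤ lam := by
        have h1 : τ ≤ Real.exp (- wt10 𝒮 / 2) := by
          refine hZI.trans (le_trans (pr_mono ?_) hpr)
          intro x hx C hC
          exact hx C (hsub hC)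
        have h2 := Real.log_le_log hτ h1
        rw [Real.log_exp] at h2
        rw [hlam, Real.log_div one_ne_zero hτ.ne', Real.log_one]
        linarith
      have hinner : ∀ A ∈ 𝒮, ∑ T ∈ GI.filter (fun T => ¬ Disjoint A T),
          (1 / 2 : ℝ) ^ (T \ A).card ≤ d * (ℓ : ℝ) ^ (t + 1) + t * ℓ * (d * M) := by
        intro A hA
        have hAG := hsub hA
        rw [hGI, mem_image] at hAG
        obtain ⟨TA, hTA, hTA2⟩ := hAG
        rw [mem_filter] at hTA
        have hIA : Disjoint I A := by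
          rw [← hTA2]
          exact disjoint_sdiff
        have hIAc : (I ∪ A).card ≤ ℓ := by
          rw [← hTA2, union_sdiff_of_subset hTA.2]
          exact hℓ TA hTA.1
        have hm := meet_rt11 (Λ := B) G hG hIt hIA hIAc hB1 hBℓ (by
          intro J hJA hJ hJt
          have hc : (I ∪ J).card = I.card + J.card :=
            card_union_of_disjoint (hIA.mono_right hJA)
          have hJ1 : 0 < J.card := card_pos.2 hJ
          exact ih (t + 1 - (I ∪ J).card) (by omega) (I ∪ J) (by omega) rfl)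
        rw [← hM] at hm
        refine le_trans (le_of_eq ?_) hm
        rw [hGI, filter_image, sum_image]
        · apply sum_congr
          · ext T
            rw [mem_filter, mem_filter, mem_filter]
            have h3 : I ⊆ T → (Disjoint A (T \ I) ↔ Disjoint T A) := by
              intro _
              rw [disjoint_comm]
              constructor
              · intro h4
                rw [Finset.disjoint_left] at h4 ⊢
                intro a haT haA
                exact h4 (mem_sdiff.2 ⟨haT, fun haI => (Finset.disjoint_left.1 hIA) haI haA⟩) haA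
              · intro h4
                exact h4.mono_left sdiff_subset
            constructor
            · rintro ⟨⟨h4, h5⟩, h6⟩
              exact ⟨h4, h5, fun h7 => h6 ((h3 h5).2 h7)⟩
            · rintro ⟨h4, h5, h6⟩
              exact ⟨⟨h4, h5⟩, fun h7 => h6 ((h3 h5).1 h7)⟩
          · intro T _
            rfl
        · intro T1 h1 T2 h2 h12
          refine hinj ?_ ?_ h12
          · exact Finset.mem_coe.2 (mem_of_mem_filter T1 (Finset.mem_coe.1 h1))
          · exact Finset.mem_coe.2 (mem_of_mem_filter T2 (Finset.mem_coe.1 h2))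
      obtain ⟨Q, hQ⟩ : ∃ Q, Q = d * (ℓ : ℝ) ^ (t + 1) + t * ℓ * (d * M) := ⟨_, rfl⟩
      have hrest : ∑ T ∈ GI \ 𝒮, (1 / 2 : ℝ) ^ T.card ≤ 2 * (wt10 𝒮 * Q) := by
        calc ∑ T ∈ GI \ 𝒮, (1 / 2 : ℝ) ^ T.card
            ≤ ∑ T ∈ GI \ 𝒮, 2 * ∑ A ∈ 𝒮.filter (fun A => ¬ Disjoint A T),
                (1 / 2 : ℝ) ^ (A ∪ T).card := by
              apply sum_le_sum
              intro T hT
              rw [mem_sdiff] at hT
              have := hrej T hT.1 hT.2
              linarith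
          _ ≤ ∑ T ∈ GI, 2 * ∑ A ∈ 𝒮.filter (fun A => ¬ Disjoint A T),
                (1 / 2 : ℝ) ^ (A ∪ T).card := by
              apply sum_le_sum_of_subset_of_nonneg sdiff_subset
              intro T _ _
              exact mul_nonneg (by norm_num) (sum_nonneg fun _ _ => by positivity)
          _ = 2 * ∑ A ∈ 𝒮, ∑ T ∈ GI.filter (fun T => ¬ Disjoint A T),
                (1 / 2 : ℝ) ^ (A ∪ T).card := by
              rw [← mul_sum]
              congr 1
              simp only [sum_filter]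
              exact sum_comm
          _ = 2 * ∑ A ∈ 𝒮, (1 / 2 : ℝ) ^ A.card * ∑ T ∈ GI.filter (fun T => ¬ Disjoint A T),
                (1 / 2 : ℝ) ^ (T \ A).card := by
              congr 1
              apply sum_congr rfl
              intro A _
              rw [mul_sum]
              apply sum_congr rfl
              intro T _
              rw [← pow_add, ← card_union_of_disjoint disjoint_sdiff, union_sdiff_self_eq_union]
          _ ≤ 2 * ∑ A ∈ 𝒮, (1 / 2 : ℝ) ^ A.card * Q := by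
              apply mul_le_mul_of_nonneg_left _ (by norm_num)
              apply sum_le_sum
              intro A hA
              rw [hQ]
              exact mul_le_mul_of_nonneg_left (hinner A hA) (by positivity)
          _ = 2 * (wt10 𝒮 * Q) := by
              rw [← sum_mul]
              rfl
      have htot : wt10 GI = wt10 𝒮 + ∑ T ∈ GI \ 𝒮, (1 / 2 : ℝ) ^ T.card := by
        unfold wt10
        rw [add_comm]
        exact (sum_sdiff hsub).symm
      have hQ0 : 0 ≤ Q := by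
        rw [hQ]
        positivity
      have hw0 := wt10_nonneg 𝒮
      have h5 : wt10 GI ≤ lam * (1 + 2 * Q) := by
        rw [htot]
        have h6 : wt10 𝒮 * Q ≤ lam * Q := mul_le_mul_of_nonneg_right hSw hQ0
        linarith
      refine h5.trans ?_
      rw [hBM, hB]
      have hdM1 : 1 ≤ (d : ℝ) * M := by nlinarith only [hd1, hM1]
      have h7 : 1 + 2 * Q ≤ (d * M) * (1 + 2 * (t + 1) * (ℓ : ℝ) ^ (t + 1)) := by
        have h8 : (d : ℝ) * (ℓ : ℝ) ^ (t + 1) ≤ (d * M) * (ℓ : ℝ) ^ (t + 1) := by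
          apply mul_le_mul_of_nonneg_right _ hℓp0
          exact le_mul_of_one_le_right (by linarith) hM1
        have h9 : (t : ℝ) * ℓ * (d * M) ≤ (d * M) * (t * (ℓ : ℝ) ^ (t + 1)) := by
          have h10 : (t : ℝ) * ℓ ≤ t * (ℓ : ℝ) ^ (t + 1) := mul_le_mul_of_nonneg_left hℓp ht0
          have h11 : (t : ℝ) * ℓ * (d * M) ≤ (t * (ℓ : ℝ) ^ (t + 1)) * (d * M) :=
            mul_le_mul_of_nonneg_right h10 (by linarith)
          linarith
        rw [hQ]
        nlinarith only [h8, h9, hdM1]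
      calc lam * (1 + 2 * Q) ≤ lam * ((d * M) * (1 + 2 * (t + 1) * (ℓ : ℝ) ^ (t + 1))) :=
            mul_le_mul_of_nonneg_left h7 (by linarith)
        _ = d * (M * ((1 + 2 * (t + 1) * (ℓ : ℝ) ^ (t + 1)) * lam)) := by ring
    · push Not at hex
      have h1 : G.filter (fun T => I ⊆ T) = ∅ := filter_false_of_mem fun T hT => hex T hT
      unfold rt10
      rw [h1, sum_empty]
      have : 0 ≤ B := by linarith
      positivity

/-- total weight (the case `I = ∅`) -/
theorem wt_rate11 {t d ℓ : ℕ} {τ : ℝ} (G : Finset (Finset (Fin n))) (hG : Cod t d G) (hd : 1 ≤ d)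
    (hlong : ∀ T ∈ G, t < T.card) (hℓ : ∀ T ∈ G, T.card ≤ ℓ)
    (hgG : ∀ A ∈ G, ∀ x, On o A x → g x = true)
    (hτ : 0 < τ) (hτ1 : 1 ≤ Real.log (1 / τ))
    (hZ : ∀ T ∈ G, ∀ J ⊆ T, J.card ≤ t → τ ≤ ZZ o g J) :
    wt10 G ≤ d * ((1 + 2 * (t + 1) * (ℓ : ℝ) ^ (t + 1)) * (2 * Real.log (1 / τ))) ^ (t + 1) := by
  have h := rate11 G hG hd hlong hℓ hgG hτ hτ1 hZ ∅ (by simp)
  simpa [rt10, wt10] using h

end Pool.Agent.H.MP_cba12a_lc
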