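import Pool.Agent.H.MP_cba12a_lc.X11.Step
import Pool.Agent.H.MP_cba12a_lc.X10.Cov4

/-!
The probability that an almost disjoint sequence of sets is on.
-/

namespace Pool.Agent.H.MP_cba12a_lc

open Finset

variable {n : ℕ} {o : Fin n → Bool}

/-- For a decreasing event `E` and `G ⊆ U`: `Pr[U on, E] ≤ 2^{-|U \ G|} Pr[G on, E]`. Proof: by
`pr_on`, `Pr[U on, E] = 2^{-|U|} Pr[E (sOn U x)]`, `Pr[G on, E] = 2^{-|G|} Pr[E (sOn G x)]`, and
`E (sOn U x)` implies `E (sOn G x)` (`DnP.anti`). -/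
theorem on_dn11 {E : (Fin n → Bool) → Prop} (hE : DnP o E) {G U : Finset (Fin n)} (h : G ⊆ U) :
    pr (fun x => On o U x ∧ E x) ≤ (1 / 2) ^ (U \ G).card * pr (fun x => On o G x ∧ E x) := by
  rw [pr_on o U E, pr_on o G E, ← mul_assoc, ← pow_add, card_sdiff_add_card_eq_card h]
  refine mul_le_mul_of_nonneg_left ?_ (by positivity)
  exact pr_mono fun x hx => hE.anti h hx

/-- **The probability of a good extension.** Let `E` be decreasing, `G` contained in the union of
`P`, all members of `𝒢` of size between `m1` and `ℓ'`, `wt 𝒢 ≤ W`. Then the probability that the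
union of `P` is on, `E` holds and `P` has a good extension by `k` members of `𝒢` which are on is at
most `2^{-|∪P \ G|} Pr[G on, E] f^k`, `f = fb11 t d q ℓ' m1 W`.
Proof by induction on `k`, generalising `P`. `k = 0`: `on_dn11`. `k + 1`: union bound over the
members `A` of `𝒢` which are good for `P` (`pr_le_sum`); for each of them the induction hypothesis
for `A :: P` gives `2^{-|∪P \ G|} 2^{-|A \ ∪P|} Pr[G on, E] f^k`
(`(A ∪ ∪P) \ G` is the disjoint union of `∪P \ G` and `A \ ∪P`), and the sum over `A` of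
`2^{-|A \ ∪P|}` is at most `f` by `step11` and `half_of_gd11`, as `|P| ≤ q`. -/
theorem prob11 {t d q ℓ' m1 : ℕ} {W : ℝ} (hq : 0 < q) {𝒢 : Finset (Finset (Fin n))}
    (h𝒢 : Cod t d 𝒢) (hℓ' : ∀ A ∈ 𝒢, A.card ≤ ℓ') (hm1 : ∀ A ∈ 𝒢, m1 ≤ A.card)
    (hW : wt10 𝒢 ≤ W) {E : (Fin n → Bool) → Prop} (hE : DnP o E) {G : Finset (Fin n)} (k : ℕ) :
    ∀ P : List (Finset (Fin n)), P.length + k ≤ q → (∀ B ∈ P, B.card ≤ ℓ') → G ⊆ lU P →
      pr (fun x => On o (lU P) x ∧ E x ∧ Chn11 𝒢 q (fun A => On o A x) k P) ≤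
        (1 / 2) ^ (lU P \ G).card * pr (fun x => On o G x ∧ E x) * fb11 t d q ℓ' m1 W ^ k := by
  classical
  have hW0 : 0 ≤ W := (wt10_nonneg 𝒢).trans hW
  have hf0 : 0 ≤ fb11 t d q ℓ' m1 W := by
    unfold fb11
    positivity
  induction k with
  | zero =>
    intro P _ _ hGP
    rw [pow_zero, mul_one]
    refine le_trans (pr_mono fun x hx => ?_) (on_dn11 hE hGP)
    exact ⟨hx.1, hx.2.1⟩
  | succ k ih =>
    intro P hPq hPℓ hGP
    set 𝒜 := 𝒢.filter fun A => Gd11 q P A with h𝒜def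
    have hsub : 𝒜 ⊆ 𝒢 := filter_subset _ _
    have hPq' : P.length ≤ q := by omega
    have hsum : ∑ A ∈ 𝒜, (1 / 2 : ℝ) ^ (A \ lU P).card ≤ fb11 t d q ℓ' m1 W := by
      have h1 := step11 (h𝒢.mono hsub) P hPℓ (fun A hA => hm1 A (hsub hA)) (fun A hA =>
        half_of_gd11 hq hPq' (mem_filter.1 hA).2)
      refine h1.trans ?_
      unfold fb11
      have h2 : (2 : ℝ) ^ (P.length * t) ≤ 2 ^ (q * t) :=
        pow_le_pow_right₀ (by norm_num) (Nat.mul_le_mul_right t hPq')
      have h3 : wt10 𝒜 ≤ W := (wt10_mono hsub).trans hW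
      have h4 : (P.length : ℝ) ≤ q := by exact_mod_cast hPq'
      refine add_le_add (mul_le_mul h2 h3 (wt10_nonneg _) (by positivity)) ?_
      refine mul_le_mul_of_nonneg_right ?_ (by positivity)
      refine mul_le_mul_of_nonneg_right ?_ (by positivity)
      exact mul_le_mul_of_nonneg_right h4 (by positivity)
    have hE0 : 0 ≤ pr (fun x => On o G x ∧ E x) := pr_nonneg _
    have hterm : ∀ A ∈ 𝒜,
        pr (fun x => On o (lU (A :: P)) x ∧ E x ∧ Chn11 𝒢 q (fun A => On o A x) k (A :: P)) ≤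
          (1 / 2) ^ (lU P \ G).card * pr (fun x => On o G x ∧ E x) *
            fb11 t d q ℓ' m1 W ^ k * (1 / 2 : ℝ) ^ (A \ lU P).card := by
      intro A hA
      have hA𝒢 : A ∈ 𝒢 := hsub hA
      have hG' : G ⊆ lU (A :: P) := hGP.trans subset_union_right
      have h1 := ih (A :: P) (by rw [List.length_cons]; omega) (by
        intro B hB
        rcases List.mem_cons.1 hB with rfl | hB
        · exact hℓ' _ hA𝒢
        · exact hPℓ B hB) hG'
      refine h1.trans (le_of_eq ?_)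
      have hc : (lU (A :: P) \ G).card = (lU P \ G).card + (A \ lU P).card := by
        rw [← card_union_of_disjoint]
        · congr 1
          ext i
          rw [lU_cons, mem_sdiff, mem_union, mem_union, mem_sdiff, mem_sdiff]
          have := @hGP i
          tauto
        · rw [disjoint_left]
          intro i hi hi'
          exact (mem_sdiff.1 hi').2 (mem_sdiff.1 hi).1
      rw [hc, pow_add]
      ring
    have hun : pr (fun x => On o (lU P) x ∧ E x ∧ Chn11 𝒢 q (fun A => On o A x) (k + 1) P) ≤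
        ∑ A ∈ 𝒜, pr (fun x => On o (lU (A :: P)) x ∧ E x ∧
          Chn11 𝒢 q (fun A => On o A x) k (A :: P)) := by
      refine pr_le_sum 𝒜 _ _ ?_
      rintro x ⟨hx1, hx2, hx3⟩
      obtain ⟨A, hA, hg, hon, hch⟩ := (chn11_succ _ _ _ _ _).1 hx3
      refine ⟨A, mem_filter.2 ⟨hA, hg⟩, ?_, hx2, hch⟩
      intro i hi
      rw [lU_cons, mem_union] at hi
      rcases hi with hi | hi
      · exact hon i hi
      · exact hx1 i hi
    refine hun.trans ((sum_le_sum hterm).trans ?_)
    rw [← mul_sum, pow_succ, ← mul_assoc]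
    refine mul_le_mul_of_nonneg_left hsum ?_
    positivity

/-- `Pr[P (sOn W x)] ≤ 2^{|W|} Pr[P x]` (from `pr_on`) -/
theorem pr_sOn_le11 (P : (Fin n → Bool) → Prop) (W : Finset (Fin n)) :
    pr (fun x => P (sOn o W x)) ≤ 2 ^ W.card * pr P := by
  have h := pr_on o W P
  have h5 : (2 : ℝ) ^ W.card * ((1 / 2) ^ W.card * pr (fun x => P (sOn o W x))) =
      pr (fun x => P (sOn o W x)) := by
    rw [← mul_assoc, ← mul_pow]
    norm_num
  rw [← h5, ← h]
  exact mul_le_mul_of_nonneg_left (pr_mono fun x hx => hx.2) (by positivity)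

end Pool.Agent.H.MP_cba12a_lc
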