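import Pool.Agent.H.MP_cba12a_lc.X11.Cov
import Pool.Agent.H.MP_cba12a_lc.X11.Prob

/-!
The noise in terms of the weights of the other unfound terms.
-/

namespace Pool.Agent.H.MP_cba12a_lc

open Finset

variable {n : ℕ} {o : Fin n → Bool} {F H : Finset (Finset (Fin n))} {t d : ℕ}

/-- no member of `H` is on and no member of `S` shorter than `m` is on: a decreasing event -/
theorem nz2_dnP_short11 (o : Fin n → Bool) (H S : Finset (Finset (Fin n))) (m : ℕ) :
    DnP o (fun x => Off o H x ∧ ∀ A ∈ S, A.card < m → ¬ On o A x) :=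
  (dnP_off o H).and fun i x h A hA hm => dnP_not_on o A i x (h A hA hm)

/-- Leaving out `T` changes `w11` at most by the factor `2`: `T ⊄ G`, so some variable of `T \ G` is
off in at least half of the (decreasing) event. -/
theorem w_erase11 {T G : Finset (Fin n)} (hTG : ¬ T ⊆ G) :
    pr (fun x => On o G x ∧ Off o H x ∧
      ∀ A ∈ (Nf F H).erase T, A.card < G.card → ¬ On o A x) ≤ 2 * w11 o F H G := by
  obtain ⟨i, hiT, hiG⟩ := Finset.not_subset.1 hTG
  have hE := nz2_dnP_short11 o H ((Nf F H).erase T) G.card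
  have h1 : pr (fun x => On o G x ∧ Off o H x ∧
      ∀ A ∈ (Nf F H).erase T, A.card < G.card → ¬ On o A x) ≤
      pr (fun x => (On o G x ∧ (Off o H x ∧
        ∀ A ∈ (Nf F H).erase T, A.card < G.card → ¬ On o A x)) ∧ x i = o i) +
      pr (fun x => (On o G x ∧ (Off o H x ∧
        ∀ A ∈ (Nf F H).erase T, A.card < G.card → ¬ On o A x)) ∧ x i ≠ o i) := by
    apply pr_le_add
    intro x hx
    by_cases h : x i = o i
    · exact Or.inl ⟨hx, h⟩
    · exact Or.inr ⟨hx, h⟩
  have h2 : pr (fun x => (On o G x ∧ (Off o H x ∧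
        ∀ A ∈ (Nf F H).erase T, A.card < G.card → ¬ On o A x)) ∧ x i = o i) ≤
      pr (fun x => (On o G x ∧ (Off o H x ∧
        ∀ A ∈ (Nf F H).erase T, A.card < G.card → ¬ On o A x)) ∧ x i ≠ o i) := by
    rw [← pr_flp i (fun x => (On o G x ∧ (Off o H x ∧
        ∀ A ∈ (Nf F H).erase T, A.card < G.card → ¬ On o A x)) ∧ x i ≠ o i)]
    refine pr_mono ?_
    rintro x ⟨⟨hG, hx⟩, hi⟩
    have e1 : flp i x = Function.update x i (!(o i)) := by
      rw [← hi]
      rfl
    have e2 : Function.update x i (o i) = x := by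
      rw [← hi]
      exact Function.update_eq_self i x
    refine ⟨⟨fun j hj => ?_, ?_⟩, ?_⟩
    · have hji : j ≠ i := fun hc => by
        rw [hc] at hj
        exact hiG hj
      rw [e1, Function.update_of_ne hji]
      exact hG j hj
    · rw [e1]
      have := hE i x
      rw [e2] at this
      exact this hx
    · rw [e1, Function.update_self]
      cases o i <;> simp
  have h3 : pr (fun x => (On o G x ∧ (Off o H x ∧
        ∀ A ∈ (Nf F H).erase T, A.card < G.card → ¬ On o A x)) ∧ x i ≠ o i) ≤ w11 o F H G := by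
    refine pr_mono ?_
    rintro x ⟨⟨hG, hH, hA⟩, hi⟩
    refine ⟨hG, hH, fun A hAN hc hon => ?_⟩
    by_cases hAT : A = T
    · rw [hAT] at hon
      exact hi (hon i hiT)
    · exact hA A (mem_erase.2 ⟨hAT, hAN⟩) hc hon
  linarith

/-- the bound is not negative -/
theorem nz2_fb_nonneg11 (t d q ℓ' m1 : ℕ) {W : ℝ} (hW : 0 ≤ W) : 0 ≤ fb11 t d q ℓ' m1 W := by
  unfold fb11
  positivity

/-- **Noise bound, second form** (type 2, `J = ∅`). Proof: by `cov_chn11` and a union bound over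
`G ∈ UG11` the density is at most `∑_G Pr[On G y, E y, Chn11 𝒢_G q (On · y) k [G]]` at
`y = sOn R x`, `E y` = `Off H y` and no shorter unfound member other than `T` is on at `y`
(decreasing), `𝒢_G = UG11.filter (G.card ≤ ·.card)`; by `pr_sOn_le11` at most `2^{|R|}` times the
same at `y = x`; by `prob11` with `P = [G]` at most `2^{|R|} Pr[On G, E] f_G^k`; `w_erase11`. -/
theorem noise2_11 {q k ℓ' : ℕ} (hq : k + 1 ≤ q) (hF : Cod t d F)
    (hanti : ∀ G ∈ Nf F H, ∀ A ∈ F, A ≠ G → ¬ A ⊆ G) {T R Bs : Finset (Fin n)} (hT : T ∈ F)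
    (hR : R ⊆ T) (hBT : Disjoint Bs T)
    (hbig : ∀ A ∈ Nf F H, 4 * q * t < A.card) (hℓ' : ∀ A ∈ F, A.card ≤ ℓ')
    (hgen : ∀ A ∈ F, A ≠ T → Disjoint A Bs → (A ∩ R).card ≤ t + 1)
    (hk : (t + 1) * (k * (1 + d * (4 * q) ^ (t + 1)) + 1) ≤ R.card) :
    pr (fun x => On o ∅ x ∧ Cov10 o F H T R x ∧ BOff o Bs x) ≤
      2 ^ R.card * ∑ G ∈ UG11 F H T R, 2 * w11 o F H G *
        fb11 t d q ℓ' G.card (wt10 ((Nf F H).filter fun A => G.card ≤ A.card)) ^ k := by
  have hq0 : 0 < q := by omega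
  have h1 := pr_le_sum (UG11 F H T R)
    (fun x => On o ∅ x ∧ Cov10 o F H T R x ∧ BOff o Bs x)
    (fun G x => On o (lU [G]) (sOn o R x) ∧
      (Off o H (sOn o R x) ∧ ∀ A ∈ (Nf F H).erase T, A.card < G.card → ¬ On o A (sOn o R x)) ∧
      Chn11 ((UG11 F H T R).filter fun A => G.card ≤ A.card) q
        (fun A => On o A (sOn o R x)) k [G]) (by
      rintro x ⟨-, hC, hB⟩
      obtain ⟨G, hG, hon, hsh, hch⟩ := cov_chn11 hq0 hF hR hBT hbig hgen hk hC hB
      refine ⟨G, hG, ?_, ⟨hC.1, hsh⟩, hch⟩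
      rw [lU_cons, lU_nil, union_empty]
      exact hon)
  refine h1.trans ?_
  rw [mul_sum]
  refine sum_le_sum fun G hG => ?_
  have hGU := (mem_UG11 (F := F) (H := H)).1 hG
  have hGN : G ∈ Nf F H := mem_Nf.2 hGU.2.1
  have h2 := pr_sOn_le11 (o := o) (fun y => On o (lU [G]) y ∧
      (Off o H y ∧ ∀ A ∈ (Nf F H).erase T, A.card < G.card → ¬ On o A y) ∧
      Chn11 ((UG11 F H T R).filter fun A => G.card ≤ A.card) q
        (fun A => On o A y) k [G]) R
  refine h2.trans (mul_le_mul_of_nonneg_left ?_ (by positivity))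
  have hsub : (UG11 F H T R).filter (fun A => G.card ≤ A.card) ⊆
      (Nf F H).filter fun A => G.card ≤ A.card := by
    intro A hA
    rw [mem_filter] at hA ⊢
    exact ⟨mem_Nf.2 ((mem_UG11 (F := F) (H := H)).1 hA.1).2.1, hA.2⟩
  have hsubF : (UG11 F H T R).filter (fun A => G.card ≤ A.card) ⊆ F := by
    intro A hA
    rw [mem_filter] at hA
    exact ((mem_UG11 (F := F) (H := H)).1 hA.1).2.1.1
  have h3 := prob11 (o := o) (t := t) (d := d) (q := q) (ℓ' := ℓ') (m1 := G.card)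
    (W := wt10 ((Nf F H).filter fun A => G.card ≤ A.card)) hq0
    (𝒢 := (UG11 F H T R).filter fun A => G.card ≤ A.card) (hF.mono hsubF)
    (fun A hA => hℓ' A (hsubF hA)) (fun A hA => (mem_filter.1 hA).2) (wt10_mono hsub)
    (nz2_dnP_short11 o H ((Nf F H).erase T) G.card) (G := G) k [G]
    (by simp only [List.length_cons, List.length_nil]; omega)
    (fun B hB => by
      rw [List.mem_singleton] at hB
      rw [hB]
      exact hℓ' G hGU.2.1.1)
    (by rw [lU_cons, lU_nil, union_empty])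
  have e0 : lU [G] \ G = ∅ := by rw [lU_cons, lU_nil, union_empty, sdiff_self]; rfl
  rw [e0, card_empty, pow_zero, one_mul] at h3
  refine h3.trans (mul_le_mul_of_nonneg_right ?_ (pow_nonneg (nz2_fb_nonneg11 _ _ _ _ _
    (wt10_nonneg _)) _))
  exact w_erase11 (hanti G hGN T hT (fun hc => hGU.1 hc.symm))

end Pool.Agent.H.MP_cba12a_lc
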