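import Pool.Agent.H.MP_cba12a_lc.X11.Cn

/-!
The weight of one more set of a cover.
-/

namespace Pool.Agent.H.MP_cba12a_lc

open Finset

variable {n : ℕ}

theorem card_inter_lU_le (A : Finset (Fin n)) (P : List (Finset (Fin n))) :
    (A ∩ lU P).card ≤ (P.map fun B => (A ∩ B).card).sum := by
  induction P with
  | nil => simp [lU]
  | cons B P ih =>
    rw [lU_cons, List.map_cons, List.sum_cons, inter_union_distrib_left]
    exact (card_union_le _ _).trans (Nat.add_le_add_left ih _)

/-- Let `P` be a list of sets of size at most `ℓ'`, and let every member of `𝒜` have at least `m1`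
elements, at most half of them in the union of `P`. Then `∑ 2^{-|A \ ∪P|}` is at most
`2^(|P| t) wt 𝒜 + |P| d ℓ'^(t+1) 2^{-m1/2}`. -/
theorem step11 {t d ℓ' m1 : ℕ} {𝒜 : Finset (Finset (Fin n))} (h𝒜 : Cod t d 𝒜)
    (P : List (Finset (Fin n))) (hP : ∀ B ∈ P, B.card ≤ ℓ') (hm1 : ∀ A ∈ 𝒜, m1 ≤ A.card)
    (hhalf : ∀ A ∈ 𝒜, 2 * (A ∩ lU P).card ≤ A.card) :
    ∑ A ∈ 𝒜, (1 / 2 : ℝ) ^ (A \ lU P).card ≤
      2 ^ (P.length * t) * wt10 𝒜 + P.length * d * (ℓ' : ℝ) ^ (t + 1) * (1 / 2) ^ (m1 / 2) := by
  classical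
  have hcut : ∀ A : Finset (Fin n), (A ∩ lU P).card + (A \ lU P).card = A.card :=
    fun A => card_inter_add_card_sdiff _ _
  rw [← sum_filter_add_sum_filter_not 𝒜 fun A => (A ∩ lU P).card ≤ P.length * t]
  refine add_le_add ?_ ?_
  · unfold wt10
    rw [mul_sum]
    refine (sum_le_sum (g := fun A => 2 ^ (P.length * t) * (1 / 2 : ℝ) ^ A.card) ?_).trans
      (sum_le_sum_of_subset_of_nonneg (filter_subset _ _) fun _ _ _ => by positivity)
    intro A hA
    rw [mem_filter] at hA
    rw [← hcut A, pow_add, ← mul_assoc]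
    have h2 : (1 : ℝ) ≤ 2 ^ (P.length * t) * (1 / 2) ^ (A ∩ lU P).card := by
      have h3 : (2 : ℝ) ^ (P.length * t) * (1 / 2) ^ (P.length * t) = 1 := by
        rw [← mul_pow]; norm_num
      have h4 : (1 / 2 : ℝ) ^ (P.length * t) ≤ (1 / 2) ^ (A ∩ lU P).card :=
        pow_le_pow_of_le_one (by norm_num) (by norm_num) hA.2
      calc (1 : ℝ) = 2 ^ (P.length * t) * (1 / 2) ^ (P.length * t) := h3.symm
        _ ≤ _ := mul_le_mul_of_nonneg_left h4 (by positivity)
    exact le_mul_of_one_le_left (by positivity) h2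
  · have hs : (𝒜.filter fun A => ¬ (A ∩ lU P).card ≤ P.length * t) ⊆
        P.toFinset.biUnion fun G => 𝒜.filter fun A => t + 1 ≤ (A ∩ G).card := by
      intro A hA
      rw [mem_filter, not_le] at hA
      by_contra hcon
      have h1 : ∀ x ∈ P.map fun B => (A ∩ B).card, x ≤ t := by
        intro x hx
        obtain ⟨G, hG, rfl⟩ := List.mem_map.1 hx
        by_contra h2
        exact hcon (mem_biUnion.2 ⟨G, List.mem_toFinset.2 hG,
          mem_filter.2 ⟨hA.1, by omega⟩⟩)
      have h3 := List.sum_le_card_nsmul _ t h1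
      rw [List.length_map, smul_eq_mul] at h3
      have h4 := card_inter_lU_le A P
      omega
    have hcard : (𝒜.filter fun A => ¬ (A ∩ lU P).card ≤ P.length * t).card ≤
        P.length * (d * ℓ' ^ (t + 1)) := by
      refine (card_le_card hs).trans ((card_biUnion_le).trans
        ((sum_le_card_nsmul _ _ (d * ℓ' ^ (t + 1)) ?_).trans ?_))
      · intro G hG
        exact (card_meet11 h𝒜 G).trans (Nat.mul_le_mul_left _
          (Nat.pow_le_pow_left (hP G (List.mem_toFinset.1 hG)) _))
      · rw [smul_eq_mul]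
        exact Nat.mul_le_mul_right _ (List.toFinset_card_le P)
    refine (sum_le_card_nsmul _ _ ((1 / 2 : ℝ) ^ (m1 / 2)) ?_).trans ?_
    · intro A hA
      have hA' := (mem_filter.1 hA).1
      have h1 := hcut A
      have h2 := hhalf A hA'
      have h3 := hm1 A hA'
      exact pow_le_pow_of_le_one (by norm_num) (by norm_num) (by omega)
    · rw [nsmul_eq_mul]
      refine mul_le_mul_of_nonneg_right ?_ (by positivity)
      have h1 : (((𝒜.filter fun A => ¬ (A ∩ lU P).card ≤ P.length * t).card : ℕ) : ℝ) ≤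
          ((P.length * (d * ℓ' ^ (t + 1)) : ℕ) : ℝ) := by exact_mod_cast hcard
      refine h1.trans (le_of_eq ?_)
      push_cast
      ring

/-- If `|P| ≤ q` and `A` is good for `P` then at most half of `A` is in the union of `P`. -/
theorem half_of_gd11 {q : ℕ} (hq : 0 < q) {P : List (Finset (Fin n))} (hP : P.length ≤ q)
    {A : Finset (Fin n)} (h : Gd11 q P A) : 2 * (A ∩ lU P).card ≤ A.card := by
  have h1 := card_inter_lU_le A P
  have h2 : 2 * q * (P.map fun B => (A ∩ B).card).sum ≤ P.length * A.card := by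
    have h3 : ∀ L : List (Finset (Fin n)), (∀ B ∈ L, 2 * q * (A ∩ B).card ≤ A.card) →
        2 * q * (L.map fun B => (A ∩ B).card).sum ≤ L.length * A.card := by
      intro L
      induction L with
      | nil => intro _; simp
      | cons B L ih =>
        intro hL
        rw [List.map_cons, List.sum_cons, List.length_cons, Nat.mul_add]
        have h4 := hL B List.mem_cons_self
        have h5 := ih fun D hD => hL D (List.mem_cons_of_mem _ hD)
        have h6 : (L.length + 1) * A.card = A.card + L.length * A.card := by ring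
        omega
    exact h3 P h
  have h4 := Nat.mul_le_mul_right A.card hP
  have h5 := Nat.mul_le_mul_left (2 * q) h1
  have h6 : q * (2 * (A ∩ lU P).card) ≤ q * A.card := by
    calc q * (2 * (A ∩ lU P).card) = 2 * q * (A ∩ lU P).card := by ring
      _ ≤ q * A.card := by omega
  exact Nat.le_of_mul_le_mul_left h6 hq

end Pool.Agent.H.MP_cba12a_lc
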