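import Pool.Agent.H.MP_cba12a_lc.X11.Sig1
import Pool.Agent.H.MP_cba12a_lc.X11.Step
import Pool.Agent.H.MP_cba12a_lc.X10.Sig2

/-!
Signal, second form.
-/

namespace Pool.Agent.H.MP_cba12a_lc

open Finset

variable {n : ℕ} {o : Fin n → Bool} {F H : Finset (Finset (Fin n))} {t d : ℕ}

/-- **Signal, second form.** `Pr[Only T, Bs off] ≥ 2^{-|Bs|-1} w(T)` if the weights of the unfound
terms `A ≠ T`, at least as long as `T`, not meeting `Bs`, are small relative to `T`.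
Proof: let `𝒜` be the set of all `A ∈ Nf F H`, `A ≠ T`, `|T| ≤ |A|`, `Disjoint A Bs`; they satisfy
`2 |A ∩ T| ≤ |A|` by `hhalf`, so `∑_{A ∈ 𝒜} 2^{-|A \ T|} ≤ 1 / 2` by `step11` with `P = [T]`,
`m1 = |T|` and `hnum`. Let `E x` = `Off H x` and no unfound term shorter than `T` is on: a
decreasing event, `w(T) = Pr[On T, E]`. Given `T` on, the events `E`, `BOff Bs` and no member of
`𝒜` on are decreasing, so by Harris' inequality for `Pr[P (sOn T x)]` (see the proof of `sig2_10`)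
`Pr[On T, E, Bs off, no member of 𝒜 on] ≥ Pr[On T, E, Bs off] * (1 - ∑ 2^{-|A \ T|})`, and
`boff_ge11`. This event implies `Only10` (a member of `F` which is on contains no member of `H`, so
it is in `Nf F H`; it is not shorter than `T`; it does not meet `Bs`). -/
theorem sig2_11 {ℓ' : ℕ} (hF : Cod t d F) {T Bs : Finset (Fin n)} (hT : T ∈ Nf F H)
    (hTℓ : T.card ≤ ℓ') (hBT : Disjoint Bs T)
    (hhalf : ∀ A ∈ F, A ≠ T → Disjoint A Bs → 2 * (A ∩ T).card ≤ T.card)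
    (hnum : 2 ^ t * wt10 ((Nf F H).filter fun A => T.card ≤ A.card) +
      d * (ℓ' : ℝ) ^ (t + 1) * (1 / 2) ^ (T.card / 2) ≤ 1 / 2) :
    (1 / 2) ^ (Bs.card + 1) * w11 o F H T ≤ pr (fun x => Only10 o F H T x ∧ BOff o Bs x) := by
  classical
  set 𝒜 : Finset (Finset (Fin n)) :=
    (Nf F H).filter fun A => A ≠ T ∧ T.card ≤ A.card ∧ Disjoint A Bs with h𝒜
  set E : (Fin n → Bool) → Prop :=
    fun x => Off o H x ∧ ∀ A ∈ Nf F H, A.card < T.card → ¬ On o A x with hE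
  set Nn : (Fin n → Bool) → Prop := fun x => ∀ A ∈ 𝒜, ¬ On o A x with hNn
  have hNnd : DnP o Nn := fun i x h A hA => dnP_not_on o A i x (h A hA)
  have hEd : DnP o E := by
    refine DnP.and (dnP_off o H) ?_
    exact fun i x h A hA hlt => dnP_not_on o A i x (h A hA hlt)
  have hmem : ∀ A ∈ 𝒜, A ∈ F ∧ A ≠ T ∧ T.card ≤ A.card ∧ Disjoint A Bs := by
    intro A hA
    rw [h𝒜, mem_filter, mem_Nf] at hA
    exact ⟨hA.1.1, hA.2⟩
  -- the weight of the long terms
  have hsum : ∑ A ∈ 𝒜, (1 / 2 : ℝ) ^ (A \ T).card ≤ 1 / 2 := by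
    have hlU : lU [T] = T := by rw [lU_cons, lU_nil, union_empty]
    have h1 := step11 (t := t) (d := d) (ℓ' := ℓ') (m1 := T.card) (𝒜 := 𝒜)
      (hF.mono fun A hA => (hmem A hA).1) [T]
      (by intro B hB; rw [List.mem_singleton] at hB; rw [hB]; exact hTℓ)
      (fun A hA => (hmem A hA).2.2.1)
      (by
        intro A hA
        rw [hlU]
        obtain ⟨h1, h2, h3, h4⟩ := hmem A hA
        exact (hhalf A h1 h2 h4).trans h3)
    rw [hlU, List.length_singleton, one_mul, Nat.cast_one, one_mul] at h1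
    refine h1.trans (le_trans ?_ hnum)
    refine add_le_add ?_ le_rfl
    refine mul_le_mul_of_nonneg_left (wt10_mono ?_) (by positivity)
    intro A hA
    rw [h𝒜, mem_filter] at hA
    exact mem_filter.2 ⟨hA.1, hA.2.2.1⟩
  have e5 : (1 : ℝ) ≤ pr (fun x => Nn (sOn o T x)) +
      pr (fun x => ∃ A ∈ 𝒜, On o (A \ T) x) := by
    rw [← pr_true_sig10 (n := n)]
    refine pr_le_add fun x _ => ?_
    by_cases h : ∃ A ∈ 𝒜, On o (A \ T) x
    · exact Or.inr h
    · left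
      intro A hA hc
      exact h ⟨A, hA, (on_sOn_iff o A T x).1 hc⟩
  have e6 : pr (fun x => ∃ A ∈ 𝒜, On o (A \ T) x) ≤ 1 / 2 := by
    refine le_trans (pr_le_sum 𝒜 _ (fun A x => On o (A \ T) x) (fun x hx => hx)) ?_
    refine le_trans (le_of_eq ?_) hsum
    exact sum_congr rfl fun A _ => pr_On_sig10 o (A \ T)
  have hN : (1 / 2 : ℝ) ≤ pr (fun x => Nn (sOn o T x)) := by linarith
  have e4 : pr (fun x => E (sOn o T x)) * pr (fun x => Nn (sOn o T x)) ≤
      pr (fun x => E (sOn o T x) ∧ Nn (sOn o T x)) := harris (hEd.sOn T) (hNnd.sOn T)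
  have e1 : pr (fun x => On o T x ∧ E x) = (1 / 2) ^ T.card * pr (fun x => E (sOn o T x)) :=
    pr_on o T E
  have e2 : pr (fun x => On o T x ∧ (E x ∧ Nn x)) =
      (1 / 2) ^ T.card * pr (fun x => E (sOn o T x) ∧ Nn (sOn o T x)) :=
    pr_on o T (fun x => E x ∧ Nn x)
  have e7 : 1 / 2 * pr (fun x => On o T x ∧ E x) ≤ pr (fun x => On o T x ∧ (E x ∧ Nn x)) := by
    rw [e1, e2]
    have h1 : 1 / 2 * pr (fun x => E (sOn o T x)) ≤
        pr (fun x => E (sOn o T x) ∧ Nn (sOn o T x)) := by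
      refine le_trans ?_ e4
      rw [mul_comm]
      exact mul_le_mul_of_nonneg_left hN (pr_nonneg _)
    have h2 : (0 : ℝ) ≤ (1 / 2) ^ T.card := by positivity
    have h3 := mul_le_mul_of_nonneg_left h1 h2
    linarith
  have e8 := boff_ge11 (E := fun x => E x ∧ Nn x) (hEd.and hNnd) (T := T) (Bs := Bs) hBT
  have e9 : pr (fun x => (On o T x ∧ (E x ∧ Nn x)) ∧ BOff o Bs x) ≤
      pr (fun x => Only10 o F H T x ∧ BOff o Bs x) := by
    refine pr_mono ?_
    rintro x ⟨⟨h1, ⟨h2, h3⟩, h4⟩, h5⟩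
    refine ⟨⟨h1, ?_, h2⟩, h5⟩
    intro A hA hAT hAx
    by_cases hNf : A ∈ Nf F H
    · by_cases hlt : A.card < T.card
      · exact h3 A hNf hlt hAx
      · by_cases hd : Disjoint A Bs
        · exact h4 A (mem_filter.2 ⟨hNf, hAT, not_lt.1 hlt, hd⟩) hAx
        · rw [not_disjoint_iff] at hd
          obtain ⟨b, hbA, hbB⟩ := hd
          exact h5 b hbB (hAx b hbA)
    · rw [mem_Nf] at hNf
      push Not at hNf
      obtain ⟨C, hC, hCA⟩ := hNf hA
      exact h2 C hC fun i hi => hAx i (hCA hi)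
  have e10 : w11 o F H T = pr (fun x => On o T x ∧ E x) := rfl
  have h3 : (1 / 2 : ℝ) ^ Bs.card * 2 ^ Bs.card = 1 := by
    rw [← mul_pow]; norm_num
  have h4 : (0 : ℝ) ≤ (1 / 2) ^ Bs.card := by positivity
  have h5 := mul_le_mul_of_nonneg_left (e7.trans e8) h4
  rw [← mul_assoc ((1 / 2 : ℝ) ^ Bs.card) (2 ^ Bs.card), h3, one_mul] at h5
  rw [e10, pow_succ, mul_assoc]
  exact h5.trans e9

end Pool.Agent.H.MP_cba12a_lc
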