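import Pool.Agent.H.MP_cba12a_lc.X11.Siz
import Pool.Agent.H.MP_cba12a_lc.X11.Cn
import Pool.Agent.H.MP_cba12a_lc.X11.Noise2
import Pool.Agent.H.MP_cba12a_lc.X11.Sig2
import Pool.Agent.H.MP_cba12a_lc.X10.St3

/-!
Detection, type 2.
-/

namespace Pool.Agent.H.MP_cba12a_lc

open Finset

variable {n : ℕ} {o : Fin n → Bool} {F H : Finset (Finset (Fin n))}
  {t d ℓ ℓ' m0 NH : ℕ} {τ η κ ν M Q1 σ : ℝ} {P : ℕ → ℕ}

/-- the one-step bound is monotone in the weight and decreasing in the least size -/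
theorem fb11_mono {q m1 m2 : ℕ} {W W' : ℝ} (hW : W ≤ W') (hm : m2 ≤ m1) :
    fb11 t d q ℓ' m1 W ≤ fb11 t d q ℓ' m2 W' := by
  unfold fb11
  have h1 : (1 / 2 : ℝ) ^ (m1 / 2) ≤ (1 / 2) ^ (m2 / 2) :=
    pow_le_pow_of_le_one (by norm_num) (by norm_num) (by omega)
  exact add_le_add (mul_le_mul_of_nonneg_left hW (by positivity))
    (mul_le_mul_of_nonneg_left h1 (by positivity))

theorem fb11_nonneg {q m1 : ℕ} {W : ℝ} (hW : 0 ≤ W) : 0 ≤ fb11 t d q ℓ' m1 W := by
  unfold fb11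
  positivity

/-- `w11` is at most the probability that the term is on -/
theorem w11_le_typ2_11 (o : Fin n → Bool) (F H : Finset (Finset (Fin n))) (G : Finset (Fin n)) :
    w11 o F H G ≤ (1 / 2) ^ G.card :=
  (pr_mono fun _ hx => hx.1).trans (pr_on_le10 o G)

theorem w11_nonneg_typ2_11 (o : Fin n → Bool) (F H : Finset (Finset (Fin n)))
    (G : Finset (Fin n)) : 0 ≤ w11 o F H G := pr_nonneg _

/-- **The noise of type 2.** If `w11` is maximal at `T` among the unfound terms with at most `ℓ`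
elements, and at least `κ`, the sum of `noise2_11` is at most `(1/2)^(B11+1) w(T) / 16`.
Proof: the weights `wt10 ((Nf F H).filter (G.card ≤ ·.card))` are at most `W11 ℓ Q1 ν |G|` if
`|G| ≤ ℓ` (`wt_ge10`), at most `W11 ℓ Q1 ν ℓ` if `ℓ < |G|`. The `G` with `|G| = m`, `m0 ≤ m ≤ ℓ`, are
at most `Q1 2^(m/4)`, `w(G) ≤ w(T)`; by `hN.type2` they contribute at most
`(1/2)^(B11+1) w(T) / (32 (ℓ+1))`, and there are at most `ℓ + 1` values of `m`. The `G` longer than
`ℓ` have `w(G) ≤ (1/2)^|G|` (`pr_on_le10`), total at most `ν` (`hν`), so they contribute at most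
`(1/2)^(B11+1) κ / 32` by `hN.type2L`. -/
theorem noise_sum11 (hN : Num11 t d n ℓ ℓ' m0 τ η κ ν M Q1 σ P NH)
    (hν : wt10 (F.filter fun A => ℓ < A.card) ≤ ν)
    (hsp : ∀ m, m0 ≤ m → m ≤ ℓ →
      (((Nf F H).filter fun T => T.card = m).card : ℝ) ≤ Q1 * 2 ^ (m / 4))
    (hm0 : ∀ T ∈ Nf F H, m0 ≤ T.card) {T R : Finset (Fin n)}
    (hκ : κ ≤ w11 o F H T)
    (hmax : ∀ G ∈ Nf F H, G.card ≤ ℓ → w11 o F H G ≤ w11 o F H T) :
    16 * (2 ^ K11 t d * ∑ G ∈ UG11 F H T R, 2 * w11 o F H G *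
        fb11 t d (q11 t) ℓ' G.card (wt10 ((Nf F H).filter fun A => G.card ≤ A.card)) ^
          (q11 t - 1)) ≤ (1 / 2) ^ (B11 t d + 1) * w11 o F H T := by
  have hwt : ∀ s, wt10 ((Nf F H).filter fun A => s ≤ A.card) ≤ W11 ℓ Q1 ν s :=
    fun s => wt_ge10 hν hN.Q1_nonneg hsp hm0 s
  obtain ⟨w, hw⟩ : ∃ w, w = w11 o F H T := ⟨_, rfl⟩
  have hw0 : 0 ≤ w := by rw [hw]; exact w11_nonneg_typ2_11 _ _ _ _
  obtain ⟨K, hK⟩ : ∃ K : ℝ, K = 2 ^ K11 t d := ⟨_, rfl⟩
  have hK0 : 0 < K := by rw [hK]; positivity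
  obtain ⟨β, hβ⟩ : ∃ β : ℝ, β = (1 / 2) ^ (B11 t d + 1) := ⟨_, rfl⟩
  have hβ0 : 0 < β := by rw [hβ]; positivity
  rw [← hw, ← hK, ← hβ]
  rw [← hw] at hκ hmax
  obtain ⟨u, hu⟩ : ∃ u : Finset (Fin n) → ℝ, u = fun G => 2 * w11 o F H G *
        fb11 t d (q11 t) ℓ' G.card (wt10 ((Nf F H).filter fun A => G.card ≤ A.card)) ^
          (q11 t - 1) := ⟨_, rfl⟩
  have hu' : ∀ G, 2 * w11 o F H G *
        fb11 t d (q11 t) ℓ' G.card (wt10 ((Nf F H).filter fun A => G.card ≤ A.card)) ^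
          (q11 t - 1) = u G := fun G => by rw [hu]
  simp only [hu']
  have hu0 : ∀ G, 0 ≤ u G := fun G => by
    rw [hu]
    exact mul_nonneg (mul_nonneg (by norm_num) (w11_nonneg_typ2_11 _ _ _ _))
      (pow_nonneg (fb11_nonneg (wt10_nonneg _)) _)
  -- the two parts
  have hsub : UG11 F H T R ⊆ ((Nf F H).filter fun G => G.card ≤ ℓ) ∪
      ((Nf F H).filter fun G => ℓ < G.card) := by
    intro G hG
    have h1 : G ∈ Nf F H := mem_Nf.2 ((mem_UG11 (F := F) (H := H)).1 hG).2.1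
    rw [mem_union, mem_filter, mem_filter]
    rcases le_or_gt G.card ℓ with h | h
    · exact Or.inl ⟨h1, h⟩
    · exact Or.inr ⟨h1, h⟩
  have hsplit : ∑ G ∈ UG11 F H T R, u G ≤ (∑ G ∈ (Nf F H).filter (fun G => G.card ≤ ℓ), u G) +
      ∑ G ∈ (Nf F H).filter (fun G => ℓ < G.card), u G := by
    refine (sum_le_sum_of_subset_of_nonneg hsub fun G _ _ => hu0 G).trans ?_
    rw [← sum_union_inter]
    exact le_add_of_nonneg_right (sum_nonneg fun G _ => hu0 G)
  -- the first part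
  have hA : 16 * (K * ∑ G ∈ (Nf F H).filter (fun G => G.card ≤ ℓ), u G) ≤ β * w / 2 := by
    rw [← sum_fiberwise_of_maps_to (t := range (ℓ + 1)) (g := fun A => A.card)
      (fun A hA => by
        rw [mem_filter] at hA
        rw [mem_range]
        omega)]
    have hb : ∀ m ∈ range (ℓ + 1), 32 * (K * (((ℓ : ℝ) + 1) *
        ∑ G ∈ ((Nf F H).filter fun G => G.card ≤ ℓ).filter (fun G => G.card = m), u G)) ≤
          β * w := by
      intro m hm
      rw [mem_range] at hm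
      by_cases hmm : m0 ≤ m
      · obtain ⟨g, hg⟩ : ∃ g : ℝ, g = fb11 t d (q11 t) ℓ' m (W11 ℓ Q1 ν m) ^ (q11 t - 1) :=
          ⟨_, rfl⟩
        have hg0 : 0 ≤ g := by
          rw [hg]
          refine pow_nonneg (fb11_nonneg ?_) _
          exact (wt10_nonneg _).trans (hwt m)
        have h1 : ∑ G ∈ ((Nf F H).filter fun G => G.card ≤ ℓ).filter (fun G => G.card = m), u G ≤
            ∑ G ∈ (Nf F H).filter (fun G => G.card = m), 2 * w * g := by
          have h2 : ((Nf F H).filter fun G => G.card ≤ ℓ).filter (fun G => G.card = m) =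
              (Nf F H).filter (fun G => G.card = m) := by
            ext G
            rw [mem_filter, mem_filter, mem_filter]
            constructor
            · exact fun h => ⟨h.1.1, h.2⟩
            · exact fun h => ⟨⟨h.1, by omega⟩, h.2⟩
          rw [h2]
          refine sum_le_sum fun G hG => ?_
          rw [mem_filter] at hG
          rw [hu, hg]
          refine mul_le_mul ?_ ?_ (pow_nonneg (fb11_nonneg (wt10_nonneg _)) _) (by positivity)
          · exact mul_le_mul_of_nonneg_left (hmax G hG.1 (by omega)) (by norm_num)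
          · refine pow_le_pow_left₀ (fb11_nonneg (wt10_nonneg _)) ?_ _
            refine fb11_mono ?_ (by rw [hG.2])
            rw [hG.2]
            exact hwt m
        rw [sum_const, nsmul_eq_mul] at h1
        have h3 : (((Nf F H).filter fun G => G.card = m).card : ℝ) * (2 * w * g) ≤
            Q1 * 2 ^ (m / 4) * (2 * w * g) :=
          mul_le_mul_of_nonneg_right (hsp m hmm (by omega)) (by positivity)
        have h4 := hN.type2 m hmm (by omega)
        rw [← hK, ← hβ, ← hg] at h4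
        calc 32 * (K * (((ℓ : ℝ) + 1) * ∑ G ∈ ((Nf F H).filter fun G => G.card ≤ ℓ).filter
                (fun G => G.card = m), u G))
            ≤ 32 * (K * (((ℓ : ℝ) + 1) * (Q1 * 2 ^ (m / 4) * (2 * w * g)))) := by
              refine mul_le_mul_of_nonneg_left ?_ (by norm_num)
              refine mul_le_mul_of_nonneg_left ?_ hK0.le
              exact mul_le_mul_of_nonneg_left (h1.trans h3) (by positivity)
          _ = 64 * (K * (((ℓ : ℝ) + 1) * (Q1 * 2 ^ (m / 4) * g))) * w := by ring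
          _ ≤ β * w := mul_le_mul_of_nonneg_right h4 hw0
      · have h1 : ((Nf F H).filter fun G => G.card ≤ ℓ).filter (fun G => G.card = m) = ∅ := by
          rw [Finset.eq_empty_iff_forall_notMem]
          intro G hG
          rw [mem_filter, mem_filter] at hG
          have := hm0 G hG.1.1
          omega
        rw [h1, sum_empty, mul_zero, mul_zero, mul_zero]
        positivity
    have hb' := sum_le_sum hb
    rw [sum_const, card_range, nsmul_eq_mul] at hb'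
    rw [← mul_sum, ← mul_sum, ← mul_sum] at hb'
    obtain ⟨Sg, hSg⟩ : ∃ Sg : ℝ, Sg = ∑ m ∈ range (ℓ + 1),
      ∑ G ∈ ((Nf F H).filter fun G => G.card ≤ ℓ).filter (fun G => G.card = m), u G := ⟨_, rfl⟩
    rw [← hSg] at hb' ⊢
    push_cast at hb'
    have hl : (0 : ℝ) < (ℓ : ℝ) + 1 := by positivity
    have h5 : ((ℓ : ℝ) + 1) * (32 * (K * Sg)) ≤ ((ℓ : ℝ) + 1) * (β * w) := by
      calc ((ℓ : ℝ) + 1) * (32 * (K * Sg)) = 32 * (K * (((ℓ : ℝ) + 1) * Sg)) := by ring
        _ ≤ _ := hb'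
    have h6 := le_of_mul_le_mul_left h5 hl
    linarith
  -- the second part
  have hB : 16 * (K * ∑ G ∈ (Nf F H).filter (fun G => ℓ < G.card), u G) ≤ β * w / 2 := by
    obtain ⟨g, hg⟩ : ∃ g : ℝ, g = fb11 t d (q11 t) ℓ' ℓ (W11 ℓ Q1 ν ℓ) ^ (q11 t - 1) :=
      ⟨_, rfl⟩
    have hg0 : 0 ≤ g := by
      rw [hg]
      refine pow_nonneg (fb11_nonneg ?_) _
      exact (wt10_nonneg _).trans (hwt ℓ)
    have h1 : ∑ G ∈ (Nf F H).filter (fun G => ℓ < G.card), u G ≤
        ∑ G ∈ (Nf F H).filter (fun G => ℓ < G.card), (1 / 2) ^ G.card * (2 * g) := by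
      refine sum_le_sum fun G hG => ?_
      rw [mem_filter] at hG
      have h2 : u G ≤ 2 * (1 / 2) ^ G.card * g := by
        rw [hu, hg]
        refine mul_le_mul ?_ ?_ (pow_nonneg (fb11_nonneg (wt10_nonneg _)) _) (by positivity)
        · exact mul_le_mul_of_nonneg_left (w11_le_typ2_11 o F H G) (by norm_num)
        · refine pow_le_pow_left₀ (fb11_nonneg (wt10_nonneg _)) ?_ _
          refine fb11_mono ?_ hG.2.le
          refine (wt10_mono ?_).trans (hwt ℓ)
          intro A hA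
          rw [mem_filter] at hA ⊢
          exact ⟨hA.1, by omega⟩
      calc u G ≤ 2 * (1 / 2) ^ G.card * g := h2
        _ = (1 / 2) ^ G.card * (2 * g) := by ring
    rw [← sum_mul] at h1
    have h3 : ∑ G ∈ (Nf F H).filter (fun G => ℓ < G.card), (1 / 2 : ℝ) ^ G.card ≤ ν := by
      refine le_trans ?_ hν
      refine wt10_mono ?_
      intro A hA
      rw [mem_filter] at hA ⊢
      exact ⟨(mem_Nf.1 hA.1).1, hA.2⟩
    have h4 := hN.type2L
    rw [← hK, ← hβ, ← hg] at h4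
    have h5 : ∑ G ∈ (Nf F H).filter (fun G => ℓ < G.card), u G ≤ ν * (2 * g) :=
      h1.trans (mul_le_mul_of_nonneg_right h3 (by positivity))
    have h6 : 16 * (K * ∑ G ∈ (Nf F H).filter (fun G => ℓ < G.card), u G) ≤
        16 * (K * (ν * (2 * g))) := by
      refine mul_le_mul_of_nonneg_left ?_ (by norm_num)
      exact mul_le_mul_of_nonneg_left h5 hK0.le
    have h7 : β * κ ≤ β * w := mul_le_mul_of_nonneg_left hκ hβ0.le
    have h8 : 64 * (K * (ν * g)) = 2 * (16 * (K * (ν * (2 * g)))) := by ring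
    linarith
  have h9 : 16 * (K * ∑ G ∈ UG11 F H T R, u G) ≤
      16 * (K * ((∑ G ∈ (Nf F H).filter (fun G => G.card ≤ ℓ), u G) +
      ∑ G ∈ (Nf F H).filter (fun G => ℓ < G.card), u G)) := by
    refine mul_le_mul_of_nonneg_left ?_ (by norm_num)
    exact mul_le_mul_of_nonneg_left hsplit hK0.le
  rw [mul_add, mul_add] at h9
  linarith

/-- **Type 2.** Signal: `sig2_11` with `wt_ge10` and `hN.sig2`; `hN.σ2`. Noise: `noise2_11` with
`k = q11 t - 1`, and `noise_sum11`. -/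
theorem type2_11 (hN : Num11 t d n ℓ ℓ' m0 τ η κ ν M Q1 σ P NH) (hF : Cod t d F)
    (hanti : ∀ G ∈ Nf F H, ∀ A ∈ F, A ≠ G → ¬ A ⊆ G) (hℓ' : ∀ A ∈ F, A.card ≤ ℓ')
    (hν : wt10 (F.filter fun A => ℓ < A.card) ≤ ν)
    (hsp : ∀ m, m0 ≤ m → m ≤ ℓ →
      (((Nf F H).filter fun T => T.card = m).card : ℝ) ≤ Q1 * 2 ^ (m / 4))
    (hm0 : ∀ T ∈ Nf F H, m0 ≤ T.card) {T R Bs : Finset (Fin n)} (hT : T ∈ Nf F H)
    (hTℓ : T.card ≤ ℓ) (hR : R ⊆ T) (hRK : R.card = K11 t d) (hBc : Bs.card ≤ B11 t d)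
    (hBT : Disjoint Bs T)
    (hgen : ∀ A ∈ F, A ≠ T → Disjoint A Bs → (A ∩ R).card ≤ t + 1)
    (hhalf : ∀ A ∈ F, A ≠ T → Disjoint A Bs → 2 * (A ∩ T).card ≤ T.card)
    (hκ : κ ≤ w11 o F H T)
    (hmax : ∀ G ∈ Nf F H, G.card ≤ ℓ → w11 o F H G ≤ w11 o F H T) :
    Det11 o F H T ∅ R Bs σ := by
  have hTF : T ∈ F := (mem_Nf.1 hT).1
  have hq : 1 ≤ q11 t := by
    unfold q11
    omega
  have hw0 := w11_nonneg_typ2_11 o F H T
  -- the signal
  have hnum : 2 ^ t * wt10 ((Nf F H).filter fun A => T.card ≤ A.card) +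
      d * (ℓ' : ℝ) ^ (t + 1) * (1 / 2) ^ (T.card / 2) ≤ 1 / 2 := by
    refine le_trans ?_ (hN.sig2 T.card (hm0 T hT) hTℓ)
    have h1 : wt10 ((Nf F H).filter fun A => T.card ≤ A.card) ≤ W11 ℓ Q1 ν T.card :=
      wt_ge10 hν hN.Q1_nonneg hsp hm0 T.card
    have h2 := mul_le_mul_of_nonneg_left h1 (show (0 : ℝ) ≤ 2 ^ t by positivity)
    linarith
  have hsig := sig2_11 (o := o) hF hT (hℓ' T hTF) hBT hhalf hnum
  have hsig' : (1 / 2) ^ (B11 t d + 1) * w11 o F H T ≤
      pr (fun x => Only10 o F H T x ∧ BOff o Bs x) := by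
    refine le_trans (mul_le_mul_of_nonneg_right ?_ hw0) hsig
    exact pow_le_pow_of_le_one (by norm_num) (by norm_num) (by omega)
  -- the noise
  have hbig : ∀ A ∈ Nf F H, 4 * q11 t * t < A.card := by
    intro A hA
    have h1 := hN.m0_big
    have h2 := hm0 A hA
    unfold m11 at h1
    omega
  have hk : (t + 1) * ((q11 t - 1) * (1 + d * (4 * q11 t) ^ (t + 1)) + 1) ≤ R.card := by
    rw [hRK]
    exact le_rfl
  have hnoise := noise2_11 (o := o) (q := q11 t) (k := q11 t - 1) (ℓ' := ℓ') (by omega) hF hanti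
    hTF hR hBT hbig hℓ' hgen hk
  have hsum := noise_sum11 (R := R) hN hν hsp hm0 hκ hmax
  refine ⟨?_, ?_⟩
  · refine le_trans ?_ hsig'
    refine le_trans ?_ hsum
    rw [hRK] at hnoise
    exact mul_le_mul_of_nonneg_left hnoise (by norm_num)
  · refine hN.σ2.trans (le_trans ?_ hsig')
    exact mul_le_mul_of_nonneg_left hκ (by positivity)

end Pool.Agent.H.MP_cba12a_lc
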