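import Pool.Agent.H.MP_cba12a_lc.X11.St
import Pool.Agent.H.MP_cba12a_lc.X11.Typ2

/-!
If nothing more is detected, almost everything is covered.
-/

namespace Pool.Agent.H.MP_cba12a_lc

open Finset

variable {n : ℕ} {o : Fin n → Bool} {g : (Fin n → Bool) → Bool} {F H : Finset (Finset (Fin n))}
  {t d ℓ ℓ' m0 NH : ℕ} {τ η κ ν M Q1 σ : ℝ} {P : ℕ → ℕ}

theorem pr_on_le_end11 (A : Finset (Fin n)) : pr (fun x => On o A x) ≤ (1 / 2) ^ A.card := by
  have h1 : pr (fun x => On o A x) = pr (fun x => On o A x ∧ True) :=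
    pr_congr fun x => ⟨fun h => ⟨h, trivial⟩, fun h => h.1⟩
  rw [h1, pr_on o A (fun _ => True)]
  have h2 := pr_le_one (n := n) (fun _ => True)
  have h3 : (0 : ℝ) ≤ (1 / 2) ^ A.card := by positivity
  calc (1 / 2 : ℝ) ^ A.card * pr (fun _ : Fin n → Bool => True)
      ≤ (1 / 2 : ℝ) ^ A.card * 1 := mul_le_mul_of_nonneg_left h2 h3
    _ = (1 / 2 : ℝ) ^ A.card := mul_one _

/-- If all unfound terms with at most `ℓ` elements have `w11` at most `κ`, the part of `g = 1` not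
covered by `H` is small. Proof: at a point of the event some member of `F` is on; it contains no
member of `H`, so it is unfound; let `T` be a shortest unfound member which is on (`exists_min_image`).
Union bound (`pr_le_sum`, `pr_le_add`) over the `T` with at most `ℓ` elements (at most
`d n^(t+1)` of them, `card_long11`, as `t < m0 ≤ |T|`) and over the longer ones (`hν`,
`pr_on_le10`). -/
theorem end11 (hκ : 0 ≤ κ) (hgF : ∀ x, g x = true ↔ ∃ A ∈ F, On o A x) (hF : Cod t d F)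
    (hν : wt10 (F.filter fun A => ℓ < A.card) ≤ ν) (hlong : ∀ T ∈ Nf F H, t + 1 ≤ T.card)
    (hw : ∀ T ∈ Nf F H, T.card ≤ ℓ → w11 o F H T ≤ κ) :
    pr (fun x => g x = true ∧ Off o H x) ≤ d * ((n : ℝ) + 1) ^ (t + 1) * κ + ν := by
  classical
  have hcov : pr (fun x => g x = true ∧ Off o H x) ≤
      pr (fun x => ∃ T ∈ (Nf F H).filter (fun T => T.card ≤ ℓ),
        On o T x ∧ Off o H x ∧ ∀ A ∈ Nf F H, A.card < T.card → ¬ On o A x) +
      pr (fun x => ∃ A ∈ F.filter (fun A => ℓ < A.card), On o A x) := by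
    refine pr_le_add ?_
    rintro x ⟨hg, hoff⟩
    obtain ⟨A, hAF, hAx⟩ := (hgF x).1 hg
    have hA : A ∈ (Nf F H).filter fun A => On o A x :=
      mem_filter.2 ⟨mem_Nf.2 ⟨hAF, fun C hC hCA => hoff C hC (On.mono hCA hAx)⟩, hAx⟩
    obtain ⟨T, hT, hmin⟩ := exists_min_image ((Nf F H).filter fun A => On o A x) card ⟨A, hA⟩
    rw [mem_filter] at hT
    by_cases hTℓ : T.card ≤ ℓ
    · left
      refine ⟨T, mem_filter.2 ⟨hT.1, hTℓ⟩, hT.2, hoff, fun B hB hBT hBx => ?_⟩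
      exact absurd (hmin B (mem_filter.2 ⟨hB, hBx⟩)) (not_le.2 hBT)
    · right
      exact ⟨T, mem_filter.2 ⟨(mem_Nf.1 hT.1).1, not_le.1 hTℓ⟩, hT.2⟩
  have h1 : pr (fun x => ∃ T ∈ (Nf F H).filter (fun T => T.card ≤ ℓ),
      On o T x ∧ Off o H x ∧ ∀ A ∈ Nf F H, A.card < T.card → ¬ On o A x) ≤
      d * ((n : ℝ) + 1) ^ (t + 1) * κ := by
    refine le_trans (pr_le_sum ((Nf F H).filter (fun T => T.card ≤ ℓ)) _
      (fun T x => On o T x ∧ Off o H x ∧ ∀ A ∈ Nf F H, A.card < T.card → ¬ On o A x)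
      (fun x hx => hx)) ?_
    have h2 : ∀ T ∈ (Nf F H).filter (fun T => T.card ≤ ℓ),
        pr (fun x => On o T x ∧ Off o H x ∧ ∀ A ∈ Nf F H, A.card < T.card → ¬ On o A x) ≤
          κ := by
      intro T hT
      rw [mem_filter] at hT
      exact hw T hT.1 hT.2
    refine le_trans (sum_le_card_nsmul _ _ _ h2) ?_
    rw [nsmul_eq_mul]
    refine mul_le_mul_of_nonneg_right ?_ hκ
    have hNfF : Nf F H ⊆ F := fun T hT => (mem_Nf.1 hT).1
    have h4 : ((Nf F H).filter (fun T => T.card ≤ ℓ)).card ≤ d * n ^ (t + 1) := by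
      refine le_trans (card_le_card fun T hT => ?_) (card_long11 (hF.mono hNfF))
      rw [mem_filter] at hT ⊢
      exact ⟨hT.1, hlong T hT.1⟩
    calc (((Nf F H).filter (fun T => T.card ≤ ℓ)).card : ℝ)
        ≤ ((d * n ^ (t + 1) : ℕ) : ℝ) := by exact_mod_cast h4
      _ = d * (n : ℝ) ^ (t + 1) := by push_cast; ring
      _ ≤ d * ((n : ℝ) + 1) ^ (t + 1) := by gcongr; linarith
  have h10 : pr (fun x => ∃ A ∈ F.filter (fun A => ℓ < A.card), On o A x) ≤ ν := by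
    refine le_trans (pr_le_sum (F.filter (fun A => ℓ < A.card)) _
      (fun A x => On o A x) (fun x hx => hx)) ?_
    refine le_trans (sum_le_sum fun A _ => pr_on_le_end11 (o := o) A) ?_
    exact hν
  linarith

/-- **Stability.** If no unfound term is detected, the part of `g = 1` not covered by `H` has
measure at most `d (n + 1)^(t+1) κ + ν`. Proof: by `end11` it suffices that `w11 T ≤ κ` for all
unfound `T` with at most `ℓ` elements. Otherwise let `T` be one of them with maximal `w11`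
(`exists_max_image`); then `κ ≤ w11 T`, and with `R`, `Bs` from `exists_RB11` (`J = ∅`) `type2_11`
contradicts `hst`. `hsp` from `sparse11`, `hν` from `wt_long11`. -/
theorem stable11 (hN : Num11 t d n ℓ ℓ' m0 τ η κ ν M Q1 σ P NH) (hg : Up o g)
    (hgF : ∀ x, g x = true ↔ ∃ A ∈ F, On o A x) (hF : Cod t d F) (hHN : H.card ≤ NH)
    (hH : ∀ C ∈ H, C ∈ F ∨ (pr (fun x => On o C x ∧ g x = false) ≤ η ∧ ∀ A ∈ F, ¬ A ⊂ C))
    (hanti : ∀ G ∈ Nf F H, ∀ A ∈ F, A ≠ G → ¬ A ⊆ G) (hℓ' : ∀ A ∈ F, A.card ≤ ℓ')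
    (hm0 : ∀ T ∈ Nf F H, m0 ≤ T.card)
    (hAss : ∀ T ∈ Nf F H, ∀ J ⊆ T, J.card ≤ t → τ ≤ ZZ o g J)
    (hQ : ∀ m, m0 ≤ m → m ≤ ℓ →
      (Exc11 o g t (s11 t m) ((Nf F H).filter fun T => T.card = m)).card ≤ d * P m ^ (t + 1))
    (hM : wt10 ((Nf F H).filter fun T => T.card ≤ ℓ) ≤ M)
    (hst : ∀ T ∈ Nf F H, T.card ≤ ℓ → ∀ J R Bs : Finset (Fin n), J ⊆ T → R ⊆ T →
      Disjoint J R → Disjoint Bs T → J.card ≤ 2 * t → R.card = K11 t d → Bs.card ≤ B11 t d →
      ¬ Det11 o F H T J R Bs σ) :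
    pr (fun x => g x = true ∧ Off o H x) ≤ d * ((n : ℝ) + 1) ^ (t + 1) * κ + ν := by
  have hbig : t + 1 ≤ m11 t d := by
    have h1 : t ≤ 32 * t * (t + 1) := by nlinarith
    unfold m11
    omega
  have hm := hN.m0_big
  have hm' := hN.m0_le
  have hν := wt_long11 (n := n) (F := F) hF (show t ≤ ℓ by omega) hN.long
  have hsp : ∀ m, m0 ≤ m → m ≤ ℓ →
      (((Nf F H).filter fun T => T.card = m).card : ℝ) ≤ Q1 * 2 ^ (m / 4) := fun m h1 h2 =>
    sparse11 hN hg hgF hF hHN hH hanti hℓ' hm0 hAss hQ hM hst h1 h2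
  refine end11 hN.κ_pos.le hgF hF hν (fun T hT => ?_) fun T0 hT0 hT0ℓ => ?_
  · have h1 := hm0 T hT
    omega
  · by_contra hc
    rw [not_le] at hc
    obtain ⟨T, hT, hmax⟩ := exists_max_image ((Nf F H).filter fun T => T.card ≤ ℓ)
      (fun T => w11 o F H T) ⟨T0, mem_filter.2 ⟨hT0, hT0ℓ⟩⟩
    rw [mem_filter] at hT
    have hκ : κ ≤ w11 o F H T := hc.le.trans (hmax T0 (mem_filter.2 ⟨hT0, hT0ℓ⟩))
    obtain ⟨R, Bs, hR, hJR, hRK, hBc, hBT, hgen, hhalf⟩ := exists_RB11 hF hN.hd (T := T)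
      (J := ∅) (hm.trans (hm0 T hT.1)) (hanti T hT.1) (empty_subset _) (by simp)
    exact hst T hT.1 hT.2 ∅ R Bs (empty_subset _) hR hJR hBT (by simp) hRK hBc
      (type2_11 hN hF hanti hℓ' hν hsp hm0 hT.1 hT.2 hR hRK hBc hBT hgen hhalf hκ
        fun G hG hGℓ => hmax G (mem_filter.2 ⟨hG, hGℓ⟩))

end Pool.Agent.H.MP_cba12a_lc
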