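import Pool.Agent.H.MP_cba12a_lc.X11.CoreA
import Pool.Agent.H.MP_cba12a_lc.X11.Poly
import Pool.Agent.H.MP_cba12a_lc.X11.Rate
import Pool.Agent.H.MP_cba12a_lc.X11.Stab

/-!
If a round finds nothing, almost everything is covered.
-/

namespace Pool.Agent.H.MP_cba12a_lc

open Finset

variable {n m t d : ℕ} {o : Fin n → Bool} {f g : (Fin n → Bool) → Bool}
  {ω : Fin m → Fin n → Bool} {V : List Lit} {F0 : Finset (Finset (Fin n))}
  {a N ℓ ℓ' A B R0 NH m0 : ℕ} {P E : ℕ → ℕ} {τ η ι κ ν M Q1 σ : ℝ}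

/-- the list of the learner after `j` rounds -/
def Hj11 (n N t d m0 A B : ℕ) (V : List Lit) (S : Samples) (j : ℕ) : List (List Lit) :=
  HH11 N (2 * t) (K11 t d) (B11 t d) B (lits11 n) V S (cs11 N t d m0 A B V S)
    (hs10 N t A V S) j

/-- the terms with at most `ℓ` variables which are not found after `j` rounds -/
noncomputable def Xj11 (N t d m0 ℓ A B : ℕ) (F0 : Finset (Finset (Fin n))) (V : List Lit)
    (S : Samples) (j : ℕ) : Finset (Finset (Fin n)) :=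
  (Nf (Fp10 t F0 (hs10 N t A V S)) (Hs n (Hj11 n N t d m0 A B V S j))).filter
    fun T => T.card ≤ ℓ

theorem etaB_core11 (hP : Par11 a t d n N ℓ ℓ' A B R0 NH m0 P E τ η ι κ ν M Q1 σ) :
    η * B ≤ 1 := by
  have h1 := hP.ηB
  have h2 : (1 : ℝ) ≤ 2 ^ e11 t d m0 := one_le_pow₀ one_le_two
  have h3 : 0 ≤ η * B := mul_nonneg hP.η_nonneg (Nat.cast_nonneg _)
  nlinarith

/-- the length of the list after `j ≤ R0` rounds -/
theorem Hj_length_core11 (hP : Par11 a t d n N ℓ ℓ' A B R0 NH m0 P E τ η ι κ ν M Q1 σ)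
    {S : Samples} {j : ℕ} (hj : j ≤ R0) : (Hj11 n N t d m0 A B V S j).length ≤ NH := by
  have h1 := length_round11_le N t d (K11 t d) (B11 t d) m0 A B (lits11 n) V S j
  have h2 := hP.NHb
  have h3 : j * (N + 1) ^ 3 ≤ R0 * (N + 1) ^ 3 := Nat.mul_le_mul_right _ hj
  have h4 : (Hj11 n N t d m0 A B V S j).length ≤
      (N + 1) + m0 ^ 2 * (N + 1) + j * (N + 1) ^ 3 := h1
  omega

/-- **If a round finds nothing, almost everything is covered.** -/
theorem stable_j11 (hC : Ctx11 t d ℓ' f g o F0 V ω NH η ι)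
    (hP : Par11 a t d n N ℓ ℓ' A B R0 NH m0 P E τ η ι κ ν M Q1 σ) {j : ℕ} (hj : j < R0)
    (hX : Xj11 N t d m0 ℓ A B F0 V (smp f ω) (j + 1) =
      Xj11 N t d m0 ℓ A B F0 V (smp f ω) j) :
    pr (fun x => gp10 g (hs10 N t A V (smp f ω)) x = true ∧
      Off o (Hs n (Hj11 n N t d m0 A B V (smp f ω) j)) x) ≤
      d * ((n : ℝ) + 1) ^ (t + 1) * κ + ν := by
  obtain ⟨hs1, hs2, hs3, hs4⟩ := hs_facts11 hC hP
  obtain ⟨hgF, hcod, hlen⟩ := hs_iff11 hC hP
  have hVn : V.length ≤ n := length_V10 hC.hV hC.hVn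
  have hηB := etaB_core11 hP
  have hHlen := Hj_length_core11 hP (V := V) (S := smp f ω) hj.le
  have hB0 := hP.B_pos
  have hcso : ∀ C ∈ cs11 N t d m0 A B V (smp f ω), Ori o C := ori_cs11 hC.hV
  obtain ⟨h0, hh0⟩ : ∃ h0, hs10 N t A V (smp f ω) = h0 := ⟨_, rfl⟩
  obtain ⟨cs, hcs⟩ : ∃ cs, cs11 N t d m0 A B V (smp f ω) = cs := ⟨_, rfl⟩
  obtain ⟨H, hH⟩ : ∃ H, Hj11 n N t d m0 A B V (smp f ω) j = H := ⟨_, rfl⟩
  have hHHj : HH11 N (2 * t) (K11 t d) (B11 t d) B (lits11 n) V (smp f ω) cs h0 j = H := by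
    rw [← hh0, ← hcs]; exact hH
  have hsucc : Hj11 n N t d m0 A B V (smp f ω) (j + 1) =
      round11 N (2 * t) (K11 t d) (B11 t d) B (lits11 n) V (smp f ω) h0 H := by
    rw [← hHHj, ← hh0, ← hcs]
    exact HH11_succ j
  have hh0H : ∀ D ∈ h0, D ∈ H := by
    rw [← hHHj]
    exact h0_mem_HH11 j
  -- the mins of the chains are in the list
  have hmins : ∀ C ∈ mins10 B (smp f ω) (hs10 N t A V (smp f ω))
      (cs11 N t d m0 A B V (smp f ω)), C ∈ H := by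
    intro C hCm
    rw [← hHHj]
    refine HH11_mono (Nat.zero_le j) C ?_
    rw [hh0, hcs] at hCm
    show C ∈ (mins10 B (smp f ω) h0 cs ++ h0)
    exact List.mem_append.2 (Or.inl hCm)
  have hm0' : ∀ T ∈ Nf (Fp10 t F0 (hs10 N t A V (smp f ω))) (Hs n H), m0 ≤ T.card :=
    fun T hT => static11 hC hP (by rw [hh0]; exact hh0H) hmins hT
  rw [hh0] at hs1 hs3 hgF hcod hlen hm0'
  rw [hcs] at hcso
  rw [hH] at hHlen
  rw [hh0, hH]
  have hanti := anti_Fp11 (t := t) hC.hmin hh0H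
  have hnf : ∀ T ∈ Nf (Fp10 t F0 h0) (Hs n H), t < T.card ∧ ∀ C ∈ Hs n h0, ¬ C ⊆ T :=
    fun T hT => nf_Fp10 hh0H hT
  obtain ⟨F, hF⟩ : ∃ F, Fp10 t F0 h0 = F := ⟨_, rfl⟩
  rw [hF] at hgF hcod hlen hm0' hanti hnf
  have hh0o : ∀ C ∈ h0, Ori o C := fun C hCh => (hs1 C hCh).1
  have hh0V : ∀ D ∈ h0, ∀ l ∈ D, l ∈ V := fun D hD => (hs1 D hD).2.1
  have hspec := HH11_spec (V := V) hC.to10 hh0o hs3 (N := N) (s := 2 * t) (K := K11 t d)
    (w := B11 t d) (U := lits11 n) hB0 hηB hgF hcso j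
  rw [hHHj] at hspec
  have hHo : ∀ C ∈ H, Ori o C := fun C hCH => (hspec C hCH).1
  -- an unfound term with at most `ℓ` variables contains no member of the next list
  have hnot : ∀ T ∈ Nf F (Hs n H), T.card ≤ ℓ →
      ¬ ∃ C' ∈ round11 N (2 * t) (K11 t d) (B11 t d) B (lits11 n) V (smp f ω) h0 H,
        fs n C' ⊆ T := by
    rintro T hT hTℓ ⟨C', hC', hC'T⟩
    have h1 : T ∈ Xj11 N t d m0 ℓ A B F0 V (smp f ω) j := by
      unfold Xj11
      rw [mem_filter, hh0, hH, hF]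
      exact ⟨hT, hTℓ⟩
    rw [← hX] at h1
    unfold Xj11 at h1
    rw [mem_filter, hsucc, mem_Nf] at h1
    exact h1.1.2 (fs n C') (mem_Hs.2 ⟨C', hC', rfl⟩) hC'T
  have hAss : ∀ T ∈ Nf F (Hs n H), ∀ J ⊆ T, J.card ≤ t → τ ≤ ZZ o (gp10 g h0) J := by
    intro T hT J hJT hJt
    have h1 := hs_ass11 hC hP (I := J) hJt
    rw [hh0] at h1
    exact h1 fun C hCh hCJ => (hnf T hT).2 C hCh (hCJ.trans hJT)
  have hτ0 : 0 < τ := hP.num.τ_pos
  refine stable11 hP.num (up_gp10 hC.hg hh0o) hgF hcod ?_ ?_ hanti hlen hm0' hAss ?_ ?_ ?_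
  · -- number
    refine le_trans ?_ hHlen
    unfold Hs
    refine (List.toFinset_card_le _).trans ?_
    rw [List.length_map]
  · -- members
    intro C hCH
    obtain ⟨D, hD, rfl⟩ := mem_Hs.1 hCH
    rcases (hspec D hD).2 with h | h
    · left
      rw [← hF]
      exact mem_Fp10.2 (Or.inl (mem_Hs.2 ⟨D, h, rfl⟩))
    · right
      exact h
  · -- exceptional terms
    intro k hk0 hkℓ
    refine card_exc11 (ℓ := k) (τ := τ) (hcod.mono ((filter_subset _ _).trans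
      fun T hT => (mem_Nf.1 hT).1)) (fun T hT => (mem_filter.1 hT).2.le) hτ0
      (fun T hT => hAss T (mem_filter.1 hT).1) (hP.exc k hk0 hkℓ)
  · -- weight
    refine le_trans (wt_rate11 (o := o) (g := gp10 g h0) (d := d) (t := t) (ℓ := ℓ) _
      (hcod.mono ((filter_subset _ _).trans fun T hT => (mem_Nf.1 hT).1)) hP.num.hd
      (fun T hT => (hnf T (mem_filter.1 hT).1).1) (fun T hT => (mem_filter.1 hT).2) ?_ hτ0
      hP.τ1 (fun T hT => hAss T (mem_filter.1 hT).1)) hP.Mb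
    intro A' hA' x hx
    exact (hgF x).2 ⟨A', (mem_Nf.1 (mem_filter.1 hA').1).1, hx⟩
  · -- detection
    intro T hT hTℓ J R Bs hJ hR hJR hBT hJt hRc hBc hdet
    refine hnot T hT hTℓ ?_
    exact found11 hC.to10 hh0o hh0V hs3 hHo hh0H hHlen hηB hgF
      ((Nat.pow_le_pow_left (by omega) _).trans hP.capJ)
      ((Nat.pow_le_pow_left (by omega) _).trans hP.capK) hP.capB (mem_Nf.1 hT).1 hJ hR hJR hBT
      hJt hRc (K11_pos t d) hBc hP.num.σ_pos hP.ση hP.σι hdet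

end Pool.Agent.H.MP_cba12a_lc
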