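import Pool.Agent.H.MP_cba12a_lc.X11.Seq

/-!
The sets covering `R` in the noise event contain an almost disjoint sequence.
-/

namespace Pool.Agent.H.MP_cba12a_lc

open Finset

variable {n : ℕ} {o : Fin n → Bool} {F H : Finset (Finset (Fin n))} {t d : ℕ}

/-- the members of `F`, other than `T`, which are not found and meet `R` -/
def UG11 (F H : Finset (Finset (Fin n))) (T R : Finset (Fin n)) : Finset (Finset (Fin n)) :=
  ((Nf F H).erase T).filter fun A => ¬ Disjoint A R

theorem mem_UG11 {T R A : Finset (Fin n)} :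
    A ∈ UG11 F H T R ↔ A ≠ T ∧ (A ∈ F ∧ ∀ C ∈ H, ¬ C ⊆ A) ∧ ¬ Disjoint A R := by
  unfold UG11
  rw [mem_filter, mem_erase, mem_Nf]
  tauto

/-- **The covering sets.** Let `R ⊆ T` be generic: every other member of `F` disjoint from `Bs`
shares at most `t + 1` elements with `R`. In the noise event with `Bs` off there is a member `G` of
`UG11` which is on at `sOn R x`, no shorter unfound member other than `T` is on at `sOn R x`, and
`[G]` has a good extension by `k` members of `UG11`, at least as long as `G`, on at `sOn R x`.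
Proof: let `C` be the set of all `A ∈ UG11` with `A \ R` on at `x` (`on_sOn_iff`). (1) Every member
`A ≠ T` of `F` containing some `r ∈ R` with `A \ R` on is in `C` (it contains no member of `H`, as
`Off H (sOn R x)`) and is disjoint from `Bs` (`Bs` is off, disjoint from `T ⊇ R`), so it has at most
`t + 1` elements in `R`. (2) So `R` is covered by the sets `A ∩ R`, `A ∈ C`, and
`|R| ≤ (t + 1) |C|`. (3) `seq11` for `C`, `chn_of_list11` with
`𝒢 = UG11.filter (G.card ≤ ·.card)`. (4) An unfound `A ≠ T` on at `sOn R x` and shorter than `G`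
would be in `C` if it meets `R`, and would be on at `x` and disjoint from `R` otherwise. -/
theorem cov_chn11 {q k : ℕ} (hq : 0 < q) (hF : Cod t d F) {T R Bs : Finset (Fin n)}
    (hR : R ⊆ T) (hBT : Disjoint Bs T)
    (hbig : ∀ A ∈ Nf F H, 4 * q * t < A.card)
    (hgen : ∀ A ∈ F, A ≠ T → Disjoint A Bs → (A ∩ R).card ≤ t + 1)
    (hk : (t + 1) * (k * (1 + d * (4 * q) ^ (t + 1)) + 1) ≤ R.card)
    {x : Fin n → Bool} (hx : Cov10 o F H T R x) (hB : BOff o Bs x) :
    ∃ G ∈ UG11 F H T R, On o G (sOn o R x) ∧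
      (∀ A ∈ (Nf F H).erase T, A.card < G.card → ¬ On o A (sOn o R x)) ∧
      Chn11 ((UG11 F H T R).filter fun A => G.card ≤ A.card) q (fun A => On o A (sOn o R x)) k
        [G] := by
  classical
  obtain ⟨hoff, hdis, hcov⟩ := hx
  obtain ⟨C, hC⟩ : ∃ C, C = (UG11 F H T R).filter fun A => On o A (sOn o R x) := ⟨_, rfl⟩
  have hmemC : ∀ A, A ∈ C ↔ (A ≠ T ∧ (A ∈ F ∧ ∀ D ∈ H, ¬ D ⊆ A) ∧ ¬ Disjoint A R) ∧
      On o (A \ R) x := by
    intro A
    rw [hC, mem_filter, mem_UG11, on_sOn_iff]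
  have hinC : ∀ A ∈ F, A ≠ T → ¬ Disjoint A R → On o (A \ R) x → A ∈ C := by
    intro A hA hAT hAR hon
    refine (hmemC A).2 ⟨⟨hAT, ⟨hA, ?_⟩, hAR⟩, hon⟩
    intro D hD hDA
    refine hoff D hD ((on_sOn_iff o D R x).2 ?_)
    intro i hi
    exact hon i (sdiff_subset_sdiff hDA (Subset.refl R) hi)
  have hCF : C ⊆ F := fun A hA => ((hmemC A).1 hA).1.2.1.1
  have hdB : ∀ A ∈ C, Disjoint A Bs := by
    intro A hA
    rw [disjoint_left]
    intro b hb hbB
    refine hB b hbB (((hmemC A).1 hA).2 b (mem_sdiff.2 ⟨hb, ?_⟩))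
    intro hbR
    exact disjoint_left.1 hBT hbB (hR hbR)
  have hcard : R.card ≤ (t + 1) * C.card := by
    have h1 : R ⊆ C.biUnion fun A => A ∩ R := by
      intro r hr
      obtain ⟨A, hA, hAT, hrA, hon⟩ := hcov r hr
      refine mem_biUnion.2 ⟨A, hinC A hA hAT ?_ hon, mem_inter.2 ⟨hrA, hr⟩⟩
      exact not_disjoint_iff.2 ⟨r, hrA, hr⟩
    refine (card_le_card h1).trans ?_
    rw [Nat.mul_comm]
    refine card_biUnion_le_card_mul _ _ _ ?_
    intro A hA
    exact hgen A (hCF hA) ((hmemC A).1 hA).1.1 (hdB A hA)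
  have hk' : k * (1 + d * (4 * q) ^ (t + 1)) < C.card :=
    Nat.le_of_mul_le_mul_left (hk.trans hcard) (Nat.succ_pos t)
  obtain ⟨G, hG, hmin, L, hL, hLC, hpw⟩ := seq11 hq k C (hF.mono hCF) (fun A hA =>
    hbig A (mem_Nf.2 ((hmemC A).1 hA).1.2.1)) hk'
  have hCU : ∀ A ∈ C, A ∈ UG11 F H T R := fun A hA => mem_UG11.2 ((hmemC A).1 hA).1
  have hCon : ∀ A ∈ C, On o A (sOn o R x) := fun A hA =>
    (on_sOn_iff o A R x).2 ((hmemC A).1 hA).2
  refine ⟨G, hCU G hG, hCon G hG, ?_, ?_⟩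
  · intro A hA hlt hon
    rw [mem_erase, mem_Nf] at hA
    rw [on_sOn_iff] at hon
    by_cases hd : Disjoint A R
    · rw [sdiff_eq_self_of_disjoint hd] at hon
      exact hdis A hA.2.1 hd hon
    · exact absurd (hmin A (hinC A hA.2.1 hA.1 hd hon)) (Nat.not_le.2 hlt)
  · rw [List.pairwise_cons] at hpw
    rw [← hL]
    refine chn_of_list11 L [G] ?_ ?_ hpw.2
    · intro A hA
      exact ⟨mem_filter.2 ⟨hCU A (hLC A hA), hmin A (hLC A hA)⟩, hCon A (hLC A hA)⟩
    · intro A hA B hB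
      rw [List.mem_singleton] at hB
      rw [hB]
      exact hpw.1 A hA

end Pool.Agent.H.MP_cba12a_lc
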