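import Pool.Agent.H.MP_cba12a_lc.X10.Cnt
import Pool.Agent.H.MP_cba12a_lc.X11.Base

/-!
Few exceptional terms, for bounded codegree.
-/

namespace Pool.Agent.H.MP_cba12a_lc

open Finset

variable {n : ℕ} {o : Fin n → Bool} {g : (Fin n → Bool) → Bool}

/-- the exceptional members of `G`: for every `J ⊆ T` with at most `t` elements the variables of
`T \ J` have total relative influence more than `2^{-s-1}` at `J` -/
noncomputable def Exc11 (o : Fin n → Bool) (g : (Fin n → Bool) → Bool) (t s : ℕ)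
    (G : Finset (Finset (Fin n))) : Finset (Finset (Fin n)) := by
  classical
  exact G.filter fun T => ∀ J ⊆ T, J.card ≤ t →
    (1 / 2) ^ (s + 1) * ZZ o g J < ∑ i ∈ T \ J, (ZZ o g J - ZZ o g (insert i J))

theorem mem_Exc11 {t s : ℕ} {G : Finset (Finset (Fin n))} {T : Finset (Fin n)} :
    T ∈ Exc11 o g t s G ↔ T ∈ G ∧ ∀ J ⊆ T, J.card ≤ t →
      (1 / 2) ^ (s + 1) * ZZ o g J < ∑ i ∈ T \ J, (ZZ o g J - ZZ o g (insert i J)) := by
  unfold Exc11
  rw [mem_filter]

/-- **Few exceptional members.** Proof as for `card_exc10` (file `X10/Cnt.lean`, read it first),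
with `θ = 1 / (ℓ 2^(s+1))`, `VJ10`, `JJ10`, `card_JJ10`: every exceptional member contains a member
of `JJ10 o g θ τ (t + 1)` with `t + 1` elements, and each of these is in at most `d` members
(`Cod`), so there are at most `d P^(t+1)` exceptional members. -/
theorem card_exc11 {t d s ℓ P : ℕ} {τ : ℝ} {G : Finset (Finset (Fin n))} (hG : Cod t d G)
    (hℓ : ∀ T ∈ G, T.card ≤ ℓ) (hτ : 0 < τ)
    (hZ : ∀ T ∈ G, ∀ J ⊆ T, J.card ≤ t → τ ≤ ZZ o g J)
    (hP : 2 * Real.log (1 / τ) * (ℓ * 2 ^ (s + 1)) ^ 2 ≤ P) :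
    (Exc11 o g t s G).card ≤ d * P ^ (t + 1) := by
  classical
  rcases (Exc11 o g t s G).eq_empty_or_nonempty with h0 | ⟨T0, hT0⟩
  · rw [h0]
    simp
  -- `ℓ` is positive
  have hℓ0 : 0 < ℓ := by
    rcases Nat.eq_zero_or_pos ℓ with h | h
    · exfalso
      rw [mem_Exc11] at hT0
      have h1 := hℓ T0 hT0.1
      rw [h, Nat.le_zero, card_eq_zero] at h1
      have h2 := hT0.2 ∅ (empty_subset _) (by simp)
      rw [h1, sdiff_empty, sum_empty] at h2
      have h3 : 0 ≤ (1 / 2 : ℝ) ^ (s + 1) * ZZ o g ∅ :=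
        mul_nonneg (by positivity) (ZZ_nonneg o g ∅)
      linarith
    · exact h
  have hℓR : (0 : ℝ) < ℓ := by exact_mod_cast hℓ0
  obtain ⟨θ, hθdef⟩ : ∃ θ : ℝ, θ = (1 / 2) ^ (s + 1) / ℓ := ⟨_, rfl⟩
  have hθ0 : 0 < θ := by rw [hθdef]; positivity
  have hθ1 : θ * (ℓ * 2 ^ (s + 1)) = 1 := by
    rw [hθdef, div_mul_eq_mul_div, ← mul_assoc, mul_comm ((1 / 2 : ℝ) ^ (s + 1)) (ℓ : ℝ), mul_assoc,
      ← mul_pow]
    norm_num
    exact hℓ0.ne'
  have hθℓ : (ℓ : ℝ) * θ = (1 / 2) ^ (s + 1) := by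
    rw [hθdef]
    field_simp
  have hV : ∀ J, τ ≤ ZZ o g J → (VJ10 o g θ J).card ≤ P := by
    intro J hJ
    have hZJ : 0 < ZZ o g J := lt_of_lt_of_le hτ hJ
    have h1 := infl_card10 (S := VJ10 o g θ J) (U := J) (o := o) (g := g) hθ0.le hZJ
      (fun i hi => (mem_VJ10.1 hi).1) (fun i hi => (mem_VJ10.1 hi).2)
    have h2 : Real.log (1 / ZZ o g J) ≤ Real.log (1 / τ) := by
      apply Real.log_le_log (by positivity)
      exact one_div_le_one_div_of_le hτ hJ
    have h3 : ((VJ10 o g θ J).card : ℝ) ≤ P := by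
      have h4 : ((VJ10 o g θ J).card : ℝ) =
          ((VJ10 o g θ J).card : ℝ) * θ ^ 2 * (ℓ * 2 ^ (s + 1)) ^ 2 := by
        rw [mul_assoc, ← mul_pow, hθ1]
        ring
      rw [h4]
      refine le_trans ?_ hP
      have h5 : ((VJ10 o g θ J).card : ℝ) * θ ^ 2 ≤ 2 * Real.log (1 / τ) := by linarith
      exact mul_le_mul_of_nonneg_right h5 (by positivity)
    exact_mod_cast h3
  -- every exceptional member contains a set of the list
  have hex : ∀ T ∈ Exc11 o g t s G, ∀ k ≤ t + 1, ∃ J ∈ JJ10 o g θ τ k, J ⊆ T ∧ J.card = k := by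
    intro T hT k
    induction k with
    | zero =>
      intro _
      exact ⟨∅, mem_JJ10_zero.2 rfl, empty_subset _, rfl⟩
    | succ k ih =>
      intro hk
      obtain ⟨J, hJ, hJT, hJk⟩ := ih (by omega)
      rw [mem_Exc11] at hT
      have hJt : J.card ≤ t := by omega
      have hτJ := hZ T hT.1 J hJT hJt
      have h1 := hT.2 J hJT hJt
      obtain ⟨i, hi, hiθ⟩ : ∃ i ∈ T \ J, θ * ZZ o g J ≤ ZZ o g J - ZZ o g (insert i J) := by
        by_contra hcon
        push Not at hcon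
        have h2 : ∑ i ∈ T \ J, (ZZ o g J - ZZ o g (insert i J)) ≤ ∑ _i ∈ T \ J, θ * ZZ o g J :=
          sum_le_sum fun i hi => (hcon i hi).le
        rw [sum_const, nsmul_eq_mul] at h2
        have h3 : ((T \ J).card : ℝ) ≤ ℓ := by
          exact_mod_cast (card_le_card sdiff_subset).trans (hℓ T hT.1)
        have h4 : ((T \ J).card : ℝ) * (θ * ZZ o g J) ≤ ℓ * (θ * ZZ o g J) :=
          mul_le_mul_of_nonneg_right h3 (mul_nonneg hθ0.le (ZZ_nonneg o g J))
        rw [← mul_assoc (ℓ : ℝ), hθℓ] at h4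
        linarith
      rw [mem_sdiff] at hi
      refine ⟨insert i J, mem_JJ10_succ.2 ⟨J, hJ, hτJ, i, mem_VJ10.2 ⟨hi.2, by linarith⟩, rfl⟩,
        insert_subset hi.1 hJT, ?_⟩
      rw [card_insert_of_notMem hi.2, hJk]
  choose! f hf1 hf2 hf3 using fun T (hT : T ∈ Exc11 o g t s G) => hex T hT (t + 1) le_rfl
  refine le_trans ?_ (Nat.mul_le_mul_left d (card_JJ10 hV (t + 1)))
  refine card_le_mul_card_image_of_maps_to (f := f) (fun T hT => hf1 T hT) d ?_
  intro S _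
  rcases ((Exc11 o g t s G).filter fun T => f T = S).eq_empty_or_nonempty with h0 | ⟨T1, hT1⟩
  · rw [h0]
    simp
  rw [mem_filter] at hT1
  have hS : S.card = t + 1 := by
    rw [← hT1.2]
    exact hf3 T1 hT1.1
  refine (card_le_card ?_).trans (hG S hS)
  intro T hT
  rw [mem_filter] at hT ⊢
  exact ⟨(mem_Exc11.1 hT.1).1, hT.2 ▸ hf2 T hT.1⟩

end Pool.Agent.H.MP_cba12a_lc
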