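import Pool.Agent.H.MP_cba12a_lc.CodDefs
import Pool.Agent.H.MP_cba12a_lc.X11.Cn
import Pool.Agent.H.MP_cba12a_lc.P9.OriL

/-!
The terms of a unate function: orientation, minimal terms, and removal of the long terms.
-/

namespace Pool.Agent.H.MP_cba12a_lc

open Finset

variable {n : ℕ}

/-- Orienting the formula. -/
theorem exists_oriented11 {t d : ℕ} {g : (Fin n → Bool) → Bool} {o : Fin n → Bool}
    (hg : Up o g) (hF : CodDNF t d g) : ∃ F : Finset (Finset (Fin n)),
      (∀ x, g x = true ↔ ∃ A ∈ F, On o A x) ∧ Cod t d F := by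
  classical
  obtain ⟨F, hgF, hcod⟩ := hF
  obtain ⟨φ, hφ⟩ : ∃ φ : Finset (Fin n × Bool) → Finset (Fin n),
      ∀ T i, i ∈ φ T ↔ ∃ l ∈ T, l.2 = o l.1 ∧ l.1 = i := by
    refine ⟨fun T => (T.filter fun l => l.2 = o l.1).image Prod.fst, fun T i => ?_⟩
    rw [Finset.mem_image]
    constructor
    · rintro ⟨l, hl, rfl⟩
      rw [Finset.mem_filter] at hl
      exact ⟨l, hl.1, hl.2, rfl⟩
    · rintro ⟨l, hl, h1, rfl⟩
      exact ⟨l, Finset.mem_filter.2 ⟨hl, h1⟩, rfl⟩
  refine ⟨(F.filter fun T => ∃ y : Fin n → Bool, ∀ l ∈ T, y l.1 = l.2).image φ, ?_, ?_⟩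
  · intro x
    constructor
    · intro hx
      obtain ⟨T, hT, hs⟩ := (hgF x).1 hx
      refine ⟨φ T, Finset.mem_image_of_mem _ (Finset.mem_filter.2 ⟨hT, x, hs⟩), ?_⟩
      intro i hi
      obtain ⟨l, hl, h1, rfl⟩ := (hφ T i).1 hi
      rw [hs l hl, h1]
    · rintro ⟨A, hA, hon⟩
      obtain ⟨T, hT, rfl⟩ := Finset.mem_image.1 hA
      obtain ⟨hTF, y, hy⟩ := Finset.mem_filter.1 hT
      set y' : Fin n → Bool := fun i => if (∃ l ∈ T, l.1 = i) then y i else x i with hy'
      have h1 : g y' = true := by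
        rw [hgF]
        refine ⟨T, hTF, fun l hl => ?_⟩
        simp only [hy']
        rw [if_pos ⟨l, hl, rfl⟩]
        exact hy l hl
      refine up_le hg h1 fun i => ?_
      by_cases hi : ∃ l ∈ T, l.1 = i
      · obtain ⟨l, hl, rfl⟩ := hi
        have e : y' l.1 = l.2 := by
          simp only [hy']
          rw [if_pos ⟨l, hl, rfl⟩]
          exact hy l hl
        by_cases hor : l.2 = o l.1
        · right
          exact hon l.1 ((hφ T _).2 ⟨l, hl, hor, rfl⟩)
        · rw [e]
          rcases Bool.eq_or_eq_not (x l.1) (o l.1) with h2 | h2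
          · exact Or.inr h2
          · left
            rw [h2]
            rcases Bool.eq_or_eq_not l.2 (o l.1) with h3 | h3
            · exact absurd h3 hor
            · exact h3.symm
      · left
        simp only [hy']
        rw [if_neg hi]
  · intro S hS
    refine le_trans ?_ (hcod S hS)
    refine (card_le_card ?_).trans (card_image_le (s := F.filter fun T => S ⊆ T.image Prod.fst)
      (f := φ))
    intro A hA
    rw [mem_filter] at hA
    obtain ⟨T, hT, rfl⟩ := mem_image.1 hA.1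
    refine mem_image_of_mem _ (mem_filter.2 ⟨(mem_filter.1 hT).1, ?_⟩)
    intro i hi
    obtain ⟨l, hl, _, h1⟩ := (hφ T i).1 (hA.2 hi)
    exact mem_image.2 ⟨l, hl, h1⟩

/-- The function of a family is monotone in the orientation. -/
theorem up_of_family11 {o : Fin n → Bool} {g : (Fin n → Bool) → Bool}
    {F : Finset (Finset (Fin n))} (hgF : ∀ x, g x = true ↔ ∃ A ∈ F, On o A x) : Up o g := by
  intro i x hx
  obtain ⟨A, hA, hon⟩ := (hgF _).1 hx
  refine (hgF _).2 ⟨A, hA, fun j hj => ?_⟩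
  have h := hon j hj
  by_cases hji : j = i
  · subst hji
    rw [Function.update_self]
  · rw [Function.update_of_ne hji] at h ⊢
    exact h

theorem pr_on_family11 (o : Fin n → Bool) (F : Finset (Finset (Fin n))) :
    pr (fun x => ∃ A ∈ F, On o A x) ≤ wt10 F := by
  have h : pr (fun x => ∃ A ∈ F, On o A x) ≤ ∑ A ∈ F, pr (fun x => On o A x) :=
    pr_le_sum F (fun x => ∃ A ∈ F, On o A x) (fun A x => On o A x) (fun x hx => hx)
  refine h.trans (sum_le_sum fun A _ => ?_)
  have h4 : pr (fun x => On o A x) = pr (fun x => On o A x ∧ True) :=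
    pr_congr fun x => ⟨fun h => ⟨h, trivial⟩, fun h => h.1⟩
  rw [h4, pr_on o A (fun _ => True)]
  exact mul_le_of_le_one_right (by positivity) (pr_le_one _)

/-- **The needed terms.** Every unate `g` with a formula of codegree `(t, d)` is close to a
function `g'` given by an antichain of sets of variables with at most `ℓ` elements and of
codegree `(t, d)`. -/
theorem exists_family11 {t d ℓ : ℕ} {g : (Fin n → Bool) → Bool} {o : Fin n → Bool}
    (hg : Up o g) (hF : CodDNF t d g) (hℓ : t ≤ ℓ) :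
    ∃ (g' : (Fin n → Bool) → Bool) (F : Finset (Finset (Fin n))), Up o g' ∧
      (∀ x, g' x = true ↔ ∃ A ∈ F, On o A x) ∧ Cod t d F ∧ (∀ A ∈ F, A.card ≤ ℓ) ∧
      (∀ A ∈ F, ∀ B ∈ F, A ⊆ B → A = B) ∧
      dst g g' ≤ d * ((n : ℝ) + 1) ^ (t + 1) * (1 / 2) ^ ℓ := by
  classical
  obtain ⟨F1, hgF1, hcod1⟩ := exists_oriented11 hg hF
  -- the minimal members
  obtain ⟨F2, hF2⟩ : ∃ F2, F2 = F1.filter fun A => ∀ B ∈ F1, B ⊆ A → B = A := ⟨_, rfl⟩
  have hsub2 : F2 ⊆ F1 := by rw [hF2]; exact filter_subset _ _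
  have hmin : ∀ A ∈ F1, ∃ B ∈ F2, B ⊆ A := by
    intro A hA
    obtain ⟨B, hB, hBmin⟩ := exists_min_image (F1.filter fun B => B ⊆ A) (fun B => B.card)
      ⟨A, mem_filter.2 ⟨hA, Subset.refl _⟩⟩
    rw [mem_filter] at hB
    refine ⟨B, ?_, hB.2⟩
    rw [hF2, mem_filter]
    refine ⟨hB.1, fun D hD hDB => ?_⟩
    exact eq_of_subset_of_card_le hDB (hBmin D (mem_filter.2 ⟨hD, hDB.trans hB.2⟩))
  have hgF2 : ∀ x, g x = true ↔ ∃ A ∈ F2, On o A x := by
    intro x
    rw [hgF1]
    constructor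
    · rintro ⟨A, hA, hon⟩
      obtain ⟨B, hB, hBA⟩ := hmin A hA
      exact ⟨B, hB, fun i hi => hon i (hBA hi)⟩
    · rintro ⟨A, hA, hon⟩
      exact ⟨A, hsub2 hA, hon⟩
  obtain ⟨F, hFe⟩ : ∃ F, F = F2.filter fun A => A.card ≤ ℓ := ⟨_, rfl⟩
  have hsub : F ⊆ F2 := by rw [hFe]; exact filter_subset _ _
  obtain ⟨g', hg'⟩ : ∃ g' : (Fin n → Bool) → Bool, ∀ x, g' x = true ↔ ∃ A ∈ F, On o A x :=
    ⟨fun x => decide (∃ A ∈ F, On o A x), fun x => by simp⟩
  refine ⟨g', F, up_of_family11 hg', hg', (hcod1.mono hsub2).mono hsub, ?_, ?_, ?_⟩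
  · intro A hA
    rw [hFe, mem_filter] at hA
    exact hA.2
  · intro A hA B hB hAB
    have hB' := hsub hB
    rw [hF2, mem_filter] at hB'
    exact hB'.2 A (hsub2 (hsub hA)) hAB
  · have h1 : dst g g' ≤ wt10 (F2.filter fun A => ℓ < A.card) := by
      have h2 : dst g g' ≤ pr (fun x => ∃ A ∈ F2.filter (fun A => ℓ < A.card), On o A x) := by
        have e : dst g g' = pr (fun x => g x ≠ g' x) := by
          unfold dst
          rw [pr_def]
          unfold mu ct
          rw [Fintype.card_fun, Fintype.card_fin, Fintype.card_bool]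
          push_cast
          congr 2
          refine congrArg card ?_
          ext x
          simp
        rw [e]
        refine pr_mono fun x hx => ?_
        by_cases hgx : g x = true
        · obtain ⟨A, hA, hon⟩ := (hgF2 x).1 hgx
          refine ⟨A, mem_filter.2 ⟨hA, ?_⟩, hon⟩
          by_contra hcon
          refine hx ?_
          rw [hgx, eq_comm, hg']
          refine ⟨A, ?_, hon⟩
          rw [hFe, mem_filter]
          exact ⟨hA, not_lt.1 hcon⟩
        · exfalso
          have hgx' : g' x = true := by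
            cases h3 : g' x
            · rw [h3] at hx
              exact absurd (Bool.eq_false_iff.2 hgx) hx
            · rfl
          obtain ⟨A, hA, hon⟩ := (hg' x).1 hgx'
          exact hgx ((hgF2 x).2 ⟨A, hsub hA, hon⟩)
      exact h2.trans (pr_on_family11 o _)
    exact h1.trans (wt_long11 (hcod1.mono hsub2) hℓ le_rfl)

end Pool.Agent.H.MP_cba12a_lc
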