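import Pool.Agent.H.MP_cba12a_lc.X11.Core
import Pool.Agent.H.MP_cba12a_lc.X11.Poly
import Pool.Agent.H.MP_cba12a_lc.X11.Ori
import Pool.Agent.H.MP_cba12a_lc.P9.LL

/-!
The learner for unate DNF formulas in which any `t + 1` variables occur together in at most `d`
terms: parameters and final assembly.
-/

namespace Pool.Agent.H.MP_cba12a_lc

open Pool.Agent.H.MP_5be563_lc.PT

/-- the exponents of the learner -/
structure Cst11 where
  /-- `N = 2 ^ (N * L)` -/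
  N : ℕ
  /-- `ℓ = l * L` -/
  l : ℕ
  /-- `A = 2 ^ (A * L)` -/
  A : ℕ
  /-- `B = 2 ^ (B * L)` -/
  B : ℕ
  /-- `R0 = 2 ^ (R * L)` -/
  R : ℕ
  /-- `NH = 2 ^ (H * L)` -/
  H : ℕ
  /-- `η = 2 ^ (- E * L)` -/
  E : ℕ
  /-- `m0 = M * clog L` -/
  M : ℕ

/-- the learner -/
def learn11 (t d c0 : ℕ) (c : Cst11) (q : ℕ × ℕ × Samples) : List (List Lit) :=
  core11 (2 ^ (c.N * LL c0 q.1 q.2.1)) t d (K11 t d) (B11 t d)
    (c.M * Nat.clog 2 (LL c0 q.1 q.2.1)) (2 ^ (c.A * LL c0 q.1 q.2.1))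
    (2 ^ (c.B * LL c0 q.1 q.2.1)) (2 ^ (c.R * LL c0 q.1 q.2.1)) (2 ^ (c.E * LL c0 q.1 q.2.1))
    q.1 q.2.2

theorem poly_learn11 (t d c0 : ℕ) (c : Cst11)
    (hTT : ∀ L, c0 ≤ L → ex11 t d (c.M * Nat.clog 2 L) ≤ L) : Poly (learn11 t d c0 c) := by
  have hp : ∀ k : ℕ, Poly (fun q : ℕ × ℕ × Samples => 2 ^ (k * LL c0 q.1 q.2.1)) :=
    fun k => poly_two_pow_LL c0 k Poly.fst (by fun_prop)
  have hL : Poly (fun q : ℕ × ℕ × Samples => LL c0 q.1 q.2.1) :=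
    poly_LL c0 Poly.fst (by fun_prop)
  have hm : Poly (fun q : ℕ × ℕ × Samples => c.M * Nat.clog 2 (LL c0 q.1 q.2.1)) := by
    have h1 : Poly (fun q : ℕ × ℕ × Samples => Nat.clog 2 (LL c0 q.1 q.2.1)) := by fun_prop
    exact (MP_5be563_lc.PT.Poly.const c.M).mul h1
  have hK : Poly (fun _ : ℕ × ℕ × Samples => K11 t d) := MP_5be563_lc.PT.Poly.const _
  have hw : Poly (fun _ : ℕ × ℕ × Samples => B11 t d) := MP_5be563_lc.PT.Poly.const _
  have hn : Poly (fun q : ℕ × ℕ × Samples => q.1) := Poly.fst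
  have hS : Poly (fun q : ℕ × ℕ × Samples => q.2.2) := by fun_prop
  refine poly_core11 t d (hp c.N) hK hw hm (hp c.A) (hp c.B) (hp c.R) (hp 1) ?_ (hp c.E) hn hS
  intro q
  refine Nat.pow_le_pow_right (by norm_num) ?_
  rw [one_mul]
  refine hTT _ ?_
  unfold LL
  omega

/-- the inverse of the precision -/
def M11 (c : Cst11) (c0 n a : ℕ) : ℕ := W10 c0 n a ^ (c.E + 7)

open Polynomial in
/-- the polynomial for the number of samples -/
noncomputable def QP11 (c0 : ℕ) (c : Cst11) : Polynomial ℕ :=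
  4 * (WP10 c0 ^ (c.E + 7)) ^ 2 * ((2 * X + 1) * (WP10 c0 ^ c.H + 2) + 1 + X)

theorem eval_QP11 (c0 : ℕ) (c : Cst11) (x : ℕ) : (QP11 c0 c).eval x =
    4 * M11 c c0 x x ^ 2 * ((2 * x + 1) * (W10 c0 x x ^ c.H + 2) + 1 + x) := by
  unfold QP11 M11
  rw [← eval_WP10]
  simp

theorem M11_mono {c : Cst11} {c0 n a n' a' : ℕ} (hn : n ≤ n') (ha : a ≤ a') :
    M11 c c0 n a ≤ M11 c c0 n' a' := Nat.pow_le_pow_left (W10_mono hn ha) _

/-- The weight of the terms which are removed. -/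
theorem removed11 {t d c0 n a L M : ℕ} {c : Cst11} (ha : 1 ≤ a) (hL : L = LL c0 n a)
    (hL1 : 1 ≤ L)
    (hM : M = M11 c c0 n a) (hnL : n + 1 ≤ 2 ^ L) (hdL : d ≤ 2 ^ L) :
    (d : ℝ) * ((n : ℝ) + 1) ^ (t + 1) * (1 / 2) ^ ((3 * c.E + t + 30) * L) ≤ 1 / (2 * M) := by
  have hM1 : M ≤ 2 ^ (3 * (c.E + 7) * L) := by
    rw [hM]
    unfold M11
    have h1 := W10_le c0 n a
    rw [← hL] at h1
    calc W10 c0 n a ^ (c.E + 7) ≤ (2 ^ (L + 2)) ^ (c.E + 7) := Nat.pow_le_pow_left h1 _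
      _ = 2 ^ ((L + 2) * (c.E + 7)) := by rw [← pow_mul]
      _ ≤ 2 ^ (3 * (c.E + 7) * L) := by
        refine Nat.pow_le_pow_right (by norm_num) ?_
        calc (L + 2) * (c.E + 7) ≤ (3 * L) * (c.E + 7) := Nat.mul_le_mul_right _ (by omega)
          _ = 3 * (c.E + 7) * L := by ring
  have hM0 : 0 < M := by
    rw [hM]
    unfold M11 W10
    positivity
  have h2 : (d : ℝ) * ((n : ℝ) + 1) ^ (t + 1) * (2 * M) ≤ 2 ^ ((3 * c.E + t + 30) * L) := by
    have h3 : d * (n + 1) ^ (t + 1) * (2 * M) ≤ 2 ^ ((3 * c.E + t + 30) * L) := by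
      calc d * (n + 1) ^ (t + 1) * (2 * M) ≤
          2 ^ L * (2 ^ L) ^ (t + 1) * (2 ^ L * 2 ^ (3 * (c.E + 7) * L)) := by
            refine Nat.mul_le_mul (Nat.mul_le_mul hdL (Nat.pow_le_pow_left hnL _))
              (Nat.mul_le_mul ?_ hM1)
            calc 2 = 2 ^ 1 := by norm_num
              _ ≤ 2 ^ L := Nat.pow_le_pow_right (by norm_num) hL1
        _ = 2 ^ ((3 * c.E + t + 24) * L) := by
            rw [← pow_mul, ← pow_add, ← pow_add, ← pow_add]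
            congr 1
            ring
        _ ≤ _ := Nat.pow_le_pow_right (by norm_num) (Nat.mul_le_mul_right _ (by omega))
    exact_mod_cast h3
  rw [one_div_pow, mul_one_div, div_le_div_iff₀ (by positivity) (by positivity), one_mul]
  exact h2

theorem main11 (t d c0 : ℕ) (c : Cst11) (hd0 : d ≤ 2 ^ c0)
    (hc0 : ∀ L n a : ℕ, c0 ≤ L → 0 < a → n + 1 ≤ 2 ^ L → a ≤ 2 ^ L →
      ∃ (P E : ℕ → ℕ) (τ κ ν M Q1 σ : ℝ),
      Par11 a t d n (2 ^ (c.N * L)) (c.l * L) ((3 * c.E + t + 30) * L) (2 ^ (c.A * L))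
        (2 ^ (c.B * L)) (2 ^ (c.R * L)) (2 ^ (c.H * L)) (c.M * Nat.clog 2 L) P E τ
        ((1 / 2) ^ (c.E * L)) ((1 / 2) ^ (c.E * L)) κ ν M Q1 σ)
    (n a b m : ℕ) (f g0 : (Fin n → Bool) → Bool) (ha : 1 ≤ a)
    (hb : 1 ≤ b) (hu : Unate g0) (hg0 : CodDNF t d g0)
    (hfg : (QP11 c0 c).eval (n + a) * (Finset.univ.filter fun x => f x ≠ g0 x).card ≤ 2 ^ n)
    (hm : (QP11 c0 c).eval (n + a + Nat.clog 2 b) ≤ m) :
    (1 - 1 / (b : ℝ)) * ((2 : ℝ) ^ n) ^ m ≤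
      ((Finset.univ.filter fun ω : Fin m → Fin n → Bool =>
        err f (learn11 t d c0 c (n, a, smp f ω)) ≤ 1 / (a : ℝ)).card : ℝ) := by
  classical
  have ha' : (1 : ℝ) ≤ a := by exact_mod_cast ha
  obtain ⟨L, hL⟩ : ∃ L, L = LL c0 n a := ⟨_, rfl⟩
  have hL1 : 1 ≤ L := by rw [hL]; unfold LL; omega
  have hL0 : c0 ≤ L := by rw [hL]; unfold LL; omega
  have hnL : n + 1 ≤ 2 ^ L := by
    refine (Nat.le_pow_clog (b := 2) (by norm_num) (n + 1)).trans ?_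
    refine Nat.pow_le_pow_right (by norm_num) ?_
    rw [hL]; unfold LL; omega
  have haL : a ≤ 2 ^ L := by
    refine (Nat.le_pow_clog (b := 2) (by norm_num) a).trans ?_
    refine Nat.pow_le_pow_right (by norm_num) ?_
    rw [hL]; unfold LL; omega
  have hdL : d ≤ 2 ^ L := hd0.trans (Nat.pow_le_pow_right (by norm_num) hL0)
  obtain ⟨P, E, τ', κ, ν, Mr, Q1, σ, hP⟩ := hc0 L n a hL0 ha hnL haL
  have hWL : 2 ^ L ≤ W10 c0 n a := by rw [hL]; exact two_pow_LL_le c0 n a ha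
  obtain ⟨M, hM⟩ : ∃ M, M = M11 c c0 n a := ⟨_, rfl⟩
  have hW1 : 1 ≤ W10 c0 n a := le_trans Nat.one_le_two_pow hWL
  have hM1 : 1 ≤ M := by rw [hM]; exact Nat.one_le_pow _ _ hW1
  have hML : 2 ^ ((c.E + 7) * L) ≤ M := by
    rw [hM, mul_comm, pow_mul]
    exact Nat.pow_le_pow_left hWL _
  have hHL : 2 ^ (c.H * L) ≤ W10 c0 n a ^ c.H := by
    rw [mul_comm, pow_mul]
    exact Nat.pow_le_pow_left hWL _
  rw [eval_QP11] at hfg hm
  have hM0' : (0 : ℝ) < M := by exact_mod_cast hM1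
  obtain ⟨τ, hτ⟩ : ∃ τ : ℝ, τ = 1 / M := ⟨_, rfl⟩
  have hτ0 : 0 < τ := by rw [hτ]; positivity
  have hm1 : 4 * M ^ 2 * ((2 * n + 1) * (2 ^ (c.H * L) + 2) + 1 + Nat.clog 2 b) ≤ m := by
    refine le_trans ?_ hm
    have h1 : M ≤ M11 c c0 (n + a + Nat.clog 2 b) (n + a + Nat.clog 2 b) := by
      rw [hM]; exact M11_mono (by omega) (by omega)
    refine Nat.mul_le_mul (Nat.mul_le_mul_left _ (Nat.pow_le_pow_left h1 2)) ?_
    have h3 : W10 c0 n a ≤ W10 c0 (n + a + Nat.clog 2 b) (n + a + Nat.clog 2 b) :=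
      W10_mono (by omega) (by omega)
    have h4 := hHL.trans (Nat.pow_le_pow_left h3 c.H)
    have h2 : (2 * n + 1) * (2 ^ (c.H * L) + 2) ≤ (2 * (n + a + Nat.clog 2 b) + 1) *
        (W10 c0 (n + a + Nat.clog 2 b) (n + a + Nat.clog 2 b) ^ c.H + 2) :=
      Nat.mul_le_mul (by omega) (by omega)
    omega
  have hm0 : 0 < m := by
    have h1 : 0 < 4 * M ^ 2 := by positivity
    have h2 := Nat.mul_pos h1 (show 0 < (2 * n + 1) * (2 ^ (c.H * L) + 2) + 1 +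
      Nat.clog 2 b by omega)
    omega
  have hdst0 : dst f g0 ≤ 1 / (2 * M) := by
    unfold dst
    rw [div_le_div_iff₀ (by positivity) (by positivity), one_mul]
    have h1 : M ≤ M11 c c0 (n + a) (n + a) := by rw [hM]; exact M11_mono (by omega) (by omega)
    have h2 : 2 * M ≤ 4 * M11 c c0 (n + a) (n + a) ^ 2 *
        ((2 * (n + a) + 1) * (W10 c0 (n + a) (n + a) ^ c.H + 2) + 1 + (n + a)) := by
      calc 2 * M ≤ 2 * M11 c c0 (n + a) (n + a) := Nat.mul_le_mul_left _ h1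
        _ ≤ 2 * M11 c c0 (n + a) (n + a) ^ 2 :=
            Nat.mul_le_mul_left _ (Nat.le_self_pow (by norm_num) _)
        _ ≤ 4 * M11 c c0 (n + a) (n + a) ^ 2 := Nat.mul_le_mul_right _ (by norm_num)
        _ ≤ _ := Nat.le_mul_of_pos_right _ (by omega)
    have h3 := (Nat.mul_le_mul_right (Finset.univ.filter fun x => f x ≠ g0 x).card h2).trans hfg
    have h4 : (2 * M : ℝ) * ((Finset.univ.filter fun x => f x ≠ g0 x).card : ℝ) ≤
        2 ^ n := by exact_mod_cast h3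
    linarith
  have hmm : (4 : ℝ) * (M : ℝ) ^ 2 * ((2 * n + 1) * (2 ^ (c.H * L) + 2) + 1 +
      Nat.clog 2 b) ≤ m := by
    exact_mod_cast hm1
  clear hfg hm
  -- the target
  obtain ⟨o, ho0⟩ := exists_orient hu
  obtain ⟨g, F, ho, hgF, hcod, hlen, hanti, hdstg⟩ := exists_family11
    (ℓ := (3 * c.E + t + 30) * L) ho0 hg0 (by
      calc t ≤ t * L := Nat.le_mul_of_pos_right _ hL1
        _ ≤ (3 * c.E + t + 30) * L := Nat.mul_le_mul_right _ (by omega))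
  have hdst : dst f g ≤ τ := by
    have h1 := (dst_triangle f g0 g)
    have h2 := hdstg.trans (removed11 ha hL hL1 hM hnL hdL)
    have h3 : (1 : ℝ) / (2 * M) + 1 / (2 * M) = τ := by
      rw [hτ]
      field_simp
      norm_num
    linarith
  -- the precision
  have hτE : 128 * τ ≤ (1 / 2) ^ (c.E * L) := by
    have h1 : (2 : ℝ) ^ ((c.E + 7) * L) ≤ M := by exact_mod_cast hML
    have h2 : (128 : ℝ) * 2 ^ (c.E * L) ≤ 2 ^ ((c.E + 7) * L) := by
      have h3 : (128 : ℝ) = 2 ^ 7 := by norm_num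
      rw [h3, ← pow_add]
      apply pow_le_pow_right₀ (by norm_num)
      have h4 : (c.E + 7) * L = c.E * L + 7 * L := by ring
      rw [h4]
      omega
    rw [hτ, one_div_pow, mul_one_div, div_le_div_iff₀ hM0' (by positivity)]
    linarith
  refine rep10_of_large f g (2 ^ (c.H * L)) b hb τ hτ0 ?_ hdst ?_ _ ?_
  · rw [hτ, div_le_one hM0']
    exact_mod_cast hM1
  · rw [hτ, one_div_pow, mul_one_div, le_div_iff₀ (by positivity)]
    refine le_trans (le_of_eq ?_) hmm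
    push_cast
    ring
  intro ω hrep
  rw [← mu_errE_eq10]
  have hΘ : (1 : ℝ) / ((2 ^ (c.E * L) : ℕ) : ℝ) = (1 / 2) ^ (c.E * L) := by
    push_cast
    rw [one_div_pow]
  obtain ⟨h1, h2, h3⟩ := ori10 (Θ := 2 ^ (c.E * L)) hm0 (by positivity) ho hrep
    (hdst.trans (by linarith)) (by
      have e : (1 : ℝ) / (16 * ((2 ^ (c.E * L) : ℕ) : ℝ)) =
          1 / 16 * (1 / ((2 ^ (c.E * L) : ℕ) : ℝ)) := by
        rw [one_div_mul_one_div]
      rw [e, hΘ]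
      have h4 : (0 : ℝ) < (1 / 2) ^ (c.E * L) := by positivity
      linarith)
  rw [hΘ] at h3
  have hC : Ctx11 t d ((3 * c.E + t + 30) * L) f g o F (orient n (2 ^ (c.E * L)) (smp f ω)) ω
      (2 ^ (c.H * L)) ((1 / 2) ^ (c.E * L)) ((1 / 2) ^ (c.E * L)) :=
    ⟨hm0, ho, hgF, hcod, fun T hT A hA hne hsub => hne (hanti A hA T hT hsub), hlen, h1, h2, h3,
      fun v u R Z H q1 q2 q3 q4 q5 => (hrep v u R Z H q1 q2 q3 q4 q5).trans (by linarith)⟩
  have hlearn : learn11 t d c0 c (n, a, smp f ω) = coreV11 (2 ^ (c.N * L)) t d (K11 t d)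
      (B11 t d) (c.M * Nat.clog 2 L) (2 ^ (c.A * L)) (2 ^ (c.B * L)) (2 ^ (c.R * L))
      (lits11 n) (orient n (2 ^ (c.E * L)) (smp f ω)) (smp f ω) := by
    rw [hL]; rfl
  rw [hlearn]
  refine core11_error hC hP (hdst.trans ?_)
  -- `τ ≤ 1 / (2 a)`
  have h5 : (2 * a : ℝ) ≤ M := by
    have h6 : 2 * a ≤ M := by
      refine le_trans ?_ hML
      calc 2 * a ≤ 2 ^ L * 2 ^ L := by
            have : 2 ≤ 2 ^ L := by
              calc 2 = 2 ^ 1 := by norm_num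
                _ ≤ 2 ^ L := Nat.pow_le_pow_right (by norm_num) hL1
            exact Nat.mul_le_mul this haL
        _ = 2 ^ (2 * L) := by rw [← pow_add]; congr 1; ring
        _ ≤ 2 ^ ((c.E + 7) * L) :=
            Nat.pow_le_pow_right (by norm_num) (Nat.mul_le_mul_right _ (by omega))
    exact_mod_cast h6
  rw [hτ]
  exact one_div_le_one_div_of_le (by positivity) h5

end Pool.Agent.H.MP_cba12a_lc
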