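import Pool.Agent.H.MP_cba12a_lc.X11.Cn

/-!
Generic subsets of a term.
-/

namespace Pool.Agent.H.MP_cba12a_lc

open Finset

variable {n : ℕ} {F : Finset (Finset (Fin n))} {t d : ℕ}

/-- **Generic sets.** There is `R ⊆ T \ J` with `K` elements such that every member of `F` which
shares at most `g` elements with `T` shares at most `t + 1` elements with `R`. -/
theorem gen_R11 {g K : ℕ} (hF : Cod t d F) {T J : Finset (Fin n)} (hJ : J ⊆ T)
    (hnum : K ^ (t + 1) * d * g + K + J.card ≤ T.card) :
    ∃ R ⊆ T \ J, R.card = K ∧ ∀ A ∈ F, (A ∩ T).card ≤ g → (A ∩ R).card ≤ t + 1 := by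
  have key : ∀ k ≤ K, ∃ R ⊆ T \ J, R.card = k ∧
      ∀ A ∈ F, (A ∩ T).card ≤ g → (A ∩ R).card ≤ t + 1 := by
    intro k
    induction k with
    | zero =>
      intro _
      exact ⟨∅, empty_subset _, rfl, fun A _ _ => by simp⟩
    | succ k ih =>
      intro hk
      obtain ⟨R, hR, hRk, hRA⟩ := ih (by omega)
      obtain ⟨D, hD⟩ : ∃ D, D = (F.filter fun A => t + 1 ≤ (A ∩ R).card).filter
        fun A => (A ∩ T).card ≤ g := ⟨_, rfl⟩
      have hDc : D.card ≤ d * k ^ (t + 1) := by
        rw [hD]
        refine (card_le_card (filter_subset _ _)).trans ?_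
        have := card_meet11 hF R
        rwa [hRk] at this
      have hforb : ((J ∪ R) ∪ D.biUnion fun A => A ∩ T).card < T.card := by
        have h1 := card_union_le (J ∪ R) (D.biUnion fun A => A ∩ T)
        have h2 := card_union_le J R
        have h3 : (D.biUnion fun A => A ∩ T).card ≤ D.card * g := by
          refine (card_biUnion_le).trans ((sum_le_card_nsmul _ _ g ?_).trans
            (by rw [smul_eq_mul]))
          intro A hA
          rw [hD, mem_filter] at hA
          exact hA.2
        have h4 : D.card * g ≤ K ^ (t + 1) * d * g := by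
          refine Nat.mul_le_mul_right _ (hDc.trans ?_)
          rw [Nat.mul_comm]
          exact Nat.mul_le_mul_right _ (Nat.pow_le_pow_left (by omega) _)
        omega
      obtain ⟨r, hrT, hr⟩ := exists_mem_notMem_of_card_lt_card hforb
      rw [mem_union, mem_union, not_or, not_or] at hr
      refine ⟨insert r R, ?_, ?_, ?_⟩
      · refine insert_subset (mem_sdiff.2 ⟨hrT, hr.1.1⟩) hR
      · rw [card_insert_of_notMem hr.1.2, hRk]
      · intro A hA hAT
        by_cases hrA : r ∈ A
        · have h5 : (A ∩ R).card ≤ t := by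
            by_contra hcon
            refine hr.2 (mem_biUnion.2 ⟨A, ?_, mem_inter.2 ⟨hrA, hrT⟩⟩)
            rw [hD, mem_filter, mem_filter]
            exact ⟨⟨hA, by omega⟩, hAT⟩
          have h6 : (A ∩ insert r R).card ≤ (A ∩ R).card + 1 := by
            have h7 : A ∩ insert r R ⊆ insert r (A ∩ R) := by
              intro x hx
              rw [mem_inter, mem_insert] at hx
              rw [mem_insert, mem_inter]
              tauto
            exact (card_le_card h7).trans (card_insert_le _ _)
          omega
        · have h7 : A ∩ insert r R ⊆ A ∩ R := by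
            intro x hx
            rw [mem_inter, mem_insert] at hx
            rw [mem_inter]
            refine ⟨hx.1, ?_⟩
            rcases hx.2 with rfl | h
            · exact absurd hx.1 hrA
            · exact h
          exact (card_le_card h7).trans (hRA A hA hAT)
  exact key K le_rfl

/-- One variable outside `T` for each other member of `F` which shares more than `g` elements with
`T`. -/
theorem exists_B11 {g NB : ℕ} {T : Finset (Fin n)} (hmin : ∀ A ∈ F, A ≠ T → ¬ A ⊆ T)
    (hN : ((F.erase T).filter fun A => g < (A ∩ T).card).card ≤ NB) :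
    ∃ Bs : Finset (Fin n), Bs.card ≤ NB ∧ Disjoint Bs T ∧
      ∀ A ∈ F, A ≠ T → Disjoint A Bs → (A ∩ T).card ≤ g := by
  classical
  have h1 : ∀ A ∈ (F.erase T).filter (fun A => g < (A ∩ T).card), ∃ v, v ∈ A ∧ v ∉ T := by
    intro A hA
    rw [mem_filter, mem_erase] at hA
    exact not_subset.1 (hmin A hA.1.2 hA.1.1)
  choose v hv using h1
  refine ⟨((F.erase T).filter fun A => g < (A ∩ T).card).attach.image fun A => v A.1 A.2,
    card_image_le.trans (by rwa [card_attach]), ?_, ?_⟩
  · rw [disjoint_left]
    intro x hx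
    obtain ⟨A, hA, rfl⟩ := mem_image.1 hx
    exact (hv A.1 A.2).2
  · intro A hA hAT hdis
    by_contra hcon
    have hA' : A ∈ (F.erase T).filter (fun A => g < (A ∩ T).card) :=
      mem_filter.2 ⟨mem_erase.2 ⟨hAT, hA⟩, not_le.1 hcon⟩
    exact (disjoint_left.1 hdis) (hv A hA').1
      (mem_image.2 ⟨⟨A, hA'⟩, mem_attach _ _, rfl⟩)

end Pool.Agent.H.MP_cba12a_lc
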