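import Pool.Agent.H.MP_cba12a_lc.CodDefs

/-!
Monotonicity of the class in the two constants.
-/

namespace Pool.Agent.H.MP_cba12a_lc

theorem CodDNF.mono11 {n t d : ℕ} {g : (Fin n → Bool) → Bool} (h : CodDNF t d g) :
    CodDNF (t + 1) (d + 1) g := by
  obtain ⟨F, h1, h2⟩ := h
  refine ⟨F, h1, fun S hS => ?_⟩
  obtain ⟨S', hS', hc⟩ := Finset.exists_subset_card_eq (s := S) (n := t + 1) (by omega)
  refine le_trans (Finset.card_le_card ?_) ((h2 S' hc).trans (Nat.le_succ d))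
  intro T hT
  rw [Finset.mem_filter] at hT ⊢
  exact ⟨hT.1, hS'.trans hT.2⟩

end Pool.Agent.H.MP_cba12a_lc
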