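import Pool.Agent.H.MP_cba12a_lc.X11.Cov
import Pool.Agent.H.MP_cba12a_lc.X11.Prob

/-!
The noise, relative form.
-/

namespace Pool.Agent.H.MP_cba12a_lc

open Finset

variable {n : ℕ} {o : Fin n → Bool} {g : (Fin n → Bool) → Bool} {F H : Finset (Finset (Fin n))}
  {t d : ℕ}

/-- a larger family has more good extensions (induction on `k`) -/
theorem Chn11.mono {𝒢 𝒢' : Finset (Finset (Fin n))} (h : 𝒢 ⊆ 𝒢') {q : ℕ}
    {on : Finset (Fin n) → Prop} : ∀ (k : ℕ) (P : List (Finset (Fin n))),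
      Chn11 𝒢 q on k P → Chn11 𝒢' q on k P := by
  intro k
  induction k with
  | zero => intro P _; exact trivial
  | succ k ih =>
    rintro P ⟨A, hA, hg, hon, hc⟩
    exact ⟨A, h hA, hg, hon, ih (A :: P) hc⟩

/-- having a good extension which is on is an increasing event (induction on `k`) -/
theorem dnP_not_chn11 (𝒢 : Finset (Finset (Fin n))) (q k : ℕ) (P : List (Finset (Fin n))) :
    DnP o (fun x => ¬ Chn11 𝒢 q (fun A => On o A x) k P) := by
  induction k generalizing P with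
  | zero =>
    intro i x h
    exact absurd trivial h
  | succ k ih =>
    intro i x h hc
    obtain ⟨A, hA, hg, hon, hch⟩ := hc
    apply h
    refine ⟨A, hA, hg, ?_, ?_⟩
    · by_contra hn
      exact dnP_not_on o A i x hn hon
    · by_contra hn
      exact ih (A :: P) i x hn hch

/-- **Noise bound, relative form** (type 1). Proof: by `cov_chn11` (and `chn11_succ`, `Chn11.mono`;
every `G` is good for the empty list) the event implies `On J x`, that no member of `F` disjoint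
from `R` is on at `x`, and `CE (sOn R x)`, `CE y = Chn11 UG11 q (On · y) (k + 1) []`. By `pr_on` its
density is at most `2^{-|J|} Pr[no member disjoint from R on at sOn J x, CE (sOn (R ∪ J) x)]`, by
`harris_neg10` and `pr_disj10` (file `X10/Cov4.lean`, see the proof of `cov_le10` there) at most
`2^{-|J|} Pr[CE (sOn (R ∪ J) x)] 2^{|R|} Z(J)`, and `Pr[CE (sOn (R ∪ J) x)] ≤ 2^{|R| + |J|} Pr[CE]`
(`pr_sOn_le11`), `Pr[CE] ≤ f^(k+1)` by `prob11` with `P = []`, `G = ∅`, `E = True`. -/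
theorem noise1_11 {q k ℓ' m1 : ℕ} {W : ℝ} (hq : k + 1 ≤ q)
    (hgF : ∀ x, g x = true ↔ ∃ A ∈ F, On o A x) (hF : Cod t d F) {T J R Bs : Finset (Fin n)}
    (hJ : J ⊆ T) (hR : R ⊆ T) (hJR : Disjoint J R) (hBT : Disjoint Bs T)
    (hbig : ∀ A ∈ Nf F H, 4 * q * t < A.card) (hℓ' : ∀ A ∈ F, A.card ≤ ℓ')
    (hgen : ∀ A ∈ F, A ≠ T → Disjoint A Bs → (A ∩ R).card ≤ t + 1)
    (hk : (t + 1) * (k * (1 + d * (4 * q) ^ (t + 1)) + 1) ≤ R.card)
    (hm1 : ∀ A ∈ UG11 F H T R, m1 ≤ A.card) (hW : wt10 (UG11 F H T R) ≤ W) :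
    pr (fun x => On o J x ∧ Cov10 o F H T R x ∧ BOff o Bs x) ≤
      2 ^ (2 * R.card) * fb11 t d q ℓ' m1 W ^ (k + 1) * ZZ o g J := by
  have hq0 : 0 < q := by omega
  set CE : (Fin n → Bool) → Prop :=
    fun y => Chn11 (UG11 F H T R) q (fun A => On o A y) (k + 1) [] with hCE
  set D : (Fin n → Bool) → Prop :=
    fun x => ∀ A ∈ F, Disjoint A R → ¬ On o A (sOn o J x) with hD
  have hUG : UG11 F H T R ⊆ F := fun A hA => (mem_UG11.1 hA).2.1.1
  -- the noise event implies the existence of a chain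
  have h1 : pr (fun x => On o J x ∧ Cov10 o F H T R x ∧ BOff o Bs x) ≤
      pr (fun x => On o J x ∧ (CE (sOn o R x) ∧ ∀ A ∈ F, Disjoint A R → ¬ On o A x)) := by
    refine pr_mono ?_
    rintro x ⟨hJx, hcov, hB⟩
    refine ⟨hJx, ?_, hcov.2.1⟩
    obtain ⟨G, hG, hon, -, hch⟩ := cov_chn11 hq0 hF hR hBT hbig hgen hk hcov hB
    refine ⟨G, hG, ?_, hon, Chn11.mono (filter_subset _ _) k [G] hch⟩
    intro B hB'
    exact absurd hB' List.not_mem_nil
  rw [pr_on o J (fun x => CE (sOn o R x) ∧ ∀ A ∈ F, Disjoint A R → ¬ On o A x)] at h1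
  have h2 : pr (fun x => CE (sOn o R (sOn o J x)) ∧
      ∀ A ∈ F, Disjoint A R → ¬ On o A (sOn o J x)) ≤
      pr (fun x => CE (sOn o (R ∪ J) x)) * pr D := by
    have h3 : pr (fun x => CE (sOn o R (sOn o J x)) ∧
        ∀ A ∈ F, Disjoint A R → ¬ On o A (sOn o J x)) =
        pr (fun x => CE (sOn o (R ∪ J) x) ∧ D x) := by
      refine pr_congr fun x => ?_
      rw [sOn_sOn]
    rw [h3]
    refine harris_neg10 (o := o) ?_ ?_
    · exact (dnP_not_chn11 (UG11 F H T R) q (k + 1) []).sOn (R ∪ J)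
    · intro i x h A hA hd
      exact (dnP_not_on o A).sOn J i x (h A hA hd)
  have h4 : pr D ≤ 2 ^ R.card * ZZ o g J := pr_disj10 (g := g) hgF hJR
  have h5 : pr (fun x => CE (sOn o (R ∪ J) x)) ≤ 2 ^ (R ∪ J).card * pr CE :=
    pr_sOn_le11 CE (R ∪ J)
  have h6 : pr CE ≤ fb11 t d q ℓ' m1 W ^ (k + 1) := by
    have hE : DnP o (fun _ : Fin n → Bool => True) := fun i x _ => trivial
    have h7 := prob11 (o := o) hq0 (hF.mono hUG) (fun A hA => hℓ' A (hUG hA)) hm1 hW hE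
      (G := ∅) (k + 1) [] (by simpa using hq) (by simp) (by simp)
    have h8 : pr CE ≤ pr (fun x => On o (lU []) x ∧ True ∧
        Chn11 (UG11 F H T R) q (fun A => On o A x) (k + 1) []) := by
      refine pr_mono fun x hx => ⟨?_, trivial, hx⟩
      intro i hi
      rw [lU_nil] at hi
      exact absurd hi (notMem_empty i)
    refine h8.trans (h7.trans ?_)
    rw [lU_nil, empty_sdiff, card_empty, pow_zero, one_mul]
    have h9 : (0 : ℝ) ≤ fb11 t d q ℓ' m1 W ^ (k + 1) := by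
      have hW0 : 0 ≤ W := (wt10_nonneg _).trans hW
      unfold fb11
      positivity
    calc pr (fun x => On o ∅ x ∧ True) * fb11 t d q ℓ' m1 W ^ (k + 1) ≤
        1 * fb11 t d q ℓ' m1 W ^ (k + 1) := mul_le_mul_of_nonneg_right (pr_le_one _) h9
      _ = _ := one_mul _
  have h10 : (0 : ℝ) ≤ fb11 t d q ℓ' m1 W ^ (k + 1) := (pr_nonneg _).trans h6
  have h11 : pr (fun x => CE (sOn o (R ∪ J) x)) ≤
      2 ^ (R.card + J.card) * fb11 t d q ℓ' m1 W ^ (k + 1) := by
    refine h5.trans (mul_le_mul ?_ h6 (pr_nonneg _) (by positivity))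
    exact pow_le_pow_right₀ (by norm_num) (card_union_le R J)
  have h12 := mul_le_mul h11 h4 (pr_nonneg D) (by positivity)
  have h13 : (1 / 2 : ℝ) ^ J.card * 2 ^ J.card = 1 := by
    rw [← mul_pow]
    norm_num
  calc pr (fun x => On o J x ∧ Cov10 o F H T R x ∧ BOff o Bs x) ≤
      (1 / 2) ^ J.card * pr (fun x => CE (sOn o R (sOn o J x)) ∧
      ∀ A ∈ F, Disjoint A R → ¬ On o A (sOn o J x)) := h1
    _ ≤ (1 / 2) ^ J.card * (2 ^ (R.card + J.card) * fb11 t d q ℓ' m1 W ^ (k + 1) *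
        (2 ^ R.card * ZZ o g J)) :=
      mul_le_mul_of_nonneg_left (h2.trans h12) (by positivity)
    _ = ((1 / 2 : ℝ) ^ J.card * 2 ^ J.card) * (2 ^ (2 * R.card) *
        fb11 t d q ℓ' m1 W ^ (k + 1) * ZZ o g J) := by
      rw [two_mul, pow_add, pow_add]
      ring
    _ = _ := by rw [h13, one_mul]

end Pool.Agent.H.MP_cba12a_lc
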