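import Pool.Agent.H.MP_cba12a_lc.X11.Base
import Pool.Agent.H.MP_cba12a_lc.X10.NumD

/-!
The constants and the numerical conditions.
-/

namespace Pool.Agent.H.MP_cba12a_lc

open Finset

variable {n : ℕ}

/-- the length of an almost disjoint sequence of covering sets -/
def q11 (t : ℕ) : ℕ := 32 * (t + 1)

/-- bound for the number of sets close to a given set -/
def D11 (t d : ℕ) : ℕ := d * (4 * q11 t) ^ (t + 1)

/-- the size of `R` -/
def K11 (t d : ℕ) : ℕ := (t + 1) * ((q11 t - 1) * (1 + D11 t d) + 1)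

/-- a set sharing more than `|T| / De11` elements with `T` is special -/
def De11 (t d : ℕ) : ℕ := 4 * d * K11 t d ^ (t + 1)

/-- bound for the number of special sets, the size of the sets of variables which are off -/
def B11 (t d : ℕ) : ℕ := d * (2 * De11 t d) ^ (t + 1)

/-- bound for the number of sets sharing more than `s11` elements with `T` -/
def C11 (t d : ℕ) : ℕ := d * (32 * (t + 1)) ^ (t + 1)

/-- the size of the patterns which are small -/
def s11 (t m : ℕ) : ℕ := m / (16 * (t + 1))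

/-- the least size of a term for which the counting bounds hold -/
def m11 (t d : ℕ) : ℕ :=
  32 * t * (t + 1) + 2 * De11 t d * t + 2 * (K11 t d + 2 * t) + 4 * q11 t * t + 1

/-- bound for the weight of the unfound terms with at least `m` elements -/
noncomputable def W11 (ℓ : ℕ) (Q1 ν : ℝ) (m : ℕ) : ℝ :=
  (ℓ + 1) * (Q1 * (1 / 2) ^ (m - m / 4)) + ν

/-- **The numerical conditions.** `ℓ`: maximal length of the needed terms; `ℓ'`: maximal length of
all terms; `m0`: smallest length of an unfound term; `ν` bounds the weight of the terms longer than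
`ℓ`; `M` bounds the weight of the unfound terms with at most `ℓ` elements; `d (P m)^(t+1)` bounds
the number of exceptional terms with `m` elements; `Q1 2^{m/4}` bounds the number of unfound terms
with `m` elements; `κ` is the threshold for `w11`; `σ` bounds the signals from below. -/
structure Num11 (t d n ℓ ℓ' m0 : ℕ) (τ η κ ν M Q1 σ : ℝ) (P : ℕ → ℕ) (NH : ℕ) : Prop where
  ht : 1 ≤ t
  hd : 1 ≤ d
  τ_pos : 0 < τ
  η_nonneg : 0 ≤ η
  κ_pos : 0 < κ
  ν_nonneg : 0 ≤ ν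
  Q1_nonneg : 0 ≤ Q1
  σ_pos : 0 < σ
  m0_big : m11 t d ≤ m0
  m0_le : m0 ≤ ℓ
  ℓ_le : ℓ ≤ ℓ'
  /-- weight of the sets longer than `ℓ` -/
  long : d * ((n : ℝ) + 1) ^ (t + 1) * (1 / 2) ^ ℓ ≤ ν
  /-- `η` is small -/
  hη : NH * η ≤ (1 / 2) ^ (ℓ + C11 t d + 2) * τ
  σ1 : σ ≤ (1 / 2) ^ (ℓ + C11 t d + 2 + B11 t d) * τ
  σ2 : σ ≤ (1 / 2) ^ (B11 t d + 1) * κ
  /-- type 1 -/
  type1 : ∀ m, m0 ≤ m → m ≤ ℓ → 16 * (2 ^ (2 * K11 t d) *
    fb11 t d (q11 t) ℓ' (qq t m) (K11 t d * ((1 / 2) ^ qq t m + ν)) ^ q11 t) ≤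
      (1 / 2) ^ (m + C11 t d + 2 + B11 t d)
  /-- sparseness: number of exceptional terms plus number of terms with many heavy variables -/
  sparse : ∀ m, m0 ≤ m → m ≤ ℓ →
    d * (P m : ℝ) ^ (t + 1) + d * (ℓ * M * 2 ^ qq t m) ^ (t + 1) ≤ Q1 * 2 ^ (m / 4)
  /-- signal of type 2 -/
  sig2 : ∀ m, m0 ≤ m → m ≤ ℓ →
    2 ^ t * W11 ℓ Q1 ν m + d * (ℓ' : ℝ) ^ (t + 1) * (1 / 2) ^ (m / 2) ≤ 1 / 2
  /-- type 2, covering sets with at most `ℓ` elements -/
  type2 : ∀ m, m0 ≤ m → m ≤ ℓ → 64 * (2 ^ K11 t d * ((ℓ + 1) * (Q1 * 2 ^ (m / 4) *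
    fb11 t d (q11 t) ℓ' m (W11 ℓ Q1 ν m) ^ (q11 t - 1)))) ≤ (1 / 2) ^ (B11 t d + 1)
  /-- type 2, covering sets longer than `ℓ` -/
  type2L : 64 * (2 ^ K11 t d * (ν * fb11 t d (q11 t) ℓ' ℓ (W11 ℓ Q1 ν ℓ) ^ (q11 t - 1))) ≤
    (1 / 2) ^ (B11 t d + 1) * κ

end Pool.Agent.H.MP_cba12a_lc
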