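import Pool.Agent.H.MP_cba12a_lc.X11.NumI

/-!
The numerical hypotheses `Par11` hold for our choice of the parameters.
-/

namespace Pool.Agent.H.MP_cba12a_lc

variable {t d L m0 m n a : ℕ}

theorem exps11 (t d L : ℕ) : cH11 t d * L = 3 * (cN11 t d * L) + t * L + 4 * L ∧
    cB11 t d * L = 3 * (cN11 t d * L) + 4 * (t * L) + 18 * L ∧
    cE11 t d * L = 3 * (cN11 t d * L) + 8 * (t * L) + 38 * L ∧
    ll11 t L = 2 * (t * L) + 10 * L ∧
    (t + 2) * L = t * L + 2 * L ∧ (t + 3) * L = t * L + 3 * L ∧ (t + 4) * L = t * L + 4 * L ∧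
    (t + 5) * L = t * L + 5 * L ∧ (4 * t + 18) * L = 4 * (t * L) + 18 * L := by
  unfold cE11 cB11 cH11 ll11
  refine ⟨by ring, by ring, by ring, by ring, by ring, by ring, by ring, by ring, by ring⟩

theorem d_le11 (hB : Big11 t d L m0) : d < 2 ^ L := by
  have h1 := hB.kL
  rw [kparts11] at h1
  exact lt_of_le_of_lt (by omega) (Nat.lt_two_pow_self (n := L))

/-- `d (n+1)^k` -/
theorem dn_le11 (hB : Big11 t d L m0) (hn : n + 1 ≤ 2 ^ L) (k : ℕ) :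
    (d : ℝ) * ((n : ℝ) + 1) ^ k ≤ 2 ^ (L + L * k) := by
  have h1 : ((n : ℝ) + 1) ≤ 2 ^ L := by exact_mod_cast hn
  have h2 : (d : ℝ) ≤ 2 ^ L := by exact_mod_cast (d_le11 hB).le
  rw [pow_add, pow_mul]
  gcongr

theorem m0_le_L11 (hB : Big11 t d L m0) : m0 ≤ L := by
  have h1 := hB.sq
  nlinarith [Nat.zero_le m0, Nat.le_self_pow (n := 2) (by norm_num) m0]

/-- **The numerical conditions `Num11`.** -/
theorem num11_inst (ht : 1 ≤ t) (hd : 1 ≤ d) (hB : Big11 t d L m0) (hn : n + 1 ≤ 2 ^ L) :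
    Num11 t d n (ll11 t L) (lp11 t d L) m0 ((1 / 2) ^ ((t + 3) * L))
      (1 / ((2 ^ (cB11 t d * L) : ℕ) : ℝ) + (1 / 2) ^ (cE11 t d * L)) ((1 / 2) ^ ((t + 4) * L))
      ((1 / 2) ^ ((t + 5) * L)) (Mm11 t d L) (Qq11 t d L) ((1 / 2) ^ ((4 * t + 18) * L))
      (Pe11 t L) (2 ^ (cH11 t d * L)) := by
  obtain ⟨e1, e2, e3, e4, e5, e6, e7, e8, e9⟩ := exps11 t d L
  have hkL := hB.kL
  rw [kparts11] at hkL
  have hmL := m0_le_L11 hB
  refine
    { ht := ht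
      hd := hd
      τ_pos := by positivity
      η_nonneg := by positivity
      κ_pos := by positivity
      ν_nonneg := by positivity
      Q1_nonneg := by positivity
      σ_pos := by positivity
      m0_big := ?_
      m0_le := by omega
      ℓ_le := ?_
      long := ?_
      hη := ?_
      σ1 := ?_
      σ2 := ?_
      type1 := fun m hm hmℓ => type1num11 hB hm hmℓ
      sparse := fun m _ hmℓ => sparsenum11 hmℓ
      sig2 := fun m hm _ => sig2num11 hB hm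
      type2 := fun m hm hmℓ => type2num11 hB hm hmℓ
      type2L := type2Lnum11 hB (by omega) }
  · have h1 := kg11 hB le_rfl
    rw [kparts11] at h1
    have h2 : m0 / (64 * (t + 1)) ≤ m0 := Nat.div_le_self _ _
    omega
  · unfold ll11 lp11
    refine Nat.mul_le_mul_right _ ?_
    unfold cE11
    omega
  · have f1 : L * (t + 1) = t * L + L := by ring
    exact hp10' (dn_le11 hB hn (t + 1)) (by omega)
  · have h1 : (1 : ℝ) / ((2 ^ (cB11 t d * L) : ℕ) : ℝ) = (1 / 2) ^ (cB11 t d * L) := by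
      push_cast
      rw [one_div_pow]
    rw [h1]
    push_cast
    have h3 : (2 : ℝ) ^ (cH11 t d * L) * (1 / 2) ^ (cB11 t d * L) ≤
        (1 / 2) ^ (ll11 t L + C11 t d + 2 + (t + 3) * L + 1) := hp10 (by omega)
    have h4 : (2 : ℝ) ^ (cH11 t d * L) * (1 / 2) ^ (cE11 t d * L) ≤
        (1 / 2) ^ (ll11 t L + C11 t d + 2 + (t + 3) * L + 1) := hp10 (by omega)
    have h5 : (1 / 2 : ℝ) ^ (ll11 t L + C11 t d + 2 + (t + 3) * L + 1) =
        (1 / 2) ^ (ll11 t L + C11 t d + 2) * (1 / 2) ^ ((t + 3) * L) / 2 := by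
      rw [pow_succ, pow_add]
      ring
    rw [h5] at h3 h4
    rw [mul_add]
    linarith
  · rw [← pow_add]
    exact half_anti (by omega)
  · rw [← pow_add]
    exact half_anti (by omega)

theorem ext11_num : 8 * 4 ^ e11 t d m * Real.log (2 * ((2 ^ (cB11 t d * L) : ℕ) : ℝ)) ≤
    (Px11 t d L m : ℝ) := by
  have h1 : 2 * ((2 ^ (cB11 t d * L) : ℕ) : ℝ) = 2 ^ (cB11 t d * L + 1) := by
    push_cast
    rw [pow_succ]
    ring
  rw [h1]
  have h2 := log_two_pow_le10 (cB11 t d * L + 1)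
  unfold Px11
  push_cast at h2 ⊢
  exact mul_le_mul_of_nonneg_left h2 (by positivity)

theorem e11_mono {m m' : ℕ} (h : m ≤ m') : e11 t d m ≤ e11 t d m' := by
  unfold e11
  have h1 := Nat.mul_le_mul_left d (Nat.pow_le_pow_left h (t + 1))
  omega

theorem chain11_num (hB : Big11 t d L m0) (hm : m < m0) :
    Px11 t d L m ^ m ≤ 2 ^ (cN11 t d * L) := by
  have hkL := hB.kL
  rw [kparts11] at hkL
  have h1 : cB11 t d * L + 1 ≤ 2 ^ (cB11 t d + 1 + Nat.clog 2 L) := by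
    have h2 : L ≤ 2 ^ Nat.clog 2 L := Nat.le_pow_clog (by norm_num) L
    have h3 : cB11 t d + 1 ≤ 2 ^ (cB11 t d + 1) := Nat.lt_two_pow_self.le
    rw [pow_add]
    calc cB11 t d * L + 1 ≤ (cB11 t d + 1) * L := by rw [add_mul, one_mul]; omega
      _ ≤ _ := Nat.mul_le_mul h3 h2
  have h2 : Px11 t d L m ≤ 2 ^ (3 + 2 * e11 t d m0 + (cB11 t d + 1 + Nat.clog 2 L)) := by
    unfold Px11
    have h4 : 8 * 4 ^ e11 t d m = 2 ^ (3 + 2 * e11 t d m) := by
      rw [show (4 : ℕ) = 2 ^ 2 by norm_num, show (8 : ℕ) = 2 ^ 3 by norm_num, ← pow_mul, ← pow_add]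
    rw [h4, pow_add 2 (3 + 2 * e11 t d m0)]
    refine Nat.mul_le_mul (Nat.pow_le_pow_right (by norm_num) ?_) h1
    have := e11_mono (t := t) (d := d) hm.le
    omega
  calc Px11 t d L m ^ m ≤ (2 ^ (3 + 2 * e11 t d m0 + (cB11 t d + 1 + Nat.clog 2 L))) ^ m :=
        Nat.pow_le_pow_left h2 m
    _ ≤ (2 ^ (3 + 2 * e11 t d m0 + (cB11 t d + 1 + Nat.clog 2 L))) ^ m0 :=
        Nat.pow_le_pow_right (by positivity) hm.le
    _ = 2 ^ ((3 + 2 * e11 t d m0 + (cB11 t d + 1 + Nat.clog 2 L)) * m0) := by rw [← pow_mul]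
    _ ≤ 2 ^ L := Nat.pow_le_pow_right (by norm_num) hB.ch
    _ ≤ _ := Nat.pow_le_pow_right (by norm_num) (Nat.le_mul_of_pos_left _ (by
        unfold cN11 K11
        positivity))

theorem NH11 (hB : Big11 t d L m0) : (2 ^ (cN11 t d * L) + 1) + m0 ^ 2 *
    (2 ^ (cN11 t d * L) + 1) + 2 ^ ((t + 3) * L) * (2 ^ (cN11 t d * L) + 1) ^ 3 ≤
    2 ^ (cH11 t d * L) := by
  have hkL := hB.kL
  rw [kparts11] at hkL
  obtain ⟨e1, -, -, -, -, e6, -, -, -⟩ := exps11 t d L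
  have hl : m0 ^ 2 ≤ 2 ^ L := hB.sq.trans (Nat.lt_two_pow_self (n := L)).le
  set N := 2 ^ (cN11 t d * L) with hN
  have hN1 : 1 ≤ N := Nat.one_le_two_pow
  have h1 : N + 1 ≤ 2 * N := by omega
  have h3 : (N + 1) ^ 3 ≤ 8 * N ^ 3 := by
    calc (N + 1) ^ 3 ≤ (2 * N) ^ 3 := Nat.pow_le_pow_left h1 3
      _ = _ := by ring
  have hNN : N ≤ N ^ 3 := Nat.le_self_pow (by norm_num) N
  have hLR : 2 ^ L ≤ 2 ^ ((t + 3) * L) :=
    Nat.pow_le_pow_right (by norm_num) (Nat.le_mul_of_pos_left _ (by omega))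
  have hR1 : 1 ≤ 2 ^ ((t + 3) * L) := Nat.one_le_two_pow
  set R := 2 ^ ((t + 3) * L) with hR
  have h4 : m0 ^ 2 * (N + 1) ≤ R * (2 * N ^ 3) := by
    calc m0 ^ 2 * (N + 1) ≤ R * (2 * N) := Nat.mul_le_mul (hl.trans hLR) h1
      _ ≤ _ := Nat.mul_le_mul_left _ (Nat.mul_le_mul_left _ hNN)
  have h5 : N + 1 ≤ R * (2 * N ^ 3) := by
    calc N + 1 ≤ 2 * N := h1
      _ ≤ 2 * N ^ 3 := Nat.mul_le_mul_left _ hNN
      _ ≤ _ := Nat.le_mul_of_pos_left _ hR1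
  have h6 : R * (N + 1) ^ 3 ≤ R * (8 * N ^ 3) := Nat.mul_le_mul_left _ h3
  have h8 : 16 * (R * N ^ 3) ≤ 2 ^ (cH11 t d * L) := by
    rw [hR, hN, ← pow_mul, ← pow_add, show (16 : ℕ) = 2 ^ 4 by norm_num, ← pow_add]
    refine Nat.pow_le_pow_right (by norm_num) ?_
    omega
  have e7 : R * (2 * N ^ 3) = 2 * (R * N ^ 3) := by ring
  have e8 : R * (8 * N ^ 3) = 8 * (R * N ^ 3) := by ring
  rw [e7] at h4 h5
  rw [e8] at h6
  omega

/-- the error terms -/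
theorem err11 (hB : Big11 t d L m0) (ha0 : 0 < a) (hn : n + 1 ≤ 2 ^ L) (ha : a ≤ 2 ^ L) :
    (d : ℝ) * ((n : ℝ) + 1) ^ (t + 1) * (1 / 2) ^ ((t + 4) * L) + (1 / 2) ^ ((t + 5) * L) +
      ((n : ℝ) + 1) ^ t * (1 / ((2 ^ ((t + 2) * L) : ℕ) : ℝ) + (1 / 2) ^ (cE11 t d * L)) +
      ((2 ^ (cH11 t d * L) : ℕ) : ℝ) * (1 / ((2 ^ (cB11 t d * L) : ℕ) : ℝ) +
        (1 / 2) ^ (cE11 t d * L)) ≤ 1 / (2 * (a : ℝ)) := by
  have hkL := hB.kL
  rw [kparts11] at hkL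
  obtain ⟨e1, e2, e3, e4, e5, e6, e7, e8, e9⟩ := exps11 t d L
  have hnr : ((n : ℝ) + 1) ≤ 2 ^ L := by exact_mod_cast hn
  have har : (a : ℝ) ≤ 2 ^ L := by exact_mod_cast ha
  have ha0r : (0 : ℝ) < a := by exact_mod_cast ha0
  have hn2 : ((n : ℝ) + 1) ^ t ≤ 2 ^ (L * t) := by
    rw [pow_mul]
    exact pow_le_pow_left₀ (by positivity) hnr _
  have f1 : L * (t + 1) = t * L + L := by ring
  have f2 : L * t = t * L := by ring
  have g1 : (d : ℝ) * ((n : ℝ) + 1) ^ (t + 1) * (1 / 2) ^ ((t + 4) * L) ≤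
      (1 / 2) ^ (L + 4) := hp10' (dn_le11 hB hn (t + 1)) (by omega)
  have g2 : ((1 : ℝ) / 2) ^ ((t + 5) * L) ≤ (1 / 2) ^ (L + 4) := half_anti (by omega)
  have g3 : ((n : ℝ) + 1) ^ t * (1 / ((2 ^ ((t + 2) * L) : ℕ) : ℝ)) ≤ (1 / 2) ^ (L + 4) := by
    push_cast
    rw [← one_div_pow]
    exact hp10' hn2 (by omega)
  have g4 : ((n : ℝ) + 1) ^ t * (1 / 2) ^ (cE11 t d * L) ≤ (1 / 2) ^ (L + 4) :=
    hp10' hn2 (by omega)
  have g5 : ((2 ^ (cH11 t d * L) : ℕ) : ℝ) * (1 / ((2 ^ (cB11 t d * L) : ℕ) : ℝ)) ≤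
      (1 / 2) ^ (L + 4) := by
    push_cast
    rw [← one_div_pow]
    exact hp10 (by omega)
  have g6 : ((2 ^ (cH11 t d * L) : ℕ) : ℝ) * (1 / 2) ^ (cE11 t d * L) ≤ (1 / 2) ^ (L + 4) := by
    push_cast
    exact hp10 (by omega)
  have g7 : 8 * ((1 : ℝ) / 2) ^ (L + 4) ≤ 1 / (2 * (a : ℝ)) := by
    have h1 : 8 * ((1 : ℝ) / 2) ^ (L + 4) = 1 / (2 * 2 ^ L) := by
      rw [pow_add, one_div_pow, one_div_pow]
      field_simp
      norm_num
    rw [h1]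
    exact one_div_le_one_div_of_le (by positivity) (by linarith)
  have h0 : (0 : ℝ) ≤ (1 / 2) ^ (L + 4) := by positivity
  rw [mul_add (((n : ℝ) + 1) ^ t), mul_add (((2 ^ (cH11 t d * L) : ℕ) : ℝ))]
  linarith

/-- **The choice of the parameters.** -/
theorem par11_inst (ht : 1 ≤ t) (hd : 1 ≤ d) (hB : Big11 t d L m0) (ha0 : 0 < a)
    (hn : n + 1 ≤ 2 ^ L) (ha : a ≤ 2 ^ L) :
    Par11 a t d n (2 ^ (cN11 t d * L)) (ll11 t L) (lp11 t d L) (2 ^ ((t + 2) * L))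
      (2 ^ (cB11 t d * L)) (2 ^ ((t + 3) * L)) (2 ^ (cH11 t d * L)) m0 (Px11 t d L) (Pe11 t L)
      ((1 / 2) ^ ((t + 3) * L)) ((1 / 2) ^ (cE11 t d * L)) ((1 / 2) ^ (cE11 t d * L))
      ((1 / 2) ^ ((t + 4) * L)) ((1 / 2) ^ ((t + 5) * L)) (Mm11 t d L) (Qq11 t d L)
      ((1 / 2) ^ ((4 * t + 18) * L)) := by
  have hkL := hB.kL
  rw [kparts11] at hkL
  obtain ⟨e1, e2, e3, e4, e5, e6, e7, e8, e9⟩ := exps11 t d L
  have hex := hB.ex
  have f1 : L * (t + 1) = t * L + L := by ring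
  have hta : ((t : ℝ)) * 2 ^ t ≤ 2 ^ (2 * t) := by
    have h1 : (t : ℝ) ≤ 2 ^ t := by exact_mod_cast Nat.lt_two_pow_self.le
    calc (t : ℝ) * 2 ^ t ≤ 2 ^ t * 2 ^ t := mul_le_mul_of_nonneg_right h1 (by positivity)
      _ = _ := by rw [← pow_add]; congr 1; ring
  have hcap : ∀ k, k ≤ cN11 t d → (n + 1) ^ k ≤ 2 ^ (cN11 t d * L) := by
    intro k hk
    calc (n + 1) ^ k ≤ (2 ^ L) ^ k := Nat.pow_le_pow_left hn _
      _ = 2 ^ (k * L) := by rw [← pow_mul, mul_comm]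
      _ ≤ _ := Nat.pow_le_pow_right (by norm_num) (Nat.mul_le_mul_right _ hk)
  refine
    { num := num11_inst ht hd hB hn
      a_pos := ha0
      A_pos := by positivity
      B_pos := by positivity
      η_nonneg := by positivity
      ι_nonneg := by positivity
      capJ := hcap _ (by unfold cN11; omega)
      capK := hcap _ (by unfold cN11; omega)
      capB := ?_
      ext := fun m _ => ext11_num
      chain := fun m hm => chain11_num hB hm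
      ηB := ?_
      ιB := ?_
      τA := ?_
      τ1 := ?_
      ση := ?_
      σι := ?_
      exc := ?_
      Mb := ?_
      R0b := ?_
      NHb := NH11 hB
      err := err11 hB ha0 hn ha }
  · have h1 : 2 * n + 1 ≤ 2 ^ (2 * L) := by
      have h2 : 2 ^ (2 * L) = 2 ^ L * 2 ^ L := by rw [two_mul, pow_add]
      have h3 : 2 ≤ 2 ^ L := by
        calc 2 = 2 ^ 1 := by norm_num
          _ ≤ _ := Nat.pow_le_pow_right (by norm_num) (by omega)
      rw [h2]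
      nlinarith
    calc (2 * n + 1) ^ B11 t d ≤ (2 ^ (2 * L)) ^ B11 t d := Nat.pow_le_pow_left h1 _
      _ = 2 ^ (2 * B11 t d * L) := by rw [← pow_mul]; congr 1; ring
      _ ≤ _ := Nat.pow_le_pow_right (by norm_num) (Nat.mul_le_mul_right _ (by
        unfold cN11; omega))
  · have h : 8 * ((1 : ℝ) / 2) ^ (cE11 t d * L) * ((2 ^ (cB11 t d * L) : ℕ) : ℝ) *
        2 ^ e11 t d m0 = 2 ^ (3 + cB11 t d * L + e11 t d m0) *
        (1 / 2) ^ (cE11 t d * L) := by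
      have e : (2 : ℝ) ^ (3 + cB11 t d * L + e11 t d m0) =
          2 ^ 3 * 2 ^ (cB11 t d * L) * 2 ^ e11 t d m0 := by
        rw [pow_add, pow_add (2 : ℝ) 3]
      push_cast
      rw [e]
      ring
    rw [h]
    have := hp10 (i := 3 + cB11 t d * L + e11 t d m0) (j := cE11 t d * L) (k := 0) (by omega)
    simpa using this
  · have h : 4 * ((1 : ℝ) / 2) ^ (cE11 t d * L) * ((2 ^ (cB11 t d * L) : ℕ) : ℝ) *
        2 ^ e11 t d m0 = 2 ^ (2 + cB11 t d * L + e11 t d m0) *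
        (1 / 2) ^ (cE11 t d * L) := by
      have e : (2 : ℝ) ^ (2 + cB11 t d * L + e11 t d m0) =
          2 ^ 2 * 2 ^ (cB11 t d * L) * 2 ^ e11 t d m0 := by
        rw [pow_add, pow_add (2 : ℝ) 2]
      push_cast
      rw [e]
      ring
    rw [h]
    have := hp10 (i := 2 + cB11 t d * L + e11 t d m0) (j := cE11 t d * L) (k := 0) (by omega)
    simpa using this
  · have h1 : ((1 : ℝ) / 2) ^ ((t + 3) * L) ≤ (1 / 2) ^ ((t + 2) * L + 2) := half_anti (by omega)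
    have h2 : ((1 : ℝ) / 2) ^ (cE11 t d * L) ≤ (1 / 2) ^ ((t + 2) * L + 2) := half_anti (by omega)
    have h3 : (t : ℝ) * 2 ^ t * (1 / 2) ^ (cE11 t d * L) ≤ (1 / 2) ^ ((t + 2) * L + 2) :=
      hp10' hta (by omega)
    have h4 : (1 : ℝ) / ((2 ^ ((t + 2) * L) : ℕ) : ℝ) = 4 * (1 / 2) ^ ((t + 2) * L + 2) := by
      push_cast
      rw [← one_div_pow, pow_add]
      ring
    have h5 : (0 : ℝ) ≤ (1 / 2) ^ ((t + 2) * L + 2) := by positivity
    rw [h4]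
    linarith
  · rw [log_tau10]
    have h1 : (2 : ℝ) ≤ ((t + 3) * L : ℕ) := by
      have : 2 ≤ (t + 3) * L := by omega
      exact_mod_cast this
    have h2 := Real.log_two_gt_d9
    nlinarith
  · exact hp10' (i := 8) (by norm_num) (by omega)
  · have h1 : 2 * ((1 : ℝ) / 2) ^ (cE11 t d * L) ≤ (1 / 2) ^ ((4 * t + 18) * L) :=
      hp10' (i := 1) (by norm_num) (by omega)
    have h2 : (0 : ℝ) < (1 / 2) ^ (cE11 t d * L) := by positivity
    linarith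
  · intro m _ _
    have h1 := log_tau_le10 ((t + 3) * L)
    unfold Pe11
    push_cast at h1 ⊢
    gcongr
  · have h1 := log_tau_le10 ((t + 3) * L)
    have h2 : 0 ≤ Real.log (1 / ((1 / 2 : ℝ) ^ ((t + 3) * L))) := by
      rw [log_tau10]
      positivity
    unfold Mm11
    push_cast at h1 ⊢
    gcongr
  · have h1 : d * n ^ (t + 1) ≤ 2 ^ (L + L * (t + 1)) := by
      rw [pow_add 2, pow_mul 2]
      exact Nat.mul_le_mul (d_le11 hB).le (Nat.pow_le_pow_left (by omega) _)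
    refine h1.trans_lt ?_
    exact Nat.pow_lt_pow_right (by norm_num) (by omega)

end Pool.Agent.H.MP_cba12a_lc
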