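import Pool.Agent.H.MP_cba12a_lc.X11.Fin
import Pool.Agent.H.MP_cba12a_lc.X11.ParI

/-!
The exponents of the learner.
-/

namespace Pool.Agent.H.MP_cba12a_lc

/-- **The parameters exist.** -/
theorem exists_cst11 (t d : ℕ) (ht : 1 ≤ t) (hd : 1 ≤ d) : ∃ (c0 : ℕ) (c : Cst11), d ≤ 2 ^ c0 ∧
    (∀ L, c0 ≤ L → ex11 t d (c.M * Nat.clog 2 L) ≤ L) ∧
    ∀ L n a : ℕ, c0 ≤ L → 0 < a → n + 1 ≤ 2 ^ L → a ≤ 2 ^ L →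
      ∃ (P E : ℕ → ℕ) (τ κ ν M Q1 σ : ℝ),
      Par11 a t d n (2 ^ (c.N * L)) (c.l * L) ((3 * c.E + t + 30) * L) (2 ^ (c.A * L))
        (2 ^ (c.B * L)) (2 ^ (c.R * L)) (2 ^ (c.H * L)) (c.M * Nat.clog 2 L) P E τ
        ((1 / 2) ^ (c.E * L)) ((1 / 2) ^ (c.E * L)) κ ν M Q1 σ := by
  obtain ⟨c0, M, hM⟩ := exists_big11 t d
  have h0 := hM c0 le_rfl
  refine ⟨c0, ⟨cN11 t d, 2 * (t + 5), t + 2, cB11 t d, t + 3, cH11 t d, cE11 t d, M⟩,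
    (d_le11 h0).le, fun L hL => (hM L hL).ex, fun L n a hL ha hn haL => ?_⟩
  exact ⟨_, _, _, _, _, _, _, _, par11_inst ht hd (hM L hL) ha hn haL⟩

end Pool.Agent.H.MP_cba12a_lc
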