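import Pool.Agent.H.MP_cba12a_lc.X11.NumP
import Pool.Agent.H.MP_cba12a_lc.X10.ParK

/-!
The numerical conditions `Num11` hold for our choice of the parameters.
-/

namespace Pool.Agent.H.MP_cba12a_lc

variable {t d L m0 m n : ℕ}

theorem kg11 (hB : Big11 t d L m0) (hm : m0 ≤ m) : kc11 t d ≤ m / (64 * (t + 1)) := by
  have h1 : 2 ^ kc11 t d ≤ 2 ^ (m / (64 * (t + 1))) := by
    refine le_trans ?_ (hB.g m hm)
    unfold G11
    exact Nat.le_mul_of_pos_right _ (by positivity)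
  exact (Nat.pow_le_pow_iff_right (by norm_num)).1 h1

theorem kparts11 (t d : ℕ) : kc11 t d = C11 t d + B11 t d + 2 * K11 t d + 32 * (t + 1) +
    q11 t * t + q11 t + m11 t d + t + d + 20 := rfl

theorem Gr11 (hB : Big11 t d L m0) (hm : m0 ≤ m) :
    (G11 t d L : ℝ) ≤ 2 ^ (m / (64 * (t + 1))) := by
  exact_mod_cast hB.g m hm

/-- the parts of the bound -/
theorem G_parts11 (t d L : ℕ) : (G11 t d L : ℝ) = 2 ^ kc11 t d * (((ll11 t L : ℝ) + 1) *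
    (Qq11 t d L : ℝ) + (d : ℝ) * (lp11 t d L : ℝ) ^ (t + 1) + 1) := by
  unfold G11
  push_cast
  ring

theorem g_le11 (t m : ℕ) : (t + 1) * (m / (64 * (t + 1))) ≤ m / 64 := by
  rw [Nat.le_div_iff_mul_le (by norm_num)]
  have := Nat.div_mul_le_self m (64 * (t + 1))
  nlinarith

/-- the arithmetic of type 1 -/
theorem type1_arith11 (t m : ℕ) : 3 * m ≤ q11 t * (qq t m / 2 - m / (64 * (t + 1))) +
    32 * (t + 1) ∧ m / (64 * (t + 1)) ≤ qq t m / 2 := by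
  have e1 : qq t m / 2 = m / (8 * (t + 1)) := by
    unfold qq
    rw [Nat.div_div_eq_div_mul]
    congr 1
    ring
  have e2 : m / (64 * (t + 1)) = m / (8 * (t + 1)) / 8 := by
    rw [Nat.div_div_eq_div_mul]
    congr 1
    ring
  rw [e1, e2]
  set y := m / (8 * (t + 1)) with hy
  have h1 : y * (8 * (t + 1)) ≤ m := Nat.div_mul_le_self _ _
  have h2 : m < 8 * (t + 1) * (y + 1) := Nat.lt_mul_div_succ _ (by positivity)
  refine ⟨?_, by omega⟩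
  obtain ⟨z, hz⟩ : ∃ z, y - y / 8 = z := ⟨_, rfl⟩
  rw [hz]
  have h3 : 7 * y ≤ 8 * z := by omega
  unfold q11
  have h4 : (t + 1) * (7 * y) ≤ (t + 1) * (8 * z) := Nat.mul_le_mul_left _ h3
  have e3 : y * (8 * (t + 1)) = 8 * ((t + 1) * y) := by ring
  have e4 : 8 * (t + 1) * (y + 1) = 8 * ((t + 1) * y) + 8 * (t + 1) := by ring
  have e5 : (t + 1) * (7 * y) = 7 * ((t + 1) * y) := by ring
  have e6 : (t + 1) * (8 * z) = 8 * ((t + 1) * z) := by ring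
  have e7 : 32 * (t + 1) * z = 32 * ((t + 1) * z) := by ring
  rw [e3] at h1
  rw [e4] at h2
  rw [e5, e6] at h4
  rw [e7]
  omega

theorem qd_le11 (t d L : ℕ) : (q11 t : ℝ) * d * (lp11 t d L : ℝ) ^ (t + 1) ≤
    2 ^ kc11 t d * ((d : ℝ) * (lp11 t d L : ℝ) ^ (t + 1)) := by
  have h1 : (q11 t : ℝ) ≤ 2 ^ kc11 t d := by
    have h2 : q11 t ≤ 2 ^ kc11 t d := (Nat.lt_two_pow_self (n := q11 t)).le.trans
      (Nat.pow_le_pow_right (by norm_num) (by rw [kparts11]; omega))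
    exact_mod_cast h2
  rw [mul_assoc]
  exact mul_le_mul_of_nonneg_right h1 (by positivity)

/-- the bound for one covering set of type 1 -/
theorem fb1_11 (hB : Big11 t d L m0) (hm : m0 ≤ m) (hmℓ : m ≤ ll11 t L) :
    fb11 t d (q11 t) (lp11 t d L) (qq t m)
      (K11 t d * ((1 / 2) ^ qq t m + (1 / 2) ^ ((t + 5) * L))) ≤
      (1 / 2) ^ (qq t m / 2 - m / (64 * (t + 1))) := by
  obtain ⟨_, h2⟩ := type1_arith11 t m
  set X : ℝ := (1 / 2) ^ (qq t m / 2) with hX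
  have hX0 : 0 ≤ X := by positivity
  have a1 : (1 / 2 : ℝ) ^ qq t m ≤ X := half_anti (Nat.div_le_self _ _)
  have a2 : (1 / 2 : ℝ) ^ ((t + 5) * L) ≤ X := by
    refine half_anti ?_
    have h3 : qq t m ≤ m := Nat.div_le_self _ _
    have h4 : qq t m / 2 ≤ m / 2 := Nat.div_le_div_right h3
    have h5 : m / 2 ≤ ll11 t L / 2 := Nat.div_le_div_right hmℓ
    have h6 : ll11 t L / 2 = (t + 5) * L := by
      unfold ll11
      rw [show 2 * (t + 5) * L = 2 * ((t + 5) * L) by ring]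
      exact Nat.mul_div_cancel_left _ (by norm_num)
    omega
  have a3 : (2 : ℝ) ^ (q11 t * t) * (K11 t d * 2) ≤ 2 ^ kc11 t d := by
    have h3 : (K11 t d : ℝ) ≤ 2 ^ K11 t d := by
      exact_mod_cast (Nat.lt_two_pow_self (n := K11 t d)).le
    calc (2 : ℝ) ^ (q11 t * t) * (K11 t d * 2) ≤ 2 ^ (q11 t * t) * (2 ^ K11 t d * 2) := by gcongr
      _ = 2 ^ (q11 t * t + (K11 t d + 1)) := by rw [pow_add, pow_succ]
      _ ≤ _ := pow_le_pow_right₀ (by norm_num) (by rw [kparts11]; omega)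
  have a4 := qd_le11 t d L
  have a5 := Gr11 hB hm
  rw [G_parts11] at a5
  have hl : (0 : ℝ) ≤ ((ll11 t L : ℝ) + 1) * (Qq11 t d L : ℝ) := by positivity
  have hk : (0 : ℝ) < 2 ^ kc11 t d := by positivity
  unfold fb11
  calc (2 : ℝ) ^ (q11 t * t) * (K11 t d * ((1 / 2) ^ qq t m + (1 / 2) ^ ((t + 5) * L))) +
      q11 t * d * (lp11 t d L : ℝ) ^ (t + 1) * (1 / 2) ^ (qq t m / 2)
      ≤ (2 : ℝ) ^ (q11 t * t) * (K11 t d * (X + X)) +
        q11 t * d * (lp11 t d L : ℝ) ^ (t + 1) * X := by gcongr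
    _ = ((2 : ℝ) ^ (q11 t * t) * (K11 t d * 2) + q11 t * d * (lp11 t d L : ℝ) ^ (t + 1)) * X := by
        ring
    _ ≤ 2 ^ (m / (64 * (t + 1))) * X := by
        refine mul_le_mul_of_nonneg_right ?_ hX0
        refine le_trans ?_ a5
        nlinarith
    _ ≤ _ := hp10 (by omega)

theorem type1num11 (hB : Big11 t d L m0) (hm : m0 ≤ m) (hmℓ : m ≤ ll11 t L) :
    16 * (2 ^ (2 * K11 t d) * fb11 t d (q11 t) (lp11 t d L) (qq t m)
      (K11 t d * ((1 / 2) ^ qq t m + (1 / 2) ^ ((t + 5) * L))) ^ q11 t) ≤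
      (1 / 2 : ℝ) ^ (m + C11 t d + 2 + B11 t d) := by
  have h1 := fb1_11 hB hm hmℓ
  obtain ⟨h2, _⟩ := type1_arith11 t m
  have hk := kg11 hB hm
  rw [kparts11] at hk
  have hg : m / (64 * (t + 1)) ≤ m := Nat.div_le_self _ _
  have h0 : 0 ≤ fb11 t d (q11 t) (lp11 t d L) (qq t m)
      (K11 t d * ((1 / 2) ^ qq t m + (1 / 2) ^ ((t + 5) * L))) := by
    unfold fb11
    positivity
  calc 16 * (2 ^ (2 * K11 t d) * fb11 t d (q11 t) (lp11 t d L) (qq t m)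
      (K11 t d * ((1 / 2) ^ qq t m + (1 / 2) ^ ((t + 5) * L))) ^ q11 t)
      ≤ 16 * (2 ^ (2 * K11 t d) * ((1 / 2) ^ (qq t m / 2 - m / (64 * (t + 1)))) ^ q11 t) := by
        gcongr
    _ = 2 ^ (4 + 2 * K11 t d) * (1 / 2) ^ (q11 t * (qq t m / 2 - m / (64 * (t + 1)))) := by
        rw [← pow_mul, mul_comm (q11 t), pow_add]
        norm_num
        ring
    _ ≤ _ := hp10 (by omega)

theorem sparsenum11 (hmℓ : m ≤ ll11 t L) : (d : ℝ) * (Pe11 t L m : ℝ) ^ (t + 1) +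
    d * ((ll11 t L : ℝ) * (Mm11 t d L : ℝ) * 2 ^ qq t m) ^ (t + 1) ≤
      (Qq11 t d L : ℝ) * 2 ^ (m / 4) := by
  have h1 : qq t m * (t + 1) ≤ m / 4 := by
    unfold qq
    rw [← Nat.div_div_eq_div_mul]
    exact Nat.div_mul_le_self _ _
  have h2 : 2 * s11 t m * (t + 1) ≤ m / 4 := by
    unfold s11
    rw [Nat.le_div_iff_mul_le (by norm_num)]
    have := Nat.div_mul_le_self m (16 * (t + 1))
    nlinarith
  have h3 : (2 : ℕ) ^ (qq t m * (t + 1)) ≤ 2 ^ (m / 4) := Nat.pow_le_pow_right (by norm_num) h1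
  have h4 : (2 : ℕ) ^ (2 * s11 t m * (t + 1)) ≤ 2 ^ (m / 4) :=
    Nat.pow_le_pow_right (by norm_num) h2
  have e1 : Pe11 t L m = 8 * ((t + 3) * L) * m ^ 2 * 2 ^ (2 * s11 t m) := by
    unfold Pe11
    rw [pow_succ 2 (s11 t m), mul_comm 2 (s11 t m), pow_mul]
    ring
  have h5 : d * Pe11 t L m ^ (t + 1) ≤
      d * (8 * ((t + 3) * L) * ll11 t L ^ 2) ^ (t + 1) * 2 ^ (m / 4) := by
    rw [e1, mul_pow (8 * ((t + 3) * L) * m ^ 2), ← pow_mul, mul_assoc d]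
    gcongr
  have h6 : d * (ll11 t L * Mm11 t d L * 2 ^ qq t m) ^ (t + 1) ≤
      d * (ll11 t L * Mm11 t d L) ^ (t + 1) * 2 ^ (m / 4) := by
    rw [mul_pow (ll11 t L * Mm11 t d L), ← pow_mul, mul_assoc d]
    gcongr
  have h7 : d * Pe11 t L m ^ (t + 1) + d * (ll11 t L * Mm11 t d L * 2 ^ qq t m) ^ (t + 1) ≤
      Qq11 t d L * 2 ^ (m / 4) := by
    unfold Qq11
    rw [add_mul]
    exact add_le_add h5 h6
  exact_mod_cast h7

/-- `ν` is small -/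
theorem nu_le11 (hmℓ : m ≤ ll11 t L) : (1 / 2 : ℝ) ^ ((t + 5) * L) ≤ (1 / 2) ^ (m / 2) := by
  refine half_anti ?_
  have h5 : m / 2 ≤ ll11 t L / 2 := Nat.div_le_div_right hmℓ
  have h6 : ll11 t L / 2 = (t + 5) * L := by
    unfold ll11
    rw [show 2 * (t + 5) * L = 2 * ((t + 5) * L) by ring]
    exact Nat.mul_div_cancel_left _ (by norm_num)
  omega

/-- the bound for one covering set of type 2 -/
theorem fb2_11 (hB : Big11 t d L m0) (hm : m0 ≤ m) (hmℓ : m ≤ ll11 t L) :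
    fb11 t d (q11 t) (lp11 t d L) m (W11 (ll11 t L) (Qq11 t d L) ((1 / 2) ^ ((t + 5) * L)) m) ≤
      (1 / 2) ^ (m / 4) := by
  have hg := g_le11 t m
  have hg1 : m / (64 * (t + 1)) ≤ (t + 1) * (m / (64 * (t + 1))) :=
    Nat.le_mul_of_pos_left _ (by omega)
  set X : ℝ := (1 / 2) ^ (m / 2) with hX
  have hX0 : 0 ≤ X := by positivity
  have a1 : (1 / 2 : ℝ) ^ (m - m / 4) ≤ X := half_anti (by omega)
  have a2 : (1 / 2 : ℝ) ^ ((t + 5) * L) ≤ X := nu_le11 hmℓ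
  have a3 : (2 : ℝ) ^ (q11 t * t) ≤ 2 ^ kc11 t d :=
    pow_le_pow_right₀ (by norm_num) (by rw [kparts11]; omega)
  have a4 := qd_le11 t d L
  have a5 := Gr11 hB hm
  rw [G_parts11] at a5
  have hl : (0 : ℝ) ≤ ((ll11 t L : ℝ) + 1) * (Qq11 t d L : ℝ) := by positivity
  unfold fb11 W11
  calc (2 : ℝ) ^ (q11 t * t) * (((ll11 t L : ℝ) + 1) * ((Qq11 t d L : ℝ) *
      (1 / 2) ^ (m - m / 4)) + (1 / 2) ^ ((t + 5) * L)) +
      q11 t * d * (lp11 t d L : ℝ) ^ (t + 1) * (1 / 2) ^ (m / 2)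
      ≤ (2 : ℝ) ^ (q11 t * t) * (((ll11 t L : ℝ) + 1) * ((Qq11 t d L : ℝ) * X) + X) +
        q11 t * d * (lp11 t d L : ℝ) ^ (t + 1) * X := by gcongr
    _ = ((2 : ℝ) ^ (q11 t * t) * (((ll11 t L : ℝ) + 1) * (Qq11 t d L : ℝ) + 1) +
        q11 t * d * (lp11 t d L : ℝ) ^ (t + 1)) * X := by ring
    _ ≤ 2 ^ (m / (64 * (t + 1))) * X := by
        refine mul_le_mul_of_nonneg_right ?_ hX0
        refine le_trans ?_ a5
        have a6 := mul_le_mul_of_nonneg_right a3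
          (show (0 : ℝ) ≤ ((ll11 t L : ℝ) + 1) * (Qq11 t d L : ℝ) + 1 by positivity)
        linarith
    _ ≤ _ := hp10 (by omega)

theorem sig2num11 (hB : Big11 t d L m0) (hm : m0 ≤ m) :
    2 ^ t * W11 (ll11 t L) (Qq11 t d L) ((1 / 2) ^ ((t + 5) * L)) m +
      d * (lp11 t d L : ℝ) ^ (t + 1) * (1 / 2) ^ (m / 2) ≤ 1 / 2 := by
  have hk := kg11 hB hm
  have hkL := hB.kL
  have hg := g_le11 t m
  have hg1 : m / (64 * (t + 1)) ≤ (t + 1) * (m / (64 * (t + 1))) :=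
    Nat.le_mul_of_pos_left _ (by omega)
  have hkp := kparts11 t d
  have a5 := Gr11 hB hm
  rw [G_parts11] at a5
  have hl : (0 : ℝ) ≤ ((ll11 t L : ℝ) + 1) * (Qq11 t d L : ℝ) := by positivity
  have hd : (0 : ℝ) ≤ (d : ℝ) * (lp11 t d L : ℝ) ^ (t + 1) := by positivity
  have ht : (2 : ℝ) ^ t ≤ 2 ^ kc11 t d :=
    pow_le_pow_right₀ (by norm_num) (by omega)
  have h1k : (1 : ℝ) ≤ 2 ^ kc11 t d := one_le_pow₀ (by norm_num)
  have b1 : (2 : ℝ) ^ t * (((ll11 t L : ℝ) + 1) * (Qq11 t d L : ℝ)) ≤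
      2 ^ (m / (64 * (t + 1))) := by
    refine le_trans ?_ a5
    have := mul_le_mul_of_nonneg_right ht hl
    nlinarith
  have b2 : (d : ℝ) * (lp11 t d L : ℝ) ^ (t + 1) ≤ 2 ^ (m / (64 * (t + 1))) := by
    refine le_trans ?_ a5
    nlinarith
  have c1 : (2 : ℝ) ^ t * (((ll11 t L : ℝ) + 1) * (Qq11 t d L : ℝ)) * (1 / 2) ^ (m - m / 4) ≤
      (1 / 2) ^ 3 := hp10' b1 (by omega)
  have c2 : (2 : ℝ) ^ t * (1 / 2) ^ ((t + 5) * L) ≤ (1 / 2) ^ 3 := by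
    refine hp10 ?_
    have : (t + 5) * L = t * L + 5 * L := by ring
    have : t ≤ t * L := Nat.le_mul_of_pos_right _ (by omega)
    omega
  have c3 : (d : ℝ) * (lp11 t d L : ℝ) ^ (t + 1) * (1 / 2) ^ (m / 2) ≤ (1 / 2) ^ 3 :=
    hp10' b2 (by omega)
  unfold W11
  calc 2 ^ t * (((ll11 t L : ℝ) + 1) * ((Qq11 t d L : ℝ) * (1 / 2) ^ (m - m / 4)) +
      (1 / 2) ^ ((t + 5) * L)) + d * (lp11 t d L : ℝ) ^ (t + 1) * (1 / 2) ^ (m / 2)
      = (2 : ℝ) ^ t * (((ll11 t L : ℝ) + 1) * (Qq11 t d L : ℝ)) * (1 / 2) ^ (m - m / 4) +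
        (2 : ℝ) ^ t * (1 / 2) ^ ((t + 5) * L) +
        (d : ℝ) * (lp11 t d L : ℝ) ^ (t + 1) * (1 / 2) ^ (m / 2) := by ring
    _ ≤ (1 / 2) ^ 3 + (1 / 2) ^ 3 + (1 / 2) ^ 3 := by linarith
    _ ≤ 1 / 2 := by norm_num

/-- the power of the bound for one covering set of type 2 -/
theorem fb2_pow11 (hB : Big11 t d L m0) (hm : m0 ≤ m) (hmℓ : m ≤ ll11 t L) :
    fb11 t d (q11 t) (lp11 t d L) m
      (W11 (ll11 t L) (Qq11 t d L) ((1 / 2) ^ ((t + 5) * L)) m) ^ (q11 t - 1) ≤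
      (1 / 2) ^ (8 * (m / 4)) := by
  have h1 := fb2_11 hB hm hmℓ
  have h0 : 0 ≤ fb11 t d (q11 t) (lp11 t d L) m
      (W11 (ll11 t L) (Qq11 t d L) ((1 / 2) ^ ((t + 5) * L)) m) := by
    unfold fb11 W11
    positivity
  refine (pow_le_pow_left₀ h0 h1 _).trans ?_
  rw [← pow_mul]
  refine half_anti ?_
  rw [mul_comm]
  refine Nat.mul_le_mul_left _ ?_
  unfold q11
  omega

theorem fb2_nonneg11 : 0 ≤ fb11 t d (q11 t) (lp11 t d L) m
    (W11 (ll11 t L) (Qq11 t d L) ((1 / 2) ^ ((t + 5) * L)) m) := by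
  unfold fb11 W11
  positivity

theorem type2num11 (hB : Big11 t d L m0) (hm : m0 ≤ m) (hmℓ : m ≤ ll11 t L) :
    64 * (2 ^ K11 t d * (((ll11 t L : ℝ) + 1) * ((Qq11 t d L : ℝ) * 2 ^ (m / 4) *
      fb11 t d (q11 t) (lp11 t d L) m
        (W11 (ll11 t L) (Qq11 t d L) ((1 / 2) ^ ((t + 5) * L)) m) ^ (q11 t - 1)))) ≤
      (1 / 2) ^ (B11 t d + 1) := by
  have h1 := fb2_pow11 hB hm hmℓ
  have hk := kg11 hB hm
  have hg := g_le11 t m
  have hg1 : m / (64 * (t + 1)) ≤ (t + 1) * (m / (64 * (t + 1))) :=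
    Nat.le_mul_of_pos_left _ (by omega)
  rw [kparts11] at hk
  have a5 := Gr11 hB hm
  rw [G_parts11] at a5
  have hl : (0 : ℝ) ≤ ((ll11 t L : ℝ) + 1) * (Qq11 t d L : ℝ) := by positivity
  have hd : (0 : ℝ) ≤ (d : ℝ) * (lp11 t d L : ℝ) ^ (t + 1) := by positivity
  have h1k : (1 : ℝ) ≤ 2 ^ kc11 t d := one_le_pow₀ (by norm_num)
  have b1 : (((ll11 t L : ℝ) + 1) * (Qq11 t d L : ℝ)) ≤ 2 ^ (m / (64 * (t + 1))) := by
    refine le_trans ?_ a5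
    nlinarith
  calc 64 * (2 ^ K11 t d * (((ll11 t L : ℝ) + 1) * ((Qq11 t d L : ℝ) * 2 ^ (m / 4) *
      fb11 t d (q11 t) (lp11 t d L) m
        (W11 (ll11 t L) (Qq11 t d L) ((1 / 2) ^ ((t + 5) * L)) m) ^ (q11 t - 1))))
      ≤ 64 * (2 ^ K11 t d * (((ll11 t L : ℝ) + 1) * ((Qq11 t d L : ℝ) * 2 ^ (m / 4) *
        (1 / 2) ^ (8 * (m / 4))))) := by gcongr
    _ = (64 * 2 ^ K11 t d * 2 ^ (m / 4)) * (((ll11 t L : ℝ) + 1) * (Qq11 t d L : ℝ)) *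
        (1 / 2) ^ (8 * (m / 4)) := by ring
    _ ≤ (64 * 2 ^ K11 t d * 2 ^ (m / 4)) * 2 ^ (m / (64 * (t + 1))) *
        (1 / 2) ^ (8 * (m / 4)) := by gcongr
    _ = 2 ^ (6 + K11 t d + m / 4 + m / (64 * (t + 1))) * (1 / 2) ^ (8 * (m / 4)) := by
        rw [pow_add, pow_add, pow_add]
        norm_num
    _ ≤ _ := hp10 (by omega)

theorem type2Lnum11 (hB : Big11 t d L m0) (hm : m0 ≤ ll11 t L) :
    64 * (2 ^ K11 t d * ((1 / 2) ^ ((t + 5) * L) * fb11 t d (q11 t) (lp11 t d L) (ll11 t L)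
      (W11 (ll11 t L) (Qq11 t d L) ((1 / 2) ^ ((t + 5) * L)) (ll11 t L)) ^ (q11 t - 1))) ≤
      (1 / 2 : ℝ) ^ (B11 t d + 1) * (1 / 2) ^ ((t + 4) * L) := by
  have h1 := fb2_pow11 hB hm le_rfl
  have hkL := hB.kL
  rw [kparts11] at hkL
  have e1 : ll11 t L = 2 * (t * L) + 10 * L := by unfold ll11; ring
  have e2 : (t + 4) * L = t * L + 4 * L := by ring
  have h2 : (1 / 2 : ℝ) ^ ((t + 5) * L) ≤ 1 := pow_le_one₀ (by norm_num) (by norm_num)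
  have h3 := pow_nonneg (fb2_nonneg11 (t := t) (d := d) (L := L) (m := ll11 t L)) (q11 t - 1)
  calc 64 * (2 ^ K11 t d * ((1 / 2) ^ ((t + 5) * L) * fb11 t d (q11 t) (lp11 t d L) (ll11 t L)
      (W11 (ll11 t L) (Qq11 t d L) ((1 / 2) ^ ((t + 5) * L)) (ll11 t L)) ^ (q11 t - 1)))
      ≤ 64 * (2 ^ K11 t d * (1 * (1 / 2) ^ (8 * (ll11 t L / 4)))) := by gcongr
    _ = 2 ^ (6 + K11 t d) * (1 / 2) ^ (8 * (ll11 t L / 4)) := by
        rw [pow_add]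
        norm_num
        ring
    _ ≤ (1 / 2) ^ (B11 t d + 1 + (t + 4) * L) := hp10 (by omega)
    _ = _ := by rw [pow_add]

end Pool.Agent.H.MP_cba12a_lc
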