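import Pool.Agent.H.MP_cba12a_lc.X11.ParD
import Pool.Agent.H.MP_cba12a_lc.X10.NumP

/-!
The choice of the parameters: polynomially bounded functions of `L` are at most `2 ^ (m / u)` for
all `m ≥ c log L`, and polynomially bounded functions of `log L` are at most `L`.
-/

namespace Pool.Agent.H.MP_cba12a_lc

/-- polynomially bounded functions are at most `2 ^ (c * log L)` -/
theorem PB10.le_clog {f : ℕ → ℕ} (hf : PB10 f) :
    ∃ c, ∀ L, 2 ≤ L → f L ≤ 2 ^ (c * Nat.clog 2 L) := by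
  obtain ⟨C, p, hC⟩ := hf
  refine ⟨C + 2 * p, fun L hL => ?_⟩
  have h1 : L ≤ 2 ^ Nat.clog 2 L := Nat.le_pow_clog (by norm_num) L
  have h0 : 1 ≤ Nat.clog 2 L := Nat.clog_pos (by norm_num) hL
  have h2 : L + 1 ≤ 2 ^ (2 * Nat.clog 2 L) := by
    have h3 : 2 ≤ 2 ^ Nat.clog 2 L := by
      calc 2 = 2 ^ 1 := by norm_num
        _ ≤ _ := Nat.pow_le_pow_right (by norm_num) h0
    rw [two_mul, pow_add]
    nlinarith
  have h3 : C ≤ 2 ^ (C * Nat.clog 2 L) :=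
    (Nat.lt_two_pow_self (n := C)).le.trans (Nat.pow_le_pow_right (by norm_num)
      (Nat.le_mul_of_pos_right _ h0))
  calc f L ≤ C * (L + 1) ^ p := hC L
    _ ≤ 2 ^ (C * Nat.clog 2 L) * (2 ^ (2 * Nat.clog 2 L)) ^ p :=
        Nat.mul_le_mul h3 (Nat.pow_le_pow_left h2 p)
    _ = 2 ^ ((C + 2 * p) * Nat.clog 2 L) := by
        rw [← pow_mul, ← pow_add]
        congr 1
        ring

/-- polynomially bounded functions are at most `2 ^ (m / u)` for `m ≥ c * log L` -/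
theorem PB10.le_div {f : ℕ → ℕ} (hf : PB10 f) {u : ℕ} (hu : 0 < u) :
    ∃ c, ∀ L m, 2 ≤ L → c * Nat.clog 2 L ≤ m → f L ≤ 2 ^ (m / u) := by
  obtain ⟨c, hc⟩ := hf.le_clog
  refine ⟨u * c, fun L m hL hm => (hc L hL).trans (Nat.pow_le_pow_right (by norm_num) ?_)⟩
  rw [Nat.le_div_iff_mul_le hu]
  calc c * Nat.clog 2 L * u = u * c * Nat.clog 2 L := by ring
    _ ≤ m := hm

/-- polynomially bounded functions of `log L` are at most `L` -/
theorem PB10.clog_le {f : ℕ → ℕ} (hf : PB10 f) : ∃ c, ∀ L, c ≤ L → f (Nat.clog 2 L) ≤ L := by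
  obtain ⟨C, p, hC⟩ := hf
  obtain ⟨s1, hs1⟩ := exists_pow_le10 (2 * C) p
  refine ⟨2 ^ s1 + 2, fun L hL => ?_⟩
  have hL2 : 2 ≤ L := (Nat.le_add_left _ _).trans hL
  have h0 : s1 ≤ Nat.clog 2 L := by
    rw [← Nat.clog_pow 2 s1 (by norm_num)]
    exact Nat.clog_mono_right 2 ((Nat.le_add_right _ _).trans hL)
  have h1 := hs1 _ h0
  have h2 := hC (Nat.clog 2 L)
  have h3 : 2 ^ (Nat.clog 2 L).pred < L := Nat.pow_pred_clog_lt_self (by norm_num) (by omega)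
  have h4 : 1 ≤ Nat.clog 2 L := Nat.clog_pos (by norm_num) hL2
  have h5 : 2 ^ Nat.clog 2 L = 2 * 2 ^ (Nat.clog 2 L).pred := by
    rw [← pow_succ']
    congr 1
    simp only [Nat.pred_eq_sub_one]
    omega
  have h6 : 2 * C * (Nat.clog 2 L + 1) ^ p = 2 * (C * (Nat.clog 2 L + 1) ^ p) := by ring
  omega

/-! ### The parameters -/

/-- `2 ^ (cN11 t d * L)` bounds the lists -/
def cN11 (t d : ℕ) : ℕ := 2 * B11 t d + K11 t d + 2 * t

/-- `2 ^ (cH11 t d * L)` bounds the number of conjunctions -/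
def cH11 (t d : ℕ) : ℕ := 3 * cN11 t d + t + 4

/-- `B = 2 ^ (cB11 t d * L)` -/
def cB11 (t d : ℕ) : ℕ := cH11 t d + 3 * t + 14

/-- the error of the densities is `2 ^ (- cE11 t d * L)` -/
def cE11 (t d : ℕ) : ℕ := cB11 t d + 4 * t + 20

/-- the maximal length of the needed terms -/
def ll11 (t L : ℕ) : ℕ := 2 * (t + 5) * L

/-- the maximal length of the terms -/
def lp11 (t d L : ℕ) : ℕ := (3 * cE11 t d + t + 30) * L

/-- `d * Pe11 ^ (t+1)` bounds the number of exceptional terms -/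
def Pe11 (t L m : ℕ) : ℕ := 2 * ((t + 3) * L) * (m * 2 ^ (s11 t m + 1)) ^ 2

/-- bound for the total weight -/
def Mm11 (t d L : ℕ) : ℕ :=
  d * ((1 + 2 * (t + 1) * ll11 t L ^ (t + 1)) * (2 * ((t + 3) * L))) ^ (t + 1)

/-- `Qq11 * 2^(m/4)` bounds the number of unfound terms with `m` variables -/
def Qq11 (t d L : ℕ) : ℕ :=
  d * (8 * ((t + 3) * L) * ll11 t L ^ 2) ^ (t + 1) + d * (ll11 t L * Mm11 t d L) ^ (t + 1)

/-- number of extensions of a chain -/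
def Px11 (t d L m : ℕ) : ℕ := 8 * 4 ^ e11 t d m * (cB11 t d * L + 1)

/-- a constant -/
def kc11 (t d : ℕ) : ℕ :=
  C11 t d + B11 t d + 2 * K11 t d + 32 * (t + 1) + q11 t * t + q11 t + m11 t d + t + d + 20

/-- a bound for the polynomial factors -/
def G11 (t d L : ℕ) : ℕ :=
  2 ^ kc11 t d * ((ll11 t L + 1) * Qq11 t d L + d * lp11 t d L ^ (t + 1) + 1)

/-- `L` is large -/
structure Big11 (t d L m0 : ℕ) : Prop where
  kL : kc11 t d ≤ L
  g : ∀ m, m0 ≤ m → G11 t d L ≤ 2 ^ (m / (64 * (t + 1)))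
  sq : m0 ^ 2 ≤ L
  ch : (3 + 2 * e11 t d m0 + (cB11 t d + 1 + Nat.clog 2 L)) * m0 ≤ L
  ex : e11 t d m0 ≤ L

theorem pb_ll11 (t : ℕ) : PB10 (ll11 t) := (PB10.const _).mul PB10.id

theorem pb_lp11 (t d : ℕ) : PB10 (lp11 t d) := (PB10.const _).mul PB10.id

theorem pb_Mm11 (t d : ℕ) : PB10 (Mm11 t d) :=
  (PB10.const _).mul ((((PB10.const _).add ((PB10.const _).mul ((pb_ll11 t).pow _))).mul
    ((PB10.const _).mul ((PB10.const _).mul PB10.id))).pow _)

theorem pb_Qq11 (t d : ℕ) : PB10 (Qq11 t d) :=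
  ((PB10.const _).mul ((((PB10.const 8).mul ((PB10.const (t + 3)).mul PB10.id)).mul
    ((pb_ll11 t).pow 2)).pow _)).add
    ((PB10.const _).mul (((pb_ll11 t).mul (pb_Mm11 t d)).pow _))

theorem pb_G11 (t d : ℕ) : PB10 (G11 t d) :=
  (PB10.const _).mul (((((pb_ll11 t).add (PB10.const 1)).mul (pb_Qq11 t d)).add
    ((PB10.const _).mul ((pb_lp11 t d).pow _))).add (PB10.const 1))

theorem pb_e11 (t d M : ℕ) : PB10 fun s => e11 t d (M * s) := by
  unfold e11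
  exact ((((PB10.const M).mul PB10.id).add (PB10.const t)).add (PB10.const 2)).add
    ((PB10.const d).mul (((PB10.const M).mul PB10.id).pow (t + 1)))

theorem exists_big11 (t d : ℕ) : ∃ c0 M, ∀ L, c0 ≤ L → Big11 t d L (M * Nat.clog 2 L) := by
  obtain ⟨M, hM⟩ := (pb_G11 t d).le_div (u := 64 * (t + 1)) (by positivity)
  have hms : PB10 fun s => M * s := (PB10.const M).mul PB10.id
  obtain ⟨c2, h2⟩ := (hms.pow 2).clog_le
  obtain ⟨c3, h3⟩ := ((((PB10.const 3).add ((PB10.const 2).mul (pb_e11 t d M))).add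
    ((PB10.const (cB11 t d + 1)).add PB10.id)).mul hms).clog_le
  obtain ⟨c4, h4⟩ := (pb_e11 t d M).clog_le
  exact ⟨2 + kc11 t d + c2 + c3 + c4, M, fun L hL => ⟨by omega,
    fun m hm => hM L m (by omega) hm, h2 L (by omega), h3 L (by omega), h4 L (by omega)⟩⟩

end Pool.Agent.H.MP_cba12a_lc
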