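import Pool.Agent.H.MP_cba12a_lc.X10.Jan
import Pool.Agent.H.MP_cba12a_lc.X11.Cn

/-!
The members of a family above `I` which meet a given set.
-/

namespace Pool.Agent.H.MP_cba12a_lc

open Finset

variable {n : ℕ}

/-- the members of `S` with exactly `j` elements in `A` -/
theorem rate1_fib11 (G S : Finset (Finset (Fin n))) (hS : S ⊆ G) (I A : Finset (Fin n))
    (hI : ∀ T ∈ S, I ⊆ T) (j : ℕ) (hj : ∀ T ∈ S, (T ∩ A).card = j) :
    ∑ T ∈ S, (1 / 2 : ℝ) ^ ((T \ I) \ A).card ≤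
      ∑ J ∈ powersetCard j A, rt10 G (I ∪ J) := by
  classical
  rw [← sum_fiberwise_of_maps_to (s := S) (t := powersetCard j A) (g := fun T => T ∩ A)
    (fun T hT => mem_powersetCard.2 ⟨inter_subset_right, hj T hT⟩)]
  apply sum_le_sum
  intro J _
  unfold rt10
  have h1 : ∀ T ∈ S.filter (fun T => T ∩ A = J),
      (1 / 2 : ℝ) ^ ((T \ I) \ A).card = (1 / 2 : ℝ) ^ (T \ (I ∪ J)).card := by
    intro T hT
    rw [mem_filter] at hT
    have h2 : (T \ I) \ A = T \ (I ∪ J) := by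
      ext x
      rw [← hT.2]
      simp only [mem_sdiff, mem_union, mem_inter, not_or, not_and]
      constructor
      · rintro ⟨⟨hx, hxI⟩, hxA⟩
        exact ⟨hx, hxI, fun _ => hxA⟩
      · rintro ⟨hx, hxI, hxA⟩
        exact ⟨⟨hx, hxI⟩, hxA hx⟩
    rw [h2]
  rw [sum_congr rfl h1]
  apply sum_le_sum_of_subset_of_nonneg
  · intro T hT
    rw [mem_filter] at hT ⊢
    refine ⟨hS hT.1, union_subset (hI T hT.1) ?_⟩
    rw [← hT.2]
    exact inter_subset_left
  · intro T _ _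
    positivity

/-- Let `|I| ≤ t`, `A` disjoint from `I`, `|A ∪ I| ≤ ℓ`, and let `Λ ≥ ℓ`, `Λ ≥ 1` be such that
`rt G (I ∪ J) ≤ d Λ^(t+1-|I ∪ J|)` for all nonempty `J ⊆ A` with `|I ∪ J| ≤ t`. Then
`∑ 2^{-|(T \ I) \ A|}` over the members `T ⊇ I` of `G` which meet `A` is at most
`d ℓ^(t+1) + t * ℓ * (d Λ^(t - |I|))`.
Proof: sort the `T` by `J = T ∩ A` (nonempty). If `|I ∪ J| ≤ t` then `(T \ I) \ A = T \ (I ∪ J)`,
and for fixed `j = |J|`, `1 ≤ j ≤ t - |I|`, there are at most `choose |A| j ≤ ℓ^j` sets `J`, each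
with total at most `rt10 G (I ∪ J) ≤ d Λ^(t+1-|I|-j)`, and `ℓ^j Λ^(t+1-|I|-j) ≤ ℓ Λ^(t-|I|)`;
there are at most `t` values of `j`. If `|I ∪ J| ≥ t + 1` then `T` shares at least `t + 1` elements
with `I ∪ A`: at most `d ℓ^(t+1)` such `T` (`card_meet11`), each with a weight at most `1`. -/
theorem meet_rt11 {t d ℓ : ℕ} {Λ : ℝ} (G : Finset (Finset (Fin n))) (hG : Cod t d G)
    {I A : Finset (Fin n)} (hI : I.card ≤ t) (hIA : Disjoint I A) (hA : (I ∪ A).card ≤ ℓ)
    (hΛ1 : 1 ≤ Λ) (hΛ : (ℓ : ℝ) ≤ Λ)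
    (hrt : ∀ J ⊆ A, J.Nonempty → (I ∪ J).card ≤ t →
      rt10 G (I ∪ J) ≤ d * Λ ^ (t + 1 - (I ∪ J).card)) :
    ∑ T ∈ G.filter (fun T => I ⊆ T ∧ ¬ Disjoint T A), (1 / 2 : ℝ) ^ ((T \ I) \ A).card ≤
      d * (ℓ : ℝ) ^ (t + 1) + t * ℓ * (d * Λ ^ (t - I.card)) := by
  classical
  set S := G.filter (fun T => I ⊆ T ∧ ¬ Disjoint T A) with hS
  have hmem : ∀ T ∈ S, T ∈ G ∧ I ⊆ T ∧ ¬ Disjoint T A := fun T hT => mem_filter.1 hT
  have hcardT : ∀ T ∈ S, (T ∩ (I ∪ A)).card = I.card + (T ∩ A).card := by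
    intro T hT
    rw [inter_union_distrib_left, inter_eq_right.2 (hmem T hT).2.1, card_union_of_disjoint]
    exact disjoint_of_subset_right inter_subset_right hIA
  rw [← sum_filter_add_sum_filter_not S (fun T => t + 1 ≤ (T ∩ (I ∪ A)).card)]
  have hAℓ : A.card ≤ ℓ := (card_le_card subset_union_right).trans hA
  apply add_le_add
  · have h1 : (S.filter fun T => t + 1 ≤ (T ∩ (I ∪ A)).card).card ≤ d * ℓ ^ (t + 1) := by
      refine (card_le_card (filter_subset_filter _ (filter_subset _ _))).trans ?_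
      refine (card_meet11 hG (I ∪ A)).trans ?_
      exact Nat.mul_le_mul_left _ (Nat.pow_le_pow_left hA _)
    calc ∑ T ∈ S.filter (fun T => t + 1 ≤ (T ∩ (I ∪ A)).card),
          (1 / 2 : ℝ) ^ ((T \ I) \ A).card
        ≤ ∑ _T ∈ S.filter (fun T => t + 1 ≤ (T ∩ (I ∪ A)).card), (1 : ℝ) :=
          sum_le_sum fun T _ => pow_le_one₀ (by norm_num) (by norm_num)
      _ = ((S.filter fun T => t + 1 ≤ (T ∩ (I ∪ A)).card).card : ℝ) := by
          rw [sum_const, nsmul_eq_mul, mul_one]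
      _ ≤ ((d * ℓ ^ (t + 1) : ℕ) : ℝ) := by exact_mod_cast h1
      _ = d * (ℓ : ℝ) ^ (t + 1) := by push_cast; ring
  · set S2 := S.filter (fun T => ¬ t + 1 ≤ (T ∩ (I ∪ A)).card) with hS2
    have hS2S : S2 ⊆ S := filter_subset _ _
    have hmaps : ∀ T ∈ S2, (T ∩ A).card ∈ Icc 1 (t - I.card) := by
      intro T hT
      have hTS := hS2S hT
      have h1 := (mem_filter.1 hT).2
      rw [hcardT T hTS] at h1
      have h2 : 0 < (T ∩ A).card := by
        rw [card_pos]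
        exact not_disjoint_iff_nonempty_inter.1 (hmem T hTS).2.2
      rw [mem_Icc]
      omega
    rw [← sum_fiberwise_of_maps_to (s := S2) (t := Icc 1 (t - I.card))
      (g := fun T => (T ∩ A).card) hmaps]
    have hpow0 : (0 : ℝ) ≤ ℓ * (d * Λ ^ (t - I.card)) := by
      have : (0 : ℝ) ≤ Λ := by linarith
      positivity
    have hj : ∀ j ∈ Icc 1 (t - I.card),
        ∑ T ∈ S2.filter (fun T => (T ∩ A).card = j), (1 / 2 : ℝ) ^ ((T \ I) \ A).card ≤
          ℓ * (d * Λ ^ (t - I.card)) := by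
      intro j hj
      rw [mem_Icc] at hj
      refine (rate1_fib11 G (S2.filter fun T => (T ∩ A).card = j) ?_ I A ?_ j ?_).trans ?_
      · intro T hT
        exact (hmem T (hS2S (mem_filter.1 hT).1)).1
      · intro T hT
        exact (hmem T (hS2S (mem_filter.1 hT).1)).2.1
      · intro T hT
        exact (mem_filter.1 hT).2
      have h1 : ∀ J ∈ powersetCard j A,
          rt10 G (I ∪ J) ≤ d * Λ ^ (t + 1 - (I.card + j)) := by
        intro J hJ
        rw [mem_powersetCard] at hJ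
        have hc : (I ∪ J).card = I.card + j := by
          rw [card_union_of_disjoint (disjoint_of_subset_right hJ.1 hIA), hJ.2]
        have h2 := hrt J hJ.1 (card_pos.1 (by omega)) (by omega)
        rwa [hc] at h2
      refine (sum_le_sum h1).trans ?_
      rw [sum_const, card_powersetCard, nsmul_eq_mul]
      have hΛ0 : (0 : ℝ) ≤ Λ := by linarith
      have hch : ((A.card.choose j : ℕ) : ℝ) ≤ (ℓ : ℝ) ^ j := by
        have h3 : A.card.choose j ≤ ℓ ^ j :=
          (Nat.choose_le_pow A.card j).trans (Nat.pow_le_pow_left hAℓ _)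
        exact_mod_cast h3
      have h4 : (ℓ : ℝ) ^ j ≤ ℓ * Λ ^ (j - 1) := by
        obtain ⟨i, rfl⟩ : ∃ i, j = i + 1 := ⟨j - 1, by omega⟩
        rw [Nat.add_sub_cancel, pow_succ, mul_comm]
        exact mul_le_mul_of_nonneg_left (pow_le_pow_left₀ (Nat.cast_nonneg _) hΛ _)
          (Nat.cast_nonneg _)
      have h5 : Λ ^ (j - 1) * Λ ^ (t + 1 - (I.card + j)) = Λ ^ (t - I.card) := by
        rw [← pow_add]
        congr 1
        omega
      calc ((A.card.choose j : ℕ) : ℝ) * (d * Λ ^ (t + 1 - (I.card + j)))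
          ≤ (ℓ * Λ ^ (j - 1)) * (d * Λ ^ (t + 1 - (I.card + j))) :=
            mul_le_mul_of_nonneg_right (hch.trans h4) (by positivity)
        _ = ℓ * (d * (Λ ^ (j - 1) * Λ ^ (t + 1 - (I.card + j)))) := by ring
        _ = ℓ * (d * Λ ^ (t - I.card)) := by rw [h5]
    refine (sum_le_sum hj).trans ?_
    rw [sum_const, Nat.card_Icc, nsmul_eq_mul]
    have h6 : ((t - I.card + 1 - 1 : ℕ) : ℝ) ≤ t := by
      have : t - I.card + 1 - 1 ≤ t := by omega
      exact_mod_cast this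
    calc ((t - I.card + 1 - 1 : ℕ) : ℝ) * (ℓ * (d * Λ ^ (t - I.card)))
        ≤ t * (ℓ * (d * Λ ^ (t - I.card))) := mul_le_mul_of_nonneg_right h6 hpow0
      _ = t * ℓ * (d * Λ ^ (t - I.card)) := by ring

end Pool.Agent.H.MP_cba12a_lc
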