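import Pool.Agent.H.MP_cba12a_lc.X11.Cn

/-!
Almost disjoint sequences in a large family of bounded codegree.
-/

namespace Pool.Agent.H.MP_cba12a_lc

open Finset

variable {n : ℕ}

/-- Let all members of `C` be at least as long as `G`. The members `A` with `|A| < 2 q |A ∩ G|`
are at most `d (4 q)^(t+1)`. -/
theorem close_le11 {t d q : ℕ} (hq : 0 < q) {C : Finset (Finset (Fin n))} (hC : Cod t d C)
    {G : Finset (Fin n)} (hG : 4 * q * t < G.card) (hmin : ∀ A ∈ C, G.card ≤ A.card) :
    (C.filter fun A => A.card < 2 * q * (A ∩ G).card).card ≤ d * (4 * q) ^ (t + 1) := by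
  obtain ⟨s, hs⟩ : ∃ s, s = G.card / (2 * q) + 1 := ⟨_, rfl⟩
  have h2q : 0 < 2 * q := by omega
  have h1 : G.card < 2 * q * s := by
    rw [hs, Nat.mul_comm (2 * q), Nat.add_mul, Nat.one_mul]
    exact Nat.lt_div_mul_add h2q
  have h2 : ∀ A ∈ C, A.card < 2 * q * (A ∩ G).card → s ≤ (A ∩ G).card := by
    intro A hA hlt
    rw [hs]
    refine Nat.succ_le_of_lt ((Nat.div_lt_iff_lt_mul h2q).2 ?_)
    rw [Nat.mul_comm]
    exact (hmin A hA).trans_lt hlt
  have h3 : G.card ≤ 4 * q * (s - t) := by
    rw [Nat.mul_sub]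
    have h4 : 4 * q * s = 2 * (2 * q * s) := by ring
    omega
  have h4 : 0 < s - t := by
    rcases Nat.eq_zero_or_pos (s - t) with h | h
    · rw [h, Nat.mul_zero] at h3
      omega
    · exact h
  have h5 := card_share11 hC G s
  have h6 : (C.filter fun A => A.card < 2 * q * (A ∩ G).card).card ≤
      (C.filter fun A => s ≤ (A ∩ G).card).card :=
    card_le_card fun A hA => by
      rw [mem_filter] at hA ⊢
      exact ⟨hA.1, h2 A hA.1 hA.2⟩
  refine h6.trans (Nat.le_of_mul_le_mul_right ?_ (Nat.pow_pos (n := t + 1) h4))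
  calc (C.filter fun A => s ≤ (A ∩ G).card).card * (s - t) ^ (t + 1) ≤
      d * G.card ^ (t + 1) := h5
    _ ≤ d * (4 * q * (s - t)) ^ (t + 1) :=
        Nat.mul_le_mul_left _ (Nat.pow_le_pow_left h3 _)
    _ = d * (4 * q) ^ (t + 1) * (s - t) ^ (t + 1) := by rw [mul_pow]; ring

/-- **Almost disjoint sequences.** A family with more than `k (1 + d (4 q)^(t+1))` members of
bounded codegree contains a shortest member `G` and `k` further members such that each member of
the sequence shares only a small part with the earlier ones. -/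
theorem seq11 {t d q : ℕ} (hq : 0 < q) (k : ℕ) (C : Finset (Finset (Fin n))) (hC : Cod t d C)
    (hbig : ∀ A ∈ C, 4 * q * t < A.card) (hk : k * (1 + d * (4 * q) ^ (t + 1)) < C.card) :
    ∃ G ∈ C, (∀ A ∈ C, G.card ≤ A.card) ∧ ∃ L : List (Finset (Fin n)), L.length = k ∧
      (∀ A ∈ L, A ∈ C) ∧ (G :: L).Pairwise fun B A => 2 * q * (A ∩ B).card ≤ A.card := by
  induction k generalizing C with
  | zero =>
    obtain ⟨G, hG, hmin⟩ := exists_min_image C (fun A => A.card)
      (card_pos.1 (by omega))
    exact ⟨G, hG, hmin, [], rfl, by simp, by simp⟩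
  | succ k ih =>
    obtain ⟨G, hG, hmin⟩ := exists_min_image C (fun A => A.card)
      (card_pos.1 (by omega))
    obtain ⟨C', hC'⟩ : ∃ C', C' = (C.erase G).filter fun A => 2 * q * (A ∩ G).card ≤ A.card :=
      ⟨_, rfl⟩
    have hsub : C' ⊆ C := by
      rw [hC']
      exact (filter_subset _ _).trans (erase_subset _ _)
    have hcard : C.card ≤ C'.card + (1 + d * (4 * q) ^ (t + 1)) := by
      have h1 := close_le11 hq hC (hbig G hG) hmin
      have h2 : C ⊆ C' ∪ (insert G (C.filter fun A => A.card < 2 * q * (A ∩ G).card)) := by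
        intro A hA
        rw [mem_union, mem_insert, mem_filter, hC', mem_filter, mem_erase]
        by_cases h3 : A = G
        · exact Or.inr (Or.inl h3)
        · rcases le_or_gt (2 * q * (A ∩ G).card) A.card with h4 | h4
          · exact Or.inl ⟨⟨h3, hA⟩, h4⟩
          · exact Or.inr (Or.inr ⟨hA, h4⟩)
      have h3 := (card_le_card h2).trans (card_union_le _ _)
      have h4 := card_insert_le G (C.filter fun A => A.card < 2 * q * (A ∩ G).card)
      omega
    obtain ⟨G', hG', _, L, hL, hLC, hpw⟩ := ih C' (hC.mono hsub)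
      (fun A hA => hbig A (hsub hA)) (by
        have h5 : (k + 1) * (1 + d * (4 * q) ^ (t + 1)) =
          k * (1 + d * (4 * q) ^ (t + 1)) + (1 + d * (4 * q) ^ (t + 1)) := by ring
        omega)
    refine ⟨G, hG, hmin, G' :: L, by simp [hL], ?_, ?_⟩
    · intro A hA
      rcases List.mem_cons.1 hA with rfl | hA
      · exact hsub hG'
      · exact hsub (hLC A hA)
    · refine List.pairwise_cons.2 ⟨?_, hpw⟩
      intro A hA
      have hA' : A ∈ C' := by
        rcases List.mem_cons.1 hA with rfl | hA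
        · exact hG'
        · exact hLC A hA
      rw [hC', mem_filter] at hA'
      exact hA'.2

/-- A pairwise good list gives an extension in the sense of `Chn11`. -/
theorem chn_of_list11 {𝒢 : Finset (Finset (Fin n))} {q : ℕ} {on : Finset (Fin n) → Prop}
    (L : List (Finset (Fin n))) : ∀ P : List (Finset (Fin n)), (∀ A ∈ L, A ∈ 𝒢 ∧ on A) →
      (∀ A ∈ L, Gd11 q P A) → L.Pairwise (fun B A => 2 * q * (A ∩ B).card ≤ A.card) →
      Chn11 𝒢 q on L.length P := by
  induction L with
  | nil => intro P _ _ _; trivial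
  | cons A L ih =>
    intro P h1 h2 h3
    rw [List.pairwise_cons] at h3
    refine ⟨A, (h1 A List.mem_cons_self).1, h2 A List.mem_cons_self,
      (h1 A List.mem_cons_self).2, ih (A :: P) ?_ ?_ h3.2⟩
    · exact fun B hB => h1 B (List.mem_cons_of_mem _ hB)
    · intro B hB D hD
      rcases List.mem_cons.1 hD with rfl | hD
      · exact h3.1 B hB
      · exact h2 B (List.mem_cons_of_mem _ hB) D hD

end Pool.Agent.H.MP_cba12a_lc
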