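import Pool.Agent.H.MP_cba12a_lc.X10.Sig1
import Pool.Agent.H.MP_cba12a_lc.X11.Base

/-!
The signal with some variables off.
-/

namespace Pool.Agent.H.MP_cba12a_lc

open Finset

variable {n : ℕ} {o : Fin n → Bool} {g : (Fin n → Bool) → Bool} {F H : Finset (Finset (Fin n))}
  {t d : ℕ}

theorem pr_boff11 (o : Fin n → Bool) (Bs : Finset (Fin n)) :
    pr (BOff o Bs) = (1 / 2) ^ Bs.card := by
  classical
  have h1 := pr_on (fun i => !(o i)) Bs (fun _ => True)
  have h2 : pr (fun _ : Fin n → Bool => True) = 1 := by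
    rw [pr_def]
    simpa using mu_true (n := n)
  rw [h2, mul_one] at h1
  rw [← h1]
  refine pr_congr fun x => ?_
  constructor
  · intro h
    refine ⟨fun i hi => ?_, trivial⟩
    exact Bool.eq_not.2 (h i hi)
  · rintro ⟨h, -⟩ i hi
    exact Bool.eq_not.1 (h i hi)

theorem dnP_boff11 (o : Fin n → Bool) (Bs : Finset (Fin n)) : DnP o (BOff o Bs) := by
  intro i x h b hb
  by_cases hbi : b = i
  · subst hbi
    rw [Function.update_self]
    exact Bool.eq_not.1 rfl
  · rw [Function.update_of_ne hbi]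
    have := h b hb
    rwa [Function.update_of_ne hbi] at this

/-- Switching off a set of variables outside `T`: for a decreasing event `E` (apart from `T` being
on) the density drops at most by the factor `2^{|Bs|}`. Induction on `Bs` (`pr_flp`), or Harris. -/
theorem boff_ge11 {E : (Fin n → Bool) → Prop} (hE : DnP o E) {T Bs : Finset (Fin n)}
    (hBT : Disjoint Bs T) :
    pr (fun x => On o T x ∧ E x) ≤ 2 ^ Bs.card * pr (fun x => (On o T x ∧ E x) ∧ BOff o Bs x) := by
  have h1 : pr (fun x => (On o T x ∧ E x) ∧ BOff o Bs x) =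
      (1 / 2) ^ T.card * pr (fun x => E (sOn o T x) ∧ BOff o Bs x) := by
    rw [← pr_congr (P := fun x => On o T x ∧ (E x ∧ BOff o Bs x))
      (fun x => (and_assoc (a := On o T x)).symm), pr_on]
    congr 1
    refine pr_congr fun x => and_congr_right fun _ => ?_
    refine forall_congr' fun b => forall_congr' fun hb => ?_
    rw [sOn_not_mem (disjoint_left.1 hBT hb)]
  have h2 := harris (hE.sOn T) (dnP_boff11 o Bs)
  rw [pr_boff11] at h2
  have h3 : (2 : ℝ) ^ Bs.card * (1 / 2) ^ Bs.card = 1 := by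
    rw [← mul_pow]; norm_num
  rw [h1, pr_on]
  have h4 : (0 : ℝ) ≤ (1 / 2) ^ T.card := by positivity
  have h5 := mul_le_mul_of_nonneg_left h2 (mul_nonneg (pow_nonneg (by norm_num : (0 : ℝ) ≤ 2) Bs.card) h4)
  calc (1 / 2) ^ T.card * pr (fun x => E (sOn o T x))
      = 2 ^ Bs.card * (1 / 2) ^ T.card * (pr (fun x => E (sOn o T x)) * (1 / 2) ^ Bs.card) := by
        linear_combination (-(1 / 2 : ℝ) ^ T.card * pr (fun x => E (sOn o T x))) * h3
    _ ≤ _ := h5
    _ = _ := by ring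

/-- **Signal, first form.** From `sig1_10` and `boff_ge11`. -/
theorem sig1_11 (hgF : ∀ x, g x = true ↔ ∃ A ∈ F, On o A x) {η : ℝ} (hη : 0 ≤ η)
    (hH : ∀ C ∈ H, C ∈ F ∨ (pr (fun x => On o C x ∧ g x = false) ≤ η ∧ ∀ A ∈ F, ¬ A ⊂ C))
    {T Bs : Finset (Fin n)} (hT : T ∈ Nf F H) (hBT : Disjoint Bs T) :
    (1 / 2) ^ Bs.card * ((1 / 2) ^ T.card * ZT o F T - H.card * η) ≤
      pr (fun x => Only10 o F H T x ∧ BOff o Bs x) := by
  have h1 := sig1_10 hgF hη hH hT
  have hE : DnP o (fun x => (∀ A ∈ F, A ≠ T → ¬ On o A x) ∧ Off o H x) := by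
    refine DnP.and ?_ (dnP_off o H)
    exact fun i x h A hA hAT => dnP_not_on o A i x (h A hA hAT)
  have h2 := boff_ge11 hE hBT
  have h3 : (1 / 2 : ℝ) ^ Bs.card * 2 ^ Bs.card = 1 := by
    rw [← mul_pow]; norm_num
  have h4 : (0 : ℝ) ≤ (1 / 2) ^ Bs.card := by positivity
  have h5 := mul_le_mul_of_nonneg_left (h1.trans h2) h4
  rw [← mul_assoc, h3, one_mul] at h5
  exact h5

end Pool.Agent.H.MP_cba12a_lc
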