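import Pool.Agent.H.MP_cba12a_lc.X11.NumD
import Pool.Agent.H.MP_cba12a_lc.X11.Gen

/-!
Generic sets and off-sets for the constants of the learner.
-/

namespace Pool.Agent.H.MP_cba12a_lc

open Finset

variable {n : ℕ} {F : Finset (Finset (Fin n))} {t d : ℕ}

theorem K11_pos (t d : ℕ) : 0 < K11 t d := by
  unfold K11
  positivity

/-- `D (m / D + 1) > m`, so `2 D (m / D + 1 - t) ≥ m` if `m ≥ 2 D t`. -/
theorem siz_aux11 {D m t : ℕ} (hD : 0 < D) (hm : 2 * D * t ≤ m) :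
    t < m / D + 1 ∧ m ≤ 2 * D * (m / D + 1 - t) := by
  have h1 : m < D * (m / D + 1) := Nat.lt_mul_div_succ m hD
  have h2 : t < m / D + 1 := by
    by_contra hcon
    have h3 : D * (m / D + 1) ≤ D * t := Nat.mul_le_mul_left _ (not_lt.1 hcon)
    have h4 : 2 * D * t = D * t + D * t := by ring
    omega
  refine ⟨h2, ?_⟩
  obtain ⟨u, hu⟩ := Nat.exists_eq_add_of_lt h2
  have h5 : m / D + 1 - t = u + 1 := by omega
  rw [h5]
  have h6 : m / D + 1 = t + (u + 1) := by omega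
  rw [h6] at h1
  have h7 : D * (t + (u + 1)) = D * t + D * (u + 1) := by ring
  have h8 : 2 * D * (u + 1) = D * (u + 1) + D * (u + 1) := by ring
  have h9 : 2 * D * t = D * t + D * t := by ring
  omega

/-- `d m^(t+1) ≤ d (2 D)^(t+1) (m / D + 1 - t)^(t+1)` -/
theorem siz_pow11 {D m t : ℕ} (d : ℕ) (hD : 0 < D) (hm : 2 * D * t ≤ m) :
    d * m ^ (t + 1) ≤ d * (2 * D) ^ (t + 1) * (m / D + 1 - t) ^ (t + 1) := by
  rw [mul_assoc, ← mul_pow]
  exact Nat.mul_le_mul_left _ (Nat.pow_le_pow_left (siz_aux11 hD hm).2 _)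

/-- `16 (t+1) (s11 + 1) > m`, so `32 (t+1) (s11 + 1 - t) ≥ m` if `m ≥ 32 t (t + 1)`. -/
theorem siz_s11 (t d : ℕ) {m : ℕ} (hm : m11 t d ≤ m) :
    t < s11 t m + 1 ∧ d * m ^ (t + 1) ≤ C11 t d * (s11 t m + 1 - t) ^ (t + 1) := by
  have h1 : 2 * (16 * (t + 1)) * t ≤ m := by
    have h2 : 2 * (16 * (t + 1)) * t = 32 * t * (t + 1) := by ring
    unfold m11 at hm
    omega
  have h3 : (0 : ℕ) < 16 * (t + 1) := by positivity
  refine ⟨(siz_aux11 h3 h1).1, ?_⟩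
  have h4 := siz_pow11 d h3 h1
  have h5 : 2 * (16 * (t + 1)) = 32 * (t + 1) := by ring
  rw [h5] at h4
  exact h4

theorem De11_pos {t d : ℕ} (hd : 1 ≤ d) : 4 ≤ De11 t d := by
  unfold De11
  have h1 : 0 < K11 t d ^ (t + 1) := pow_pos (K11_pos t d) _
  calc 4 = 4 * 1 * 1 := by norm_num
    _ ≤ 4 * d * K11 t d ^ (t + 1) := Nat.mul_le_mul (Nat.mul_le_mul_left _ hd) h1

/-- `De (m / De + 1) > m`, so `2 De (m / De + 1 - t) ≥ m` if `m ≥ 2 De t`. -/
theorem siz_g11 {t d : ℕ} (hd : 1 ≤ d) {m : ℕ} (hm : m11 t d ≤ m) :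
    t < m / De11 t d + 1 ∧ d * m ^ (t + 1) ≤ B11 t d * (m / De11 t d + 1 - t) ^ (t + 1) := by
  have h1 : 2 * De11 t d * t ≤ m := by
    unfold m11 at hm
    omega
  have h3 : 0 < De11 t d := lt_of_lt_of_le (by norm_num) (De11_pos hd)
  exact ⟨(siz_aux11 h3 h1).1, siz_pow11 d h3 h1⟩

/-- `K^(t+1) d (m / De) ≤ m / 4` and `K + 2 t ≤ m / 2`. -/
theorem siz_K11 {t d : ℕ} (hd : 1 ≤ d) {m : ℕ} (hm : m11 t d ≤ m) :
    K11 t d ^ (t + 1) * d * (m / De11 t d) + K11 t d + 2 * t ≤ m ∧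
      2 * (m / De11 t d) ≤ m ∧ 4 * q11 t * t < m := by
  have h0 : De11 t d * (m / De11 t d) ≤ m := Nat.mul_div_le m _
  have h1 : 4 * (K11 t d ^ (t + 1) * d * (m / De11 t d)) ≤ m := by
    have h2 : 4 * (K11 t d ^ (t + 1) * d * (m / De11 t d)) = De11 t d * (m / De11 t d) := by
      unfold De11
      ring
    rw [h2]
    exact h0
  have h3 : 2 * (m / De11 t d) ≤ m :=
    (Nat.mul_le_mul_right _ (le_trans (by norm_num) (De11_pos hd))).trans h0
  have h4 : 2 * (K11 t d + 2 * t) ≤ m ∧ 4 * q11 t * t < m := by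
    unfold m11 at hm
    constructor <;> omega
  exact ⟨by omega, h3, h4.2⟩

/-- The number of members sharing at least `s` elements with `T`. -/
theorem card_aux11 (hF : Cod t d F) {T : Finset (Fin n)} {s C : ℕ} (hs : t < s + 1)
    (h : d * T.card ^ (t + 1) ≤ C * (s + 1 - t) ^ (t + 1)) :
    ((F.erase T).filter fun A => s < (A ∩ T).card).card ≤ C := by
  have h1 := card_share11 (hF.mono (erase_subset T F)) T (s + 1)
  have h2 : 0 < (s + 1 - t) ^ (t + 1) := pow_pos (by omega) _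
  exact Nat.le_of_mul_le_mul_right (h1.trans h) h2

/-- The number of members sharing more than `s11` elements with `T` (`card_share11` with
`s = s11 + 1`, `siz_s11`). -/
theorem card_C11 (hF : Cod t d F) {T : Finset (Fin n)} (hm : m11 t d ≤ T.card) :
    ((F.erase T).filter fun A => s11 t T.card < (A ∩ T).card).card ≤ C11 t d :=
  card_aux11 hF (siz_s11 t d hm).1 (siz_s11 t d hm).2

/-- **Generic `R` and off-set.** From `exists_B11` with `g = |T| / De11` (`card_share11`, `siz_g11`)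
and `gen_R11` (`siz_K11`). -/
theorem exists_RB11 (hF : Cod t d F) (hd : 1 ≤ d) {T J : Finset (Fin n)}
    (hm : m11 t d ≤ T.card) (hmin : ∀ A ∈ F, A ≠ T → ¬ A ⊆ T) (hJ : J ⊆ T)
    (hJt : J.card ≤ 2 * t) :
    ∃ R Bs : Finset (Fin n), R ⊆ T ∧ Disjoint J R ∧ R.card = K11 t d ∧ Bs.card ≤ B11 t d ∧
      Disjoint Bs T ∧ (∀ A ∈ F, A ≠ T → Disjoint A Bs → (A ∩ R).card ≤ t + 1) ∧
      ∀ A ∈ F, A ≠ T → Disjoint A Bs → 2 * (A ∩ T).card ≤ T.card := by
  obtain ⟨h1, h2, h3⟩ := siz_K11 hd hm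
  obtain ⟨R, hRT, hRK, hR⟩ := gen_R11 (g := T.card / De11 t d) (K := K11 t d) hF hJ (by omega)
  obtain ⟨Bs, hBs, hBT, hB⟩ := exists_B11 (g := T.card / De11 t d) (NB := B11 t d) hmin
    (card_aux11 hF (siz_g11 hd hm).1 (siz_g11 hd hm).2)
  refine ⟨R, Bs, hRT.trans sdiff_subset, ?_, hRK, hBs, hBT, ?_, ?_⟩
  · exact disjoint_sdiff.mono_right hRT
  · exact fun A hA hAT hdis => hR A hA (hB A hA hAT hdis)
  · intro A hA hAT hdis
    exact (Nat.mul_le_mul_left 2 (hB A hA hAT hdis)).trans h2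

end Pool.Agent.H.MP_cba12a_lc
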