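import Pool.Agent.H.MP_cba12a_lc.X11.Typ1
import Pool.Agent.H.MP_cba12a_lc.X11.Exc
import Pool.Agent.H.MP_cba12a_lc.X10.Typ

/-!
Sparseness of the unfound terms.
-/

namespace Pool.Agent.H.MP_cba12a_lc

open Finset

variable {n : ℕ} {o : Fin n → Bool} {g : (Fin n → Bool) → Bool} {F H : Finset (Finset (Fin n))}
  {t d ℓ ℓ' m0 NH : ℕ} {τ η κ ν M Q1 σ : ℝ} {P : ℕ → ℕ}

theorem wt_union_le11 {G G1 G2 : Finset (Finset (Fin n))} (h : ∀ A ∈ G, A ∈ G1 ∨ A ∈ G2) :
    wt10 G ≤ wt10 G1 + wt10 G2 := by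
  classical
  have h1 : wt10 G ≤ wt10 (G1 ∪ G2) := wt10_mono fun A hA => mem_union.2 (h A hA)
  refine h1.trans ?_
  unfold wt10
  rw [← sum_union_inter]
  have : (0 : ℝ) ≤ ∑ A ∈ G1 ∩ G2, (1 / 2 : ℝ) ^ A.card := wt10_nonneg _
  linarith

/-- If the unfound terms with at most `ℓ` elements through any `r ∈ R` have weight less than
`(1/2)^q`, `q ≤ ℓ`, then the members of `UG11` have at least `q` elements and total weight at most
`|R| ((1/2)^q + ν)`. Proof: a member `A` through `r` with at most `ℓ` elements has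
`(1/2)^|A| < (1/2)^q`; the others are longer than `ℓ ≥ q`. Weight: `wt_meet10` (file `X10/Typ.lean`)
and `hν`. -/
theorem ug_light11 (hν : wt10 (F.filter fun A => ℓ < A.card) ≤ ν) {T R : Finset (Fin n)} {q : ℕ}
    (hq : q ≤ ℓ)
    (hr : ∀ r ∈ R, wt10 (((Nf F H).filter fun A => A.card ≤ ℓ).filter fun A => r ∈ A) <
      (1 / 2) ^ q) :
    (∀ A ∈ UG11 F H T R, q ≤ A.card) ∧ wt10 (UG11 F H T R) ≤ R.card * ((1 / 2) ^ q + ν) := by
  constructor
  · intro A hA
    rw [mem_UG11] at hA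
    obtain ⟨_, hAN, hAR⟩ := hA
    by_cases hAℓ : A.card ≤ ℓ
    · rw [not_disjoint_iff] at hAR
      obtain ⟨r, hrA, hrR⟩ := hAR
      have hmem : A ∈ ((Nf F H).filter fun A => A.card ≤ ℓ).filter fun A => r ∈ A := by
        rw [mem_filter, mem_filter, mem_Nf]
        exact ⟨⟨hAN, hAℓ⟩, hrA⟩
      have h1 : (1 / 2 : ℝ) ^ A.card ≤
          wt10 (((Nf F H).filter fun A => A.card ≤ ℓ).filter fun A => r ∈ A) := by
        unfold wt10
        exact single_le_sum (f := fun A : Finset (Fin n) => (1 / 2 : ℝ) ^ A.card)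
          (fun B _ => by positivity) hmem
      have h2 := h1.trans_lt (hr r hrR)
      by_contra hcon
      have h3 : (1 / 2 : ℝ) ^ q ≤ (1 / 2) ^ A.card :=
        pow_le_pow_of_le_one (by norm_num) (by norm_num) (not_le.1 hcon).le
      linarith
    · omega
  · have h1 := wt_meet10 ((Nf F H).erase T) R
    have h2 : UG11 F H T R = ((Nf F H).erase T).filter fun A => ¬ Disjoint A R := rfl
    rw [h2]
    refine h1.trans ?_
    rw [← nsmul_eq_mul]
    refine sum_le_card_nsmul R _ _ fun r hrR => ?_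
    have h3 : wt10 (((Nf F H).erase T).filter fun A => r ∈ A) ≤
        wt10 (((Nf F H).filter fun A => A.card ≤ ℓ).filter fun A => r ∈ A) +
          wt10 (F.filter fun A => ℓ < A.card) := by
      refine wt_union_le11 fun A hA => ?_
      rw [mem_filter, mem_erase] at hA
      by_cases hAℓ : A.card ≤ ℓ
      · left
        rw [mem_filter]
        exact ⟨mem_filter.2 ⟨hA.1.2, hAℓ⟩, hA.2⟩
      · right
        rw [mem_filter]
        exact ⟨(mem_Nf.1 hA.1.2).1, by omega⟩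
    have h4 := hr r hrR
    linarith

/-- **Sparseness.** If no unfound term is detected, there are few unfound terms with `m` elements.
Proof: let `G` be the unfound terms with at most `ℓ` elements, `δ = (1/2)^(qq t m)`, `V` the set of
all `i` with `δ ≤ wt10 (G.filter (i ∈ ·))`; `|V| δ ≤ ℓ wt10 G ≤ ℓ M` (`card_V10`). An unfound `T` with
`m` elements is exceptional (`Exc11`, at most `d (P m)^(t+1)` by `hQ`) or has at least `t + 1`
elements in `V` (at most `d |V|^(t+1)` by `card_meet11`), or it is detected: there is `J0 ⊆ T`,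
`|J0| ≤ t`, satisfying the hypothesis `hhot` of `type1_11`; `J = J0 ∪ (T ∩ V)` has at most `2 t`
elements; `exists_RB11`; no `r ∈ R` is in `V` as `R ⊆ T` is disjoint from `J`; `ug_light11`
(`qq t m ≤ m ≤ ℓ`). Finally `hN.sparse`. Compare `sparse10` (file `X10/St2.lean`). -/
theorem sparse11 (hN : Num11 t d n ℓ ℓ' m0 τ η κ ν M Q1 σ P NH) (hg : Up o g)
    (hgF : ∀ x, g x = true ↔ ∃ A ∈ F, On o A x) (hF : Cod t d F) (hHN : H.card ≤ NH)
    (hH : ∀ C ∈ H, C ∈ F ∨ (pr (fun x => On o C x ∧ g x = false) ≤ η ∧ ∀ A ∈ F, ¬ A ⊂ C))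
    (hanti : ∀ G ∈ Nf F H, ∀ A ∈ F, A ≠ G → ¬ A ⊆ G) (hℓ' : ∀ A ∈ F, A.card ≤ ℓ')
    (hm0 : ∀ T ∈ Nf F H, m0 ≤ T.card)
    (hAss : ∀ T ∈ Nf F H, ∀ J ⊆ T, J.card ≤ t → τ ≤ ZZ o g J)
    (hQ : ∀ m, m0 ≤ m → m ≤ ℓ →
      (Exc11 o g t (s11 t m) ((Nf F H).filter fun T => T.card = m)).card ≤ d * P m ^ (t + 1))
    (hM : wt10 ((Nf F H).filter fun T => T.card ≤ ℓ) ≤ M)
    (hst : ∀ T ∈ Nf F H, T.card ≤ ℓ → ∀ J R Bs : Finset (Fin n), J ⊆ T → R ⊆ T →
      Disjoint J R → Disjoint Bs T → J.card ≤ 2 * t → R.card = K11 t d → Bs.card ≤ B11 t d →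
      ¬ Det11 o F H T J R Bs σ)
    {m : ℕ} (hm1 : m0 ≤ m) (hmℓ : m ≤ ℓ) :
    (((Nf F H).filter fun T => T.card = m).card : ℝ) ≤ Q1 * 2 ^ (m / 4) := by
  classical
  set N : Finset (Finset (Fin n)) := (Nf F H).filter fun T => T.card ≤ ℓ with hNdef
  set δ : ℝ := (1 / 2) ^ qq t m with hδ
  have hδ0 : 0 < δ := by positivity
  set V : Finset (Fin n) := univ.filter fun i : Fin n => δ ≤ wt10 (N.filter fun A => i ∈ A) with hV
  have hNF : Nf F H ⊆ F := filter_subset _ _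
  have htℓ : t ≤ ℓ := by
    have h1 := hN.m0_big
    have h2 : t ≤ 32 * t * (t + 1) := by nlinarith
    unfold m11 at h1
    omega
  have hν : wt10 (F.filter fun A => ℓ < A.card) ≤ ν := wt_long11 hF htℓ hN.long
  have claim : ((Nf F H).filter fun T => T.card = m) ⊆
      Exc11 o g t (s11 t m) ((Nf F H).filter fun T => T.card = m) ∪
        N.filter fun T => t + 1 ≤ (T ∩ V).card := by
    intro T hT
    have hT' := hT
    rw [mem_filter] at hT
    obtain ⟨hTN, hTm⟩ := hT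
    have hTF : T ∈ F := hNF hTN
    have hTN' : T ∈ N := mem_filter.2 ⟨hTN, by omega⟩
    rw [mem_union, mem_filter, mem_Exc11]
    by_contra hcon
    push Not at hcon
    obtain ⟨c1, c2⟩ := hcon
    obtain ⟨J0, hJ0T, hJ0t, hJ0s⟩ := c1 hT'
    have hTV : (T ∩ V).card ≤ t := by
      have := c2 hTN'
      omega
    have hJT : J0 ∪ (T ∩ V) ⊆ T := union_subset hJ0T inter_subset_left
    have hJt : (J0 ∪ (T ∩ V)).card ≤ 2 * t := by
      have := card_union_le J0 (T ∩ V)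
      omega
    obtain ⟨R, Bs, hRT, hJR, hRK, hBc, hBT, hgen, _⟩ := exists_RB11 hF hN.hd
      (hN.m0_big.trans (hm0 T hTN)) (hanti T hTN) hJT hJt
    have hrate : ∀ r ∈ R, wt10 (((Nf F H).filter fun A => A.card ≤ ℓ).filter fun A => r ∈ A) <
        (1 / 2) ^ qq t m := by
      intro r hr
      by_contra hc
      rw [not_lt] at hc
      have hrV : r ∈ V := by
        rw [hV, mem_filter]
        exact ⟨mem_univ _, hc⟩
      exact (disjoint_left.1 hJR (mem_union_right _ (mem_inter.2 ⟨hRT hr, hrV⟩))) hr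
    have hqℓ : qq t m ≤ ℓ := (Nat.div_le_self _ _).trans hmℓ
    obtain ⟨hlen, hwt⟩ := ug_light11 hν (T := T) hqℓ hrate
    rw [hRK] at hwt
    have hTℓ : T.card ≤ ℓ := by omega
    refine hst T hTN hTℓ (J0 ∪ (T ∩ V)) R Bs hJT hRT hJR hBT hJt hRK hBc ?_
    refine type1_11 hN hg hgF hF hHN hH hanti hℓ' hm0 hTN hTℓ subset_union_left hJT hRT hJR hRK
      hBc hBT hgen ?_ (hAss T hTN J0 hJ0T hJ0t) ?_ ?_
    · rw [hTm]
      exact hJ0s
    · rw [hTm]
      exact hlen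
    · rw [hTm]
      exact hwt
  have hVc : (V.card : ℝ) ≤ ℓ * M * 2 ^ qq t m := by
    have h1 := card_V10 N (fun T hT => (mem_filter.1 hT).2) δ (ℓ := ℓ)
    have h2 : (ℓ : ℝ) * wt10 N ≤ ℓ * M := mul_le_mul_of_nonneg_left hM (Nat.cast_nonneg _)
    have h3 : (V.card : ℝ) * δ ≤ ℓ * M := h1.trans h2
    have h4 : δ * 2 ^ qq t m = 1 := by
      rw [hδ, ← mul_pow]
      norm_num
    have h5 : (0 : ℝ) < 2 ^ qq t m := by positivity
    calc (V.card : ℝ) = V.card * δ * 2 ^ qq t m := by rw [mul_assoc, h4, mul_one]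
      _ ≤ ℓ * M * 2 ^ qq t m := mul_le_mul_of_nonneg_right h3 h5.le
  have hheavy : ((N.filter fun T => t + 1 ≤ (T ∩ V).card).card : ℝ) ≤
      d * (ℓ * M * 2 ^ qq t m) ^ (t + 1) := by
    have hNS : Cod t d N := hF.mono ((filter_subset _ _).trans hNF)
    have h1 := card_meet11 hNS V
    calc ((N.filter fun T => t + 1 ≤ (T ∩ V).card).card : ℝ) ≤ d * (V.card : ℝ) ^ (t + 1) := by
          exact_mod_cast h1
      _ ≤ _ := mul_le_mul_of_nonneg_left (pow_le_pow_left₀ (Nat.cast_nonneg _) hVc _)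
        (Nat.cast_nonneg _)
  have hexc : ((Exc11 o g t (s11 t m) ((Nf F H).filter fun T => T.card = m)).card : ℝ) ≤
      d * (P m : ℝ) ^ (t + 1) := by
    exact_mod_cast hQ m hm1 hmℓ
  have hfin : (((Nf F H).filter fun T => T.card = m).card : ℝ) ≤
      (Exc11 o g t (s11 t m) ((Nf F H).filter fun T => T.card = m)).card +
        (N.filter fun T => t + 1 ≤ (T ∩ V).card).card := by
    exact_mod_cast (card_le_card claim).trans (card_union_le _ _)
  have := hN.sparse m hm1 hmℓ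
  linarith

end Pool.Agent.H.MP_cba12a_lc
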