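import Pool.Agent.H.MP_cba12a_lc.X11.Siz
import Pool.Agent.H.MP_cba12a_lc.X11.Hot
import Pool.Agent.H.MP_cba12a_lc.X11.Noise1
import Pool.Agent.H.MP_cba12a_lc.X11.Sig1

/-!
Detection, type 1.
-/

namespace Pool.Agent.H.MP_cba12a_lc

open Finset

variable {n : ℕ} {o : Fin n → Bool} {g : (Fin n → Bool) → Bool} {F H : Finset (Finset (Fin n))}
  {t d ℓ ℓ' m0 NH : ℕ} {τ η κ ν M Q1 σ : ℝ} {P : ℕ → ℕ}

/-- **Type 1.** Signal: `nonhot11` with `s = s11 t m`, `N = C11` (`card_C11`), `U = J0`: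
`ZT(T) ≥ (1/2)^(C11+1) Z(J0)`; `sig1_11`, `hN.hη`, `τ ≤ Z(J0)`, `m ≤ ℓ`: the signal is at least
`(1/2)^(m + C11 + 2 + B11) Z(J0)`. Noise: `noise1_11` with `k = q11 t - 1`, `m1 = qq t m`,
`W = K11 ((1/2)^(qq t m) + ν)`, `Z(J) ≤ Z(J0)` (`ZZ_anti`), `hN.type1`; `hN.σ1`. -/
theorem type1_11 (hN : Num11 t d n ℓ ℓ' m0 τ η κ ν M Q1 σ P NH) (hg : Up o g)
    (hgF : ∀ x, g x = true ↔ ∃ A ∈ F, On o A x) (hF : Cod t d F) (hHN : H.card ≤ NH)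
    (hH : ∀ C ∈ H, C ∈ F ∨ (pr (fun x => On o C x ∧ g x = false) ≤ η ∧ ∀ A ∈ F, ¬ A ⊂ C))
    (hanti : ∀ G ∈ Nf F H, ∀ A ∈ F, A ≠ G → ¬ A ⊆ G) (hℓ' : ∀ A ∈ F, A.card ≤ ℓ')
    (hm0 : ∀ T ∈ Nf F H, m0 ≤ T.card) {T J0 J R Bs : Finset (Fin n)} (hT : T ∈ Nf F H)
    (hTℓ : T.card ≤ ℓ) (hJ0 : J0 ⊆ J) (hJ : J ⊆ T) (hR : R ⊆ T) (hJR : Disjoint J R)
    (hRK : R.card = K11 t d) (hBc : Bs.card ≤ B11 t d) (hBT : Disjoint Bs T)
    (hgen : ∀ A ∈ F, A ≠ T → Disjoint A Bs → (A ∩ R).card ≤ t + 1)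
    (hhot : ∑ i ∈ T \ J0, (ZZ o g J0 - ZZ o g (insert i J0)) ≤
      (1 / 2) ^ (s11 t T.card + 1) * ZZ o g J0) (hτ : τ ≤ ZZ o g J0)
    (hlen : ∀ A ∈ UG11 F H T R, qq t T.card ≤ A.card)
    (hwt : wt10 (UG11 F H T R) ≤ K11 t d * ((1 / 2) ^ qq t T.card + ν)) :
    Det11 o F H T J R Bs σ := by
  have hTF : T ∈ F := (mem_Nf.1 hT).1
  have hm0T : m0 ≤ T.card := hm0 T hT
  have hm : m11 t d ≤ T.card := hN.m0_big.trans hm0T
  have hJ0T : J0 ⊆ T := hJ0.trans hJ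
  have hZ0 : 0 ≤ ZZ o g J0 := ZZ_nonneg o g J0
  -- the signal
  have h1 : ZZ o g J0 ≤ 2 ^ (C11 t d + 1) * ZT o F T :=
    nonhot11 hgF hTF (hanti T hT) hJ0T (card_C11 hF hm) hhot
  have h2 := sig1_11 (H := H) hgF hN.η_nonneg hH hT hBT
  have e1 : (1 / 2 : ℝ) ^ (C11 t d + 1) * 2 ^ (C11 t d + 1) = 1 := by
    rw [← mul_pow]; norm_num
  have h3 : (1 / 2 : ℝ) ^ (C11 t d + 1) * ZZ o g J0 ≤ ZT o F T := by
    have := mul_le_mul_of_nonneg_left h1 (by positivity : (0 : ℝ) ≤ (1 / 2) ^ (C11 t d + 1))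
    rwa [← mul_assoc, e1, one_mul] at this
  have h4 : (1 / 2 : ℝ) ^ (T.card + C11 t d + 1) * ZZ o g J0 ≤ (1 / 2) ^ T.card * ZT o F T := by
    have := mul_le_mul_of_nonneg_left h3 (by positivity : (0 : ℝ) ≤ (1 / 2) ^ T.card)
    rwa [← mul_assoc, ← pow_add, ← add_assoc] at this
  have hpw : ∀ c : ℕ, (1 / 2 : ℝ) ^ (ℓ + c) ≤ (1 / 2) ^ (T.card + c) := fun c =>
    pow_le_pow_of_le_one (by norm_num) (by norm_num) (by omega)
  have h5 : (H.card : ℝ) * η ≤ (1 / 2) ^ (T.card + C11 t d + 2) * ZZ o g J0 := by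
    have a1 : (H.card : ℝ) * η ≤ NH * η :=
      mul_le_mul_of_nonneg_right (by exact_mod_cast hHN) hN.η_nonneg
    have a2 : (1 / 2 : ℝ) ^ (ℓ + C11 t d + 2) * τ ≤
        (1 / 2) ^ (T.card + C11 t d + 2) * ZZ o g J0 := by
      have := hpw (C11 t d + 2)
      rw [← add_assoc, ← add_assoc] at this
      exact mul_le_mul this hτ hN.τ_pos.le (by positivity)
    exact (a1.trans hN.hη).trans a2
  have h6 : (1 / 2 : ℝ) ^ (T.card + C11 t d + 2) * ZZ o g J0 ≤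
      (1 / 2) ^ T.card * ZT o F T - H.card * η := by
    have e2 : (1 / 2 : ℝ) ^ (T.card + C11 t d + 1) =
        2 * (1 / 2 : ℝ) ^ (T.card + C11 t d + 2) := by
      rw [pow_succ (1 / 2 : ℝ) (T.card + C11 t d + 1)]; ring
    rw [e2] at h4
    linarith
  have h7 : (1 / 2 : ℝ) ^ (T.card + C11 t d + 2 + B11 t d) * ZZ o g J0 ≤
      pr (fun x => Only10 o F H T x ∧ BOff o Bs x) := by
    refine le_trans ?_ h2
    have b1 : (1 / 2 : ℝ) ^ B11 t d ≤ (1 / 2) ^ Bs.card :=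
      pow_le_pow_of_le_one (by norm_num) (by norm_num) hBc
    have b2 : (0 : ℝ) ≤ (1 / 2 : ℝ) ^ (T.card + C11 t d + 2) * ZZ o g J0 := by positivity
    calc (1 / 2 : ℝ) ^ (T.card + C11 t d + 2 + B11 t d) * ZZ o g J0
        = (1 / 2) ^ B11 t d * ((1 / 2 : ℝ) ^ (T.card + C11 t d + 2) * ZZ o g J0) := by
          rw [pow_add (1 / 2 : ℝ) (T.card + C11 t d + 2)]; ring
      _ ≤ (1 / 2) ^ Bs.card * ((1 / 2 : ℝ) ^ (T.card + C11 t d + 2) * ZZ o g J0) :=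
          mul_le_mul_of_nonneg_right b1 b2
      _ ≤ _ := mul_le_mul_of_nonneg_left h6 (by positivity)
  -- the noise
  have hq1 : 0 < q11 t := by unfold q11; positivity
  have hq : q11 t - 1 + 1 = q11 t := by omega
  have hbig : ∀ A ∈ Nf F H, 4 * q11 t * t < A.card := fun A hA =>
    (siz_K11 hN.hd (hN.m0_big.trans (hm0 A hA))).2.2
  have hk : (t + 1) * ((q11 t - 1) * (1 + d * (4 * q11 t) ^ (t + 1)) + 1) ≤ R.card := by
    rw [hRK]; exact le_rfl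
  have h8 := noise1_11 (o := o) (g := g) (F := F) (H := H) (t := t) (d := d) (q := q11 t)
    (k := q11 t - 1) (ℓ' := ℓ') (m1 := qq t T.card)
    (W := K11 t d * ((1 / 2) ^ qq t T.card + ν)) (by omega) hgF hF hJ hR hJR hBT hbig hℓ' hgen hk
    hlen hwt
  rw [hq, hRK] at h8
  have h9 := hN.type1 T.card hm0T hTℓ
  have hJJ : ZZ o g J ≤ ZZ o g J0 := ZZ_anti hg hJ0
  have hZJ := ZZ_nonneg o g J
  have h10 : 16 * pr (fun x => On o J x ∧ Cov10 o F H T R x ∧ BOff o Bs x) ≤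
      (1 / 2 : ℝ) ^ (T.card + C11 t d + 2 + B11 t d) * ZZ o g J0 := by
    have c1 := mul_le_mul_of_nonneg_right h9 hZJ
    have c2 := mul_le_mul_of_nonneg_left hJJ
      (by positivity : (0 : ℝ) ≤ (1 / 2) ^ (T.card + C11 t d + 2 + B11 t d))
    calc 16 * pr (fun x => On o J x ∧ Cov10 o F H T R x ∧ BOff o Bs x)
        ≤ 16 * (2 ^ (2 * K11 t d) * fb11 t d (q11 t) ℓ' (qq t T.card)
            (K11 t d * ((1 / 2) ^ qq t T.card + ν)) ^ q11 t * ZZ o g J) :=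
          mul_le_mul_of_nonneg_left h8 (by norm_num)
      _ = 16 * (2 ^ (2 * K11 t d) * fb11 t d (q11 t) ℓ' (qq t T.card)
            (K11 t d * ((1 / 2) ^ qq t T.card + ν)) ^ q11 t) * ZZ o g J := by ring
      _ ≤ _ := c1.trans c2
  refine ⟨h10.trans h7, le_trans ?_ h7⟩
  have d1 := hpw (C11 t d + 2 + B11 t d)
  rw [← add_assoc, ← add_assoc, ← add_assoc, ← add_assoc] at d1
  exact hN.σ1.trans (mul_le_mul d1 hτ hN.τ_pos.le (by positivity))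

end Pool.Agent.H.MP_cba12a_lc
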